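import Mathlib
import Pool.Agent.TH507.Defs

/-!
Definitions for the questions on the treewidth threshold of minors. Treewidth, minors and planarity
are those of `Pool.Agent.TH507.Defs`.
-/

set_option autoImplicit false

namespace Pool.Agent.R34

open SimpleGraph
open Pool.Agent.TH507.Host

/-- every finite graph of treewidth at least `k` has `H` as a minor -/
def Forces {W : Type} (H : SimpleGraph W) (k : ℕ) : Prop :=
  ∀ (V : Type) [Fintype V] (G : SimpleGraph V), k ≤ tw G → IsMinor H G

/-- `f(H) = k`: the least integer `k` such that every finite graph of treewidth at least `k` has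
`H` as a minor -/
def Threshold {W : Type} (H : SimpleGraph W) (k : ℕ) : Prop :=
  IsLeast {k | Forces H k} k

/-- the disjoint union of `s` cycles of length four and `m` isolated vertices; the vertices of the
cycle number `i` are `Sum.inl (i, a)` with `a : Fin 4`, the isolated vertices are `Sum.inr l` -/
def cycles (s m : ℕ) : SimpleGraph ((Fin s × Fin 4) ⊕ Fin m) where
  Adj x y := ∃ (i : Fin s) (a b : Fin 4), x = Sum.inl (i, a) ∧ y = Sum.inl (i, b) ∧
    (cycleGraph 4).Adj a b
  symm := ⟨fun _ _ ⟨i, a, b, h1, h2, h3⟩ => ⟨i, b, a, h2, h1, h3.symm⟩⟩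
  loopless := ⟨by
    rintro _ ⟨i, a, b, rfl, h2, h3⟩
    have h4 : a = b := by simpa using h2
    subst h4
    exact (cycleGraph 4).loopless.irrefl a h3⟩

/-- the graph `H` together with one new vertex `none`, whose only neighbour is `v` -/
def addPendant {W : Type} (H : SimpleGraph W) (v : W) : SimpleGraph (Option W) where
  Adj x y := (∃ a b, x = some a ∧ y = some b ∧ H.Adj a b) ∨
    (x = none ∧ y = some v) ∨ (x = some v ∧ y = none)
  symm := ⟨by
    rintro x y (⟨a, b, h1, h2, h3⟩ | ⟨h1, h2⟩ | ⟨h1, h2⟩)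
    · exact Or.inl ⟨b, a, h2, h1, h3.symm⟩
    · exact Or.inr (Or.inr ⟨h2, h1⟩)
    · exact Or.inr (Or.inl ⟨h2, h1⟩)⟩
  loopless := ⟨by
    rintro x (⟨a, b, rfl, h2, h3⟩ | ⟨rfl, h2⟩ | ⟨rfl, h2⟩)
    · have h4 : a = b := by simpa using h2
      subst h4
      exact H.loopless.irrefl a h3
    · simp at h2
    · simp at h2⟩

/-- the graph obtained from `H` by subdividing the edge `u v` once: the edge `u v` is replaced by
the new vertex `none` and the two edges from it to `u` and to `v` -/
def subdivide {W : Type} (H : SimpleGraph W) (u v : W) : SimpleGraph (Option W) where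
  Adj x y := (∃ a b, x = some a ∧ y = some b ∧ H.Adj a b ∧ s(a, b) ≠ s(u, v)) ∨
    (x = none ∧ (y = some u ∨ y = some v)) ∨ (y = none ∧ (x = some u ∨ x = some v))
  symm := ⟨by
    rintro x y (⟨a, b, h1, h2, h3, h4⟩ | h | h)
    · exact Or.inl ⟨b, a, h2, h1, h3.symm, fun h => h4 (by rw [Sym2.eq_swap, h])⟩
    · exact Or.inr (Or.inr h)
    · exact Or.inr (Or.inl h)⟩
  loopless := ⟨by
    rintro x (⟨a, b, rfl, h2, h3, -⟩ | ⟨rfl, h2⟩ | ⟨rfl, h2⟩)
    · have h4 : a = b := by simpa using h2
      subst h4
      exact H.loopless.irrefl a h3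
    · simp at h2
    · simp at h2⟩

end Pool.Agent.R34
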