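import Mathlib
import Pool.Agent.TH507.Defs

/-!
Definitions: vertex identifications and edge contractions to a minor-closed class of graphs.
Minors and planarity are those of `Pool.Agent.TH507.Defs`.
-/

set_option autoImplicit false

namespace Pool.Agent.R34.Ident

open SimpleGraph
open Pool.Agent.TH507.Host

/-- a class of graphs; only its finite members play a role below -/
abbrev GraphClass : Type 1 := ∀ V : Type, SimpleGraph V → Prop

/-- the class `C` contains every (finite) minor of each of its finite members; in particular it is
closed under isomorphism -/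
def MinorClosed (C : GraphClass) : Prop :=
  ∀ (V W : Type) [Finite V] [Finite W] (G : SimpleGraph V) (H : SimpleGraph W),
    C V G → IsMinor H G → C W H

/-- `H` is the quotient of `G` under the vertex map `q`: the map `q` is surjective, and two
different vertices of `H` are adjacent if and only if some edge of `G` joins their preimages -/
def IsImage {V W : Type} (G : SimpleGraph V) (q : V → W) (H : SimpleGraph W) : Prop :=
  Function.Surjective q ∧ ∀ a b, H.Adj a b ↔ a ≠ b ∧ ∃ x y, q x = a ∧ q y = b ∧ G.Adj x y

/-- `G` admits a `k`-identification to `C`: there is a set `X` of at most `k` vertices and a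
partition of `X` (the fibres of `q` on `X`; all other vertices of `G` are alone in their fibre) such
that identifying each part gives a graph in `C` -/
def IdLE {V : Type} (C : GraphClass) (G : SimpleGraph V) (k : ℕ) : Prop :=
  ∃ (W : Type) (H : SimpleGraph W) (X : Finset V) (q : V → W), X.card ≤ k ∧
    (∀ x y, q x = q y → x = y ∨ (x ∈ X ∧ y ∈ X)) ∧ IsImage G q H ∧ C W H

/-- the identification distance of `G` to `C` -/
noncomputable def idn {V : Type} (C : GraphClass) (G : SimpleGraph V) : ℕ := sInf {k | IdLE C G k}

/-- `H` is obtained from `G` by contracting one edge `u v` -/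
def EdgeContraction {V W : Type} (G : SimpleGraph V) (H : SimpleGraph W) : Prop :=
  ∃ (u v : V) (q : V → W), G.Adj u v ∧
    (∀ x y, q x = q y ↔ x = y ∨ (x = u ∧ y = v) ∨ (x = v ∧ y = u)) ∧ IsImage G q H

/-- `H` is obtained (up to isomorphism) from `G` by exactly `j` successive edge contractions -/
def Contracts {V : Type} (G : SimpleGraph V) : ℕ → ∀ W : Type, SimpleGraph W → Prop
  | 0, _, H => Nonempty (G ≃g H)
  | j + 1, _, H => ∃ (U : Type) (K : SimpleGraph U), Contracts G j U K ∧ EdgeContraction K H

/-- some `j` successive edge contractions turn `G` into a graph in `C` -/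
def Reaches {V : Type} (C : GraphClass) (G : SimpleGraph V) (j : ℕ) : Prop :=
  ∃ (W : Type) (H : SimpleGraph W), Contracts G j W H ∧ C W H

/-- the contraction distance of `G` to `C` -/
noncomputable def ec {V : Type} (C : GraphClass) (G : SimpleGraph V) : ℕ :=
  sInf {j | Reaches C G j}

/-- the question for the class `C`: there is a function `f` with `ec(G) ≤ f(id(G))` for all finite
graphs `G` which can be contracted to a graph in `C` -/
def Bounded (C : GraphClass) : Prop :=
  ∃ f : ℕ → ℕ, ∀ (V : Type) [Finite V] (G : SimpleGraph V), (∃ j, Reaches C G j) →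
    ec C G ≤ f (idn C G)

/-- `G` is an apex-forest: some vertex meets all the cycles of `G` -/
def ApexForest {V : Type} (G : SimpleGraph V) : Prop :=
  ∃ s : V, ∀ (v : V) (c : G.Walk v v), c.IsCycle → s ∈ c.support

end Pool.Agent.R34.Ident
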