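import Mathlib
import Pool.Agent.W126.SplitTW

/-!
A graph without cycles of length at least `b + 1` has a tree decomposition with bags of at most
`b` vertices (`b ≥ 2`).
-/

set_option autoImplicit false
set_option linter.unusedSectionVars false

namespace Pool.Agent.R34

open SimpleGraph Finset
open Pool.Agent.W126.Split

variable {V : Type} [Fintype V] [DecidableEq V] {G : SimpleGraph V}

/-- there is a cycle of length at least `k` with all its vertices in `S` -/
def HasC (k : ℕ) (G : SimpleGraph V) (S : Finset V) : Prop :=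
  ∃ (v : V) (c : G.Walk v v), c.IsCycle ∧ k ≤ c.length ∧ ∀ z ∈ c.support, z ∈ S

lemma HasC.mono {k : ℕ} {S S' : Finset V} (h : HasC k G S) (hS : S ⊆ S') : HasC k G S' := by
  obtain ⟨v, c, h1, h2, h3⟩ := h
  exact ⟨v, c, h1, h2, fun z hz => hS (h3 z hz)⟩

/-- closing a path through a connected set -/
lemma closing {K : Finset V} (hK : Conn G K) {u v : V} (p : G.Walk u v) (hp : p.IsPath)
    (hl : 1 ≤ p.length) (hd : ∀ z ∈ p.support, z ∉ K) (hu : ∃ k ∈ K, G.Adj k u)
    (hv : ∃ k ∈ K, G.Adj v k) :
    ∃ (c : G.Walk u u), c.IsCycle ∧ p.length + 2 ≤ c.length ∧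
      (∀ z ∈ c.support, z ∈ p.support ∨ z ∈ K) ∧ ∀ z ∈ p.support, z ∈ c.support := by
  obtain ⟨k1, hk1, hk1u⟩ := hu
  obtain ⟨k2, hk2, hk2v⟩ := hv
  obtain ⟨w0, hw0⟩ := hK k2 hk2 k1 hk1
  set w := w0.bypass with hw
  have hwp : w.IsPath := w0.bypass_isPath
  have hwK : ∀ z ∈ w.support, z ∈ K := fun z hz => hw0 z (w0.support_bypass_subset_support hz)
  have huv : u ≠ v := by
    intro h
    have := Walk.length_eq_zero_iff.2 (hp.nil_iff_eq.2 h)
    omega
  have huK : u ∉ K := hd u p.start_mem_support
  have hvK : v ∉ K := hd v p.end_mem_support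
  have hq1 : (w.concat hk1u).IsPath := hwp.concat (fun h => huK (hwK _ h)) hk1u
  have hq : (Walk.cons hk2v (w.concat hk1u)).IsPath := by
    rw [Walk.cons_isPath_iff]
    refine ⟨hq1, ?_⟩
    rw [Walk.support_concat, List.mem_append, List.mem_singleton]
    rintro (h | h)
    · exact hvK (hwK _ h)
    · exact huv h.symm
  have hdis : p.support.tail.Disjoint (Walk.cons hk2v (w.concat hk1u)).support.tail := by
    intro z hz1 hz2
    rw [Walk.support_cons, List.tail_cons, Walk.support_concat, List.mem_append, List.mem_singleton] at hz2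
    rcases hz2 with h | h
    · exact hd z (List.mem_of_mem_tail hz1) (hwK _ h)
    · subst h
      have h1 := hp.support_nodup
      rw [← Walk.cons_tail_support, List.nodup_cons] at h1
      exact h1.1 hz1
  refine ⟨p.append (Walk.cons hk2v (w.concat hk1u)), hp.isCycle_append hq hdis ?_, ?_, ?_, ?_⟩
  · right
    rw [Walk.length_cons, Walk.length_concat]
    omega
  · rw [Walk.length_append, Walk.length_cons, Walk.length_concat]
    omega
  · intro z hz
    rw [Walk.mem_support_append_iff, Walk.support_cons, List.mem_cons, Walk.support_concat,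
      List.mem_append, List.mem_singleton] at hz
    rcases hz with h | h | h | h
    · exact Or.inl h
    · rw [h]; exact Or.inl p.end_mem_support
    · exact Or.inr (hwK _ h)
    · rw [h]; exact Or.inl p.start_mem_support
  · intro z hz
    rw [Walk.mem_support_append_iff]
    exact Or.inl hz

/-- a tree decomposition with bags of size at most `k`, one of which contains `X` -/
def RBw (G : SimpleGraph V) (S X : Finset V) (k : ℕ) : Prop :=
  ∃ (ι : Type) (_ : Fintype ι) (T : SimpleGraph ι) (bag : ι → Finset V) (r : ι),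
    T.IsTree ∧ (∀ i, bag i ⊆ S) ∧ (∀ v ∈ S, ∃ i, v ∈ bag i) ∧
    (∀ u ∈ S, ∀ v ∈ S, G.Adj u v → ∃ i, u ∈ bag i ∧ v ∈ bag i) ∧
    (∀ v, ∀ i j, v ∈ bag i → v ∈ bag j → ∃ p : T.Walk i j, ∀ x ∈ p.support, v ∈ bag x) ∧
    (∀ i, (bag i).card ≤ k) ∧ X ⊆ bag r

lemma RBw.bw {S X : Finset V} {k : ℕ} (h : RBw G S X k) : Bw G S k := by
  obtain ⟨ι, hι, T, bag, r, h1, h2, h3, h4, h5, h6, -⟩ := h
  exact ⟨ι, hι, T, bag, h1, h2, h3, h4, h5, h6⟩

lemma rbw_single {X : Finset V} {k : ℕ} (h : X.card ≤ k) : RBw G X X k := by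
  refine ⟨Unit, inferInstance, ⊥, fun _ => X, (), ?_, fun _ => Subset.rfl, fun v hv => ⟨(), hv⟩,
    fun u hu v hv _ => ⟨(), hu, hv⟩, ?_, fun _ => h, Subset.rfl⟩
  · rw [SimpleGraph.isTree_iff_connected_and_card]
    refine ⟨?_, by simp⟩
    refine SimpleGraph.Connected.mk ?_
    intro x y
    exact SimpleGraph.Reachable.refl _
  · intro v i j hi _
    exact ⟨Walk.nil, fun x _ => hi⟩

/-- glueing two rooted decompositions -/
lemma RBw.glue {S1 S2 X1 X2 : Finset V} {k : ℕ} (h : RBw G S1 X1 k) (h' : RBw G S2 X2 k)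
    (hX1 : S1 ∩ S2 ⊆ X1) (hX2 : S1 ∩ S2 ⊆ X2)
    (hn : ∀ u ∈ S1 \ S2, ∀ v ∈ S2 \ S1, ¬ G.Adj u v) : RBw G (S1 ∪ S2) X1 k := by
  obtain ⟨ι, hι, T, bag, a, hT, hsub, hcov, hedge, hconn, hcard, hr⟩ := h
  obtain ⟨κ, hκ, T', bag', b, hT', hsub', hcov', hedge', hconn', hcard', hr'⟩ := h'
  refine ⟨ι ⊕ κ, inferInstance, Pool.Agent.W126.Split.glue T T' a b, Sum.elim bag bag',
    Sum.inl a, glue_isTree hT hT', ?_, ?_, ?_, ?_, ?_, hr⟩
  · rintro (i | i)
    · exact (hsub i).trans subset_union_left
    · exact (hsub' i).trans subset_union_right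
  · intro v hv
    rcases mem_union.1 hv with h | h
    · obtain ⟨i, hi⟩ := hcov v h
      exact ⟨Sum.inl i, hi⟩
    · obtain ⟨i, hi⟩ := hcov' v h
      exact ⟨Sum.inr i, hi⟩
  · intro u hu v hv huv
    by_cases h1 : u ∈ S1 ∧ v ∈ S1
    · obtain ⟨i, hi⟩ := hedge u h1.1 v h1.2 huv
      exact ⟨Sum.inl i, hi⟩
    by_cases h2 : u ∈ S2 ∧ v ∈ S2
    · obtain ⟨i, hi⟩ := hedge' u h2.1 v h2.2 huv
      exact ⟨Sum.inr i, hi⟩
    exfalso
    rw [mem_union] at hu hv
    rw [not_and_or] at h1 h2
    rcases hu with hu | hu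
    · have hv1 : v ∉ S1 := by tauto
      have hv2 : v ∈ S2 := by tauto
      have hu2 : u ∉ S2 := by tauto
      exact hn u (mem_sdiff.2 ⟨hu, hu2⟩) v (mem_sdiff.2 ⟨hv2, hv1⟩) huv
    · have hv1 : v ∉ S2 := by tauto
      have hv2 : v ∈ S1 := by tauto
      have hu2 : u ∉ S1 := by tauto
      exact hn v (mem_sdiff.2 ⟨hv2, hv1⟩) u (mem_sdiff.2 ⟨hu, hu2⟩) huv.symm
  · have key : ∀ v i j, v ∈ bag i → v ∈ bag' j →
        ∃ p : (Pool.Agent.W126.Split.glue T T' a b).Walk (Sum.inl i) (Sum.inr j),
          ∀ x ∈ p.support, v ∈ Sum.elim bag bag' x := by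
      intro v i j hi hj
      have hv : v ∈ S1 ∩ S2 := mem_inter.2 ⟨hsub i hi, hsub' j hj⟩
      obtain ⟨p, hp⟩ := hconn v i a hi (hr (hX1 hv))
      obtain ⟨p', hp'⟩ := hconn' v b j (hr' (hX2 hv)) hj
      obtain ⟨q, hq⟩ := walk_inl (T' := T') (a := a) (b := b) p
      obtain ⟨q', hq'⟩ := walk_inr (T := T) (a := a) (b := b) p'
      have hab : (Pool.Agent.W126.Split.glue T T' a b).Adj (Sum.inl a) (Sum.inr b) := ⟨rfl, rfl⟩
      refine ⟨q.append (Walk.cons hab q'), ?_⟩
      intro x hx
      rw [Walk.mem_support_append_iff, Walk.support_cons, List.mem_cons] at hx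
      rcases hx with hx | rfl | hx
      · obtain ⟨y, hy, rfl⟩ := hq x hx
        exact hp y hy
      · exact hr (hX1 hv)
      · obtain ⟨y, hy, rfl⟩ := hq' x hx
        exact hp' y hy
    rintro v (i | i) (j | j) hi hj
    · obtain ⟨p, hp⟩ := hconn v i j hi hj
      obtain ⟨q, hq⟩ := walk_inl (T' := T') (a := a) (b := b) p
      refine ⟨q, fun x hx => ?_⟩
      obtain ⟨y, hy, rfl⟩ := hq x hx
      exact hp y hy
    · exact key v i j hi hj
    · obtain ⟨p, hp⟩ := key v j i hj hi
      refine ⟨p.reverse, fun x hx => hp x ?_⟩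
      rwa [Walk.support_reverse, List.mem_reverse] at hx
    · obtain ⟨p, hp⟩ := hconn' v i j hi hj
      obtain ⟨q, hq⟩ := walk_inr (T := T) (a := a) (b := b) p
      refine ⟨q, fun x hx => ?_⟩
      obtain ⟨y, hy, rfl⟩ := hq x hx
      exact hp y hy
  · rintro (i | i)
    · exact hcard i
    · exact hcard' i

/-- the vertices of an initial part of a path -/
lemma exists_last {x r : V} (q : G.Walk x r) (hq : q.IsPath) (A : Finset V) (hA : ∀ z ∈ A, z ∈ q.support)
    (hne : A.Nonempty) : ∃ (v : V) (p : G.Walk x v), v ∈ A ∧ p.IsPath ∧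
      (∀ z ∈ p.support, z ∈ q.support) ∧ A.card ≤ p.length + 1 := by
  classical
  obtain ⟨v, hvA, hmax⟩ := exists_max_image A
    (fun z => if hz : z ∈ q.support then (q.takeUntil z hz).length else 0) hne
  have hv := hA v hvA
  refine ⟨v, q.takeUntil v hv, hvA, hq.takeUntil hv,
    fun z hz => q.support_takeUntil_subset_support hv hz, ?_⟩
  have hsub : A ⊆ (q.takeUntil v hv).support.toFinset := by
    intro z hz
    have hzq := hA z hz
    have h1 := hmax z hz
    rw [dif_pos hzq, dif_pos hv] at h1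
    rw [List.mem_toFinset]
    by_contra hcon
    -- then z comes after v
    have h2 : z ∈ (q.dropUntil v hv).support := by
      have h3 : z ∈ ((q.takeUntil v hv).append (q.dropUntil v hv)).support := by
        rw [Walk.take_spec]; exact hzq
      rw [Walk.mem_support_append_iff] at h3
      exact h3.resolve_left hcon
    have h4 : q.getVert (q.takeUntil z hzq).length = z := Walk.getVert_length_takeUntil hzq
    have h5 : (q.takeUntil v hv).getVert (q.takeUntil z hzq).length = z := by
      rw [Walk.getVert_takeUntil hv h1, h4]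
    apply hcon
    rw [← h5]
    exact Walk.getVert_mem_support _ _
  calc A.card ≤ (q.takeUntil v hv).support.toFinset.card := card_le_card hsub
    _ ≤ (q.takeUntil v hv).support.length := List.toFinset_card_le _
    _ = (q.takeUntil v hv).length + 1 := Walk.length_support _

/-- the key claim, by induction on the size of `D` -/
lemma birmele_aux {b : ℕ} (hb : 2 ≤ b) {S : Finset V} (hS : ¬ HasC (b + 1) G S) (n : ℕ) :
    ∀ (D : Finset V), D.card = n → D ⊆ S → ∀ {x r : V} (q : G.Walk x r), q.IsPath →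
      (∀ z ∈ q.support, z ∈ S) → (∀ z ∈ q.support, z ∉ D) →
      (∀ L, L.Nonempty → Closed G D L → ∃ c ∈ L, G.Adj x c) →
      ∀ X : Finset V, x ∈ X → (∀ z ∈ X, z ∈ q.support) →
        (∀ z ∈ q.support, (∃ d ∈ D, G.Adj z d) → z ∈ X) → X.card ≤ b →
        RBw G (D ∪ X) X b := by
  classical
  induction n using Nat.strong_induction_on with
  | _ n ih =>
    intro D hDn hDS x r q hq hqS hqD hadj X hxX hXq hX hXb
    rcases D.eq_empty_or_nonempty with rfl | ⟨y, hy⟩
    · rw [empty_union]
      exact rbw_single hXb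
    -- a component
    set L := comp G D y with hL
    have hLcl : Closed G D L := closed_comp D y
    have hLconn : Conn G L := conn_comp D y
    have hyL : y ∈ L := mem_comp_self hy
    obtain ⟨c, hcL, hxc⟩ := hadj L ⟨y, hyL⟩ hLcl
    set A : Finset V := q.support.toFinset.filter (fun z => ∃ d ∈ L, G.Adj z d) with hA
    have hmemA : ∀ z, z ∈ A ↔ z ∈ q.support ∧ ∃ d ∈ L, G.Adj z d := by
      intro z
      rw [hA, mem_filter, List.mem_toFinset]
    have hAX : A ⊆ X := by
      intro z hz
      obtain ⟨h1, d, h2, h3⟩ := (hmemA z).1 hz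
      exact hX z h1 ⟨d, hLcl.1 h2, h3⟩
    have hxA : x ∈ A := (hmemA x).2 ⟨q.start_mem_support, c, hcL, hxc⟩
    have hqL : ∀ z ∈ q.support, z ∉ L := fun z hz h => hqD z hz (hLcl.1 h)
    -- the size of `A`
    have hAcard : A.card + 1 ≤ b := by
      obtain ⟨v, p, hvA, hp, hpq, hcard⟩ := exists_last q hq A
        (fun z hz => ((hmemA z).1 hz).1) ⟨x, hxA⟩
      by_cases hl : 1 ≤ p.length
      · obtain ⟨e, he1, he2, he3, -⟩ := closing hLconn p hp hl (fun z hz => hqL z (hpq z hz))
          ⟨c, hcL, hxc.symm⟩ (((hmemA v).1 hvA).2)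
        by_contra hcon
        apply hS
        refine ⟨x, e, he1, by omega, ?_⟩
        intro z hz
        rcases he3 z hz with h | h
        · exact hqS z (hpq z h)
        · exact hDS (hLcl.1 h)
      · omega
    have hcq : c ∉ q.support := fun h => hqL c h hcL
    have hcA : c ∉ A := fun h => hcq ((hmemA c).1 h).1
    -- the component
    have h1 : RBw G (L.erase c ∪ insert c A) (insert c A) b := by
      have hlt : (L.erase c).card < n := by
        have e1 := card_erase_lt_of_mem hcL
        have e2 := card_le_card hLcl.1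
        omega
      refine ih _ hlt (L.erase c) rfl ((erase_subset _ _).trans (hLcl.1.trans hDS))
        (Walk.cons hxc.symm q) ?_ ?_ ?_ ?_ (insert c A) (mem_insert_self _ _) ?_ ?_ ?_
      · rw [Walk.cons_isPath_iff]
        exact ⟨hq, hcq⟩
      · intro z hz
        rw [Walk.support_cons, List.mem_cons] at hz
        rcases hz with rfl | hz
        · exact hDS (hLcl.1 hcL)
        · exact hqS z hz
      · intro z hz hz'
        rw [Walk.support_cons, List.mem_cons] at hz
        rw [mem_erase] at hz'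
        rcases hz with rfl | hz
        · exact hz'.1 rfl
        · exact hqL z hz hz'.2
      · intro L' hne hL'
        by_contra hcon
        push Not at hcon
        obtain ⟨z, hz⟩ := hne
        have hzL : z ∈ L := mem_of_mem_erase (hL'.1 hz)
        have hcl : Closed G L L' := by
          refine ⟨hL'.1.trans (erase_subset _ _), ?_⟩
          intro u hu v hv huv
          refine hL'.2 u hu v (mem_erase.2 ⟨?_, hv⟩) huv
          rintro rfl
          exact hcon u hu huv.symm
        obtain ⟨w, hw⟩ := hLconn z hzL c hcL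
        have := hcl.walk w hw hz c w.end_mem_support
        exact (mem_erase.1 (hL'.1 this)).1 rfl
      · intro z hz
        rw [Walk.support_cons, List.mem_cons]
        rcases mem_insert.1 hz with rfl | hz
        · exact Or.inl rfl
        · exact Or.inr ((hmemA z).1 hz).1
      · rintro z hz ⟨d, hd, hzd⟩
        rw [Walk.support_cons, List.mem_cons] at hz
        rcases hz with rfl | hz
        · exact mem_insert_self _ _
        · exact mem_insert_of_mem ((hmemA z).2 ⟨hz, d, mem_of_mem_erase hd, hzd⟩)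
      · rw [card_insert_of_notMem hcA]
        exact hAcard
    have e1 : L.erase c ∪ insert c A = L ∪ A := by
      ext z
      simp only [mem_union, mem_erase, mem_insert]
      constructor
      · rintro (h | h | h)
        · exact Or.inl h.2
        · rw [h]; exact Or.inl hcL
        · exact Or.inr h
      · rintro (h | h)
        · by_cases hz : z = c
          · exact Or.inr (Or.inl hz)
          · exact Or.inl ⟨hz, h⟩
        · exact Or.inr (Or.inr h)
    rw [e1] at h1
    -- the rest
    have h2 : RBw G ((D \ L) ∪ X) X b := by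
      have hlt : (D \ L).card < n := by
        rw [← hDn]
        exact card_lt_card (sdiff_ssubset hLcl.1 ⟨y, hyL⟩)
      refine ih _ hlt (D \ L) rfl (sdiff_subset.trans hDS) q hq hqS
        (fun z hz h => hqD z hz (mem_sdiff.1 h).1) ?_ X hxX hXq ?_ hXb
      · intro L' hne hL'
        apply hadj L' hne
        refine ⟨hL'.1.trans sdiff_subset, ?_⟩
        intro u hu v hv huv
        refine hL'.2 u hu v (mem_sdiff.2 ⟨hv, ?_⟩) huv
        intro hvL
        have hu' := mem_sdiff.1 (hL'.1 hu)
        exact hu'.2 (hLcl.2 v hvL u hu'.1 huv.symm)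
      · rintro z hz ⟨d, hd, hzd⟩
        exact hX z hz ⟨d, (mem_sdiff.1 hd).1, hzd⟩
    have hXD : ∀ z ∈ X, z ∉ D := fun z hz => hqD z (hXq z hz)
    have hint : ((D \ L) ∪ X) ∩ (L ∪ A) ⊆ A := by
      intro z hz
      rw [mem_inter, mem_union, mem_union, mem_sdiff] at hz
      obtain ⟨h3, h4⟩ := hz
      rcases h4 with h4 | h4
      · rcases h3 with h3 | h3
        · exact absurd h4 h3.2
        · exact absurd (hLcl.1 h4) (hXD z h3)
      · exact h4
    have h3 := h2.glue h1 (hint.trans hAX) (hint.trans (subset_insert _ _)) (by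
      intro u hu v hv huv
      rw [mem_sdiff, mem_union, mem_union, mem_sdiff, not_or] at hu
      rw [mem_sdiff, mem_union, mem_union, mem_sdiff, not_or] at hv
      have hvL : v ∈ L := by
        rcases hv.1 with h | h
        · exact h
        · exact absurd (hAX h) hv.2.2
      rcases hu.1 with h | h
      · exact h.2 (hLcl.2 v hvL u h.1 huv.symm)
      · exact hu.2.2 ((hmemA u).2 ⟨hXq u h, v, hvL, huv⟩))
    have e2 : (D \ L ∪ X) ∪ (L ∪ A) = D ∪ X := by
      ext z
      simp only [mem_union, mem_sdiff]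
      constructor
      · rintro ((h | h) | h | h)
        · exact Or.inl h.1
        · exact Or.inr h
        · exact Or.inl (hLcl.1 h)
        · exact Or.inr (hAX h)
      · rintro (h | h)
        · by_cases hz : z ∈ L
          · exact Or.inr (Or.inl hz)
          · exact Or.inl (Or.inl ⟨h, hz⟩)
        · exact Or.inl (Or.inr h)
    rwa [e2] at h3

/-- a set without cycles of length at least `b + 1` has a decomposition with bags of size `b` -/
theorem birmele {b : ℕ} (hb : 2 ≤ b) {S : Finset V} (hS : ¬ Bw G S b) : HasC (b + 1) G S := by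
  obtain ⟨K, hKS, hKc, -, hKb⟩ := exists_comp b S hS
  by_contra hcon
  have hK' : ¬ HasC (b + 1) G K := fun h => hcon (h.mono hKS)
  apply hKb
  have hne : K.Nonempty := by
    rw [nonempty_iff_ne_empty]
    rintro rfl
    exact hKb ((bw_card ∅).mono Subset.rfl (by simp))
  obtain ⟨x, hx⟩ := hne
  have h1 := birmele_aux hb hK' _ (K.erase x) rfl (erase_subset _ _) (Walk.nil : G.Walk x x)
    Walk.IsPath.nil (by simpa using hx) (by simp) ?_ {x} (mem_singleton_self x) (by simp) (by simp)
    (by simp; omega)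
  · have e : K.erase x ∪ {x} = K := by
      rw [union_comm, ← insert_eq, insert_erase hx]
    rw [e] at h1
    exact h1.bw
  · intro L' hne hL'
    by_contra hcon2
    push Not at hcon2
    obtain ⟨z, hz⟩ := hne
    have hzL : z ∈ K := mem_of_mem_erase (hL'.1 hz)
    have hcl : Closed G K L' := by
      refine ⟨hL'.1.trans (erase_subset _ _), ?_⟩
      intro u hu v hv huv
      refine hL'.2 u hu v (mem_erase.2 ⟨?_, hv⟩) huv
      rintro rfl
      exact hcon2 u hu huv.symm
    obtain ⟨w, hw⟩ := hKc z hzL x hx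
    have := hcl.walk w hw hz x w.end_mem_support
    exact (mem_erase.1 (hL'.1 this)).1 rfl

end Pool.Agent.R34
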