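import Mathlib
import Pool.Agent.R34.Rooted

/-!
Short cycles of length at least four in graphs of minimum degree at least five.
-/

set_option autoImplicit false
set_option linter.unusedSectionVars false

namespace Pool.Agent.R34

open SimpleGraph Finset

variable {V : Type} [Fintype V] [DecidableEq V] {G : SimpleGraph V}

/-- `C` is the vertex set of a cycle of length at least four -/
def Cyc (G : SimpleGraph V) (C : Finset V) : Prop :=
  ∃ (v : V) (c : G.Walk v v), c.IsCycle ∧ 4 ≤ c.length ∧ c.support.toFinset = C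

lemma card_cycle {v : V} (c : G.Walk v v) (hc : c.IsCycle) :
    c.support.toFinset.card = c.length := by
  have h1 : c.support.toFinset = c.support.tail.toFinset := by
    ext z
    rw [List.mem_toFinset, List.mem_toFinset]
    constructor
    · intro hz
      rw [← Walk.cons_tail_support, List.mem_cons] at hz
      rcases hz with rfl | hz
      · exact Walk.end_mem_tail_support hc.not_nil
      · exact hz
    · exact List.mem_of_mem_tail
  rw [h1, List.toFinset_card_of_nodup hc.support_nodup, List.length_tail, Walk.length_support]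
  omega

lemma Cyc.four_le {C : Finset V} (h : Cyc G C) : 4 ≤ C.card := by
  obtain ⟨v, c, h1, h2, rfl⟩ := h
  rwa [card_cycle c h1]

lemma HasC.cyc {S : Finset V} (h : HasC 4 G S) : ∃ C ⊆ S, Cyc G C := by
  obtain ⟨v, c, h1, h2, h3⟩ := h
  exact ⟨c.support.toFinset, fun z hz => h3 z (List.mem_toFinset.1 hz), v, c, h1, h2, rfl⟩

/-- the maximum cut -/
lemma cut (G : SimpleGraph V) (T : Finset V) : ∃ c : V → Bool, ∀ v ∈ T, ∀ N : Finset V,
    (∀ y ∈ N, y ∈ T ∧ G.Adj v y) →
      ∃ D : Finset V, (∀ y ∈ D, y ∈ T ∧ G.Adj v y ∧ c v ≠ c y) ∧ N.card ≤ 2 * D.card := by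
  classical
  let E : (V → Bool) → Finset (V × V) := fun c =>
    (T ×ˢ T).filter (fun p => G.Adj p.1 p.2 ∧ c p.1 ≠ c p.2)
  obtain ⟨c, -, hmax⟩ := exists_max_image (univ : Finset (V → Bool)) (fun c => (E c).card)
    ⟨fun _ => true, mem_univ _⟩
  refine ⟨c, fun v hv N hN => ?_⟩
  set c' : V → Bool := Function.update c v (!c v) with hc'
  have hc'v : c' v = !c v := by rw [hc', Function.update_self]
  have hc'n : ∀ y, y ≠ v → c' y = c y := fun y hy => by rw [hc', Function.update_of_ne hy]
  set R := (T ×ˢ T).filter (fun p => (p.1 ≠ v ∧ p.2 ≠ v) ∧ G.Adj p.1 p.2 ∧ c p.1 ≠ c p.2) with hR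
  set D := T.filter (fun y => G.Adj v y ∧ c v ≠ c y) with hD
  set D' := T.filter (fun y => G.Adj v y ∧ c v = c y) with hD'
  have h1 : (E c).card ≤ R.card + 2 * D.card := by
    have hsub : E c ⊆ R ∪ (D.image (fun y => (v, y)) ∪ D.image (fun y => (y, v))) := by
      rintro ⟨a, b⟩ hab
      simp only [E, mem_filter, mem_product] at hab
      obtain ⟨⟨ha, hb⟩, hab, hcab⟩ := hab
      by_cases hav : a = v
      · subst hav
        apply mem_union_right
        apply mem_union_left
        exact mem_image_of_mem _ (mem_filter.2 ⟨hb, hab, hcab⟩)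
      by_cases hbv : b = v
      · subst hbv
        apply mem_union_right
        apply mem_union_right
        exact mem_image_of_mem (fun y => (y, b)) (mem_filter.2 ⟨ha, hab.symm, hcab.symm⟩)
      apply mem_union_left
      exact mem_filter.2 ⟨mem_product.2 ⟨ha, hb⟩, ⟨hav, hbv⟩, hab, hcab⟩
    have e1 := card_le_card hsub
    have e2 := card_union_le R (D.image (fun y => (v, y)) ∪ D.image (fun y => (y, v)))
    have e3 := card_union_le (D.image (fun y => (v, y))) (D.image (fun y => (y, v)))
    have e4 := card_image_le (s := D) (f := fun y => (v, y))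
    have e5 := card_image_le (s := D) (f := fun y => (y, v))
    omega
  have h2 : R.card + 2 * D'.card ≤ (E c').card := by
    have hsub : R ∪ (D'.image (fun y => (v, y)) ∪ D'.image (fun y => (y, v))) ⊆ E c' := by
      intro p hp
      rw [mem_union, mem_union, mem_image, mem_image] at hp
      rcases hp with hp | ⟨y, hy, rfl⟩ | ⟨y, hy, rfl⟩
      · rw [mem_filter] at hp
        obtain ⟨h3, ⟨h4, h5⟩, h6, h7⟩ := hp
        refine mem_filter.2 ⟨h3, h6, ?_⟩
        rwa [hc'n _ h4, hc'n _ h5]
      · obtain ⟨hy, h3, h4⟩ := mem_filter.1 hy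
        refine mem_filter.2 ⟨mem_product.2 ⟨hv, hy⟩, h3, ?_⟩
        change c' v ≠ c' y
        rw [hc'v, hc'n _ h3.ne', ← h4]
        simp
      · obtain ⟨hy, h3, h4⟩ := mem_filter.1 hy
        refine mem_filter.2 ⟨mem_product.2 ⟨hy, hv⟩, h3.symm, ?_⟩
        change c' y ≠ c' v
        rw [hc'v, hc'n _ h3.ne', ← h4]
        simp
    have e1 := card_le_card hsub
    have d1 : Disjoint (D'.image (fun y => (v, y))) (D'.image (fun y => (y, v))) := by
      rw [Finset.disjoint_left]
      intro p hp hp'
      obtain ⟨y, hy, rfl⟩ := mem_image.1 hp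
      obtain ⟨y', hy', h3⟩ := mem_image.1 hp'
      rw [Prod.mk.injEq] at h3
      have h4 := (mem_filter.1 hy).2.1
      rw [← h3.2] at h4
      exact G.loopless.irrefl _ h4
    have d2 : Disjoint R (D'.image (fun y => (v, y)) ∪ D'.image (fun y => (y, v))) := by
      rw [Finset.disjoint_left]
      intro p hp hp'
      have h3 := (mem_filter.1 hp).2.1
      rw [mem_union, mem_image, mem_image] at hp'
      rcases hp' with ⟨y, -, rfl⟩ | ⟨y, -, rfl⟩
      · exact h3.1 rfl
      · exact h3.2 rfl
    rw [card_union_of_disjoint d2, card_union_of_disjoint d1,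
      card_image_of_injective _ (fun a b h => (Prod.mk.inj h).2),
      card_image_of_injective _ (fun a b h => (Prod.mk.inj h).1)] at e1
    omega
  have h3 := hmax c' (mem_univ _)
  refine ⟨D, fun y hy => ?_, ?_⟩
  · obtain ⟨h4, h5, h6⟩ := mem_filter.1 hy
    exact ⟨h4, h5, h6⟩
  · have h4 : N ⊆ D ∪ D' := by
      intro y hy
      obtain ⟨h5, h6⟩ := hN y hy
      rw [mem_union, mem_filter, mem_filter]
      by_cases h7 : c v = c y
      · exact Or.inr ⟨h5, h6, h7⟩
      · exact Or.inl ⟨h5, h6, h7⟩
    have h5 := card_le_card h4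
    have h6 := card_union_le D D'
    omega

/-- many vertices are reached if there is no short cycle -/
lemma grow {B : SimpleGraph V} {T : Finset V} {v0 : V} (hv0 : v0 ∈ T)
    (hdeg : ∀ v ∈ T, ∃ N : Finset V, 3 ≤ N.card ∧ ∀ y ∈ N, y ∈ T ∧ B.Adj v y) {r : ℕ}
    (hno : ∀ (v : V) (c : B.Walk v v), c.IsCycle → 2 * r < c.length) :
    ∀ k ≤ r, ∃ E : Finset V, 2 ^ k ≤ E.card ∧
      ∀ u ∈ E, u ∈ T ∧ ∃ p : B.Walk v0 u, p.IsPath ∧ p.length = k := by
  classical
  intro k
  induction k with
  | zero =>
    intro _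
    refine ⟨{v0}, by simp, ?_⟩
    intro u hu
    rw [mem_singleton] at hu
    subst hu
    exact ⟨hv0, Walk.nil, Walk.IsPath.nil, rfl⟩
  | succ k ih =>
    intro hk
    obtain ⟨E, hE, hp⟩ := ih (by omega)
    have step : ∀ u, ∃ N : Finset V, u ∈ E → (2 ≤ N.card ∧ ∀ x ∈ N, x ∈ T ∧
        ∃ q : B.Walk v0 x, q.IsPath ∧ q.length = k + 1 ∧ q.penultimate = u) := by
      intro u
      by_cases hu : u ∈ E
      swap
      · exact ⟨∅, fun h => absurd h hu⟩
      obtain ⟨huT, p, hpp, hpl⟩ := hp u hu
      obtain ⟨N, hN, hN'⟩ := hdeg u huT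
      refine ⟨N.filter (fun x => x ∉ p.support), fun _ => ⟨?_, ?_⟩⟩
      · have h1 : N.filter (fun x => ¬ x ∉ p.support) ⊆ {p.penultimate} := by
          intro x hx
          rw [mem_filter, not_not] at hx
          rw [mem_singleton]
          obtain ⟨hxN, hx⟩ := hx
          have hux := (hN' x hxN).2
          by_cases hmem : s(u, x) ∈ p.edges
          · exact hpp.eq_penultimate_of_mem_edges hmem
          exfalso
          have hcyc : (Walk.cons hux (p.dropUntil x hx)).IsCycle := by
            rw [Walk.cons_isCycle_iff]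
            exact ⟨hpp.dropUntil hx, fun h => hmem (p.edges_dropUntil_subset_edges hx h)⟩
          have h2 := hno _ _ hcyc
          rw [Walk.length_cons] at h2
          have h3 := p.length_dropUntil_le_length hx
          omega
        have h2 := card_le_card h1
        rw [card_singleton] at h2
        have h3 := card_filter_add_card_filter_not (s := N) (fun x => x ∉ p.support)
        omega
      · intro x hx
        rw [mem_filter] at hx
        obtain ⟨h1, h2⟩ := hN' x hx.1
        refine ⟨h1, p.concat h2, hpp.concat hx.2 h2, ?_, ?_⟩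
        · rw [Walk.length_concat, hpl]
        · exact Walk.penultimate_concat _ _
    choose N hN using step
    refine ⟨E.biUnion N, ?_, ?_⟩
    · rw [card_biUnion]
      · calc 2 ^ (k + 1) = 2 ^ k * 2 := pow_succ _ _
          _ ≤ E.card * 2 := Nat.mul_le_mul_right _ hE
          _ = ∑ _u ∈ E, 2 := by rw [sum_const, smul_eq_mul]
          _ ≤ ∑ u ∈ E, (N u).card := sum_le_sum (fun u hu => (hN u hu).1)
      · intro u hu u' hu' huu
        rw [Function.onFun, Finset.disjoint_left]
        intro x hx hx'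
        obtain ⟨-, q, hq1, hq2, hq3⟩ := (hN u hu).2 x hx
        obtain ⟨-, q', hq1', hq2', hq3'⟩ := (hN u' hu').2 x hx'
        have hne : q ≠ q' := by
          rintro rfl
          exact huu (hq3.symm.trans hq3')
        obtain ⟨w, -, -, c, hc, hcl⟩ := hq1.exists_isCycle_length_le_add_of_ne hq1' hne
        have := hno w c hc
        omega
    · intro u hu
      obtain ⟨w, hw, hw'⟩ := mem_biUnion.1 hu
      obtain ⟨h1, q, h2, h3, -⟩ := (hN w hw).2 u hw'
      exact ⟨h1, q, h2, h3⟩

/-- a graph of minimum degree at least five on fewer than `2 ^ r` vertices has a cycle of length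
at least four and at most `2 * r` -/
lemma short {T : Finset V} (hne : T.Nonempty) {r : ℕ} (hr : T.card < 2 ^ r)
    (hdeg : ∀ v ∈ T, ∃ N : Finset V, 5 ≤ N.card ∧ ∀ y ∈ N, y ∈ T ∧ G.Adj v y) :
    ∃ C ⊆ T, Cyc G C ∧ C.card ≤ 2 * r := by
  classical
  obtain ⟨c, hc⟩ := cut G T
  obtain ⟨v0, hv0⟩ := hne
  let B : SimpleGraph V :=
    { Adj := fun x y => (x ∈ T ∧ y ∈ T) ∧ G.Adj x y ∧ c x ≠ c y
      symm := ⟨fun _ _ h => ⟨h.1.symm, h.2.1.symm, h.2.2.symm⟩⟩
      loopless := ⟨fun v h => G.loopless.irrefl v h.2.1⟩ }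
  have hle : B ≤ G := fun x y h => h.2.1
  by_cases hno : ∀ (v : V) (c : B.Walk v v), c.IsCycle → 2 * r < c.length
  · exfalso
    obtain ⟨E, hE, hE'⟩ := grow (B := B) hv0 (by
      intro v hv
      obtain ⟨N, hN, hN'⟩ := hdeg v hv
      obtain ⟨D, hD, hND⟩ := hc v hv N hN'
      refine ⟨D, by omega, fun y hy => ?_⟩
      obtain ⟨h1, h2, h3⟩ := hD y hy
      exact ⟨h1, ⟨hv, h1⟩, h2, h3⟩) hno r le_rfl
    have h1 : E ⊆ T := fun u hu => (hE' u hu).1
    have h2 := card_le_card h1
    omega
  · push Not at hno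
    obtain ⟨v, b, hb, hbl⟩ := hno
    have heven : Even b.length := by
      have col : B.Coloring Bool := SimpleGraph.Coloring.mk c (fun {x y} h => h.2.2)
      rw [col.even_length_iff_congr b]
    have h3 := hb.three_le_length
    have h4 : 4 ≤ b.length := by
      rcases heven with ⟨k, hk⟩
      omega
    have hsupp : ∀ {u w : V} (p : B.Walk u w), u ∈ T → ∀ z ∈ p.support, z ∈ T := by
      intro u w p
      induction p with
      | nil =>
        intro hu z hz
        rw [Walk.support_nil, List.mem_singleton] at hz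
        rw [hz]; exact hu
      | @cons a b' d hadj p ih =>
        intro hu z hz
        rw [Walk.support_cons, List.mem_cons] at hz
        rcases hz with rfl | hz
        · exact hu
        · exact ih hadj.1.2 z hz
    have hvT : v ∈ T := (b.adj_snd hb.not_nil).1.1
    refine ⟨(b.mapLe hle).support.toFinset, ?_, ⟨v, b.mapLe hle, hb.mapLe hle, ?_, rfl⟩, ?_⟩
    · intro z hz
      rw [List.mem_toFinset, Walk.support_mapLe_eq_support] at hz
      exact hsupp b hvT z hz
    · rw [Walk.length_mapLe]; exact h4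
    · rw [card_cycle _ (hb.mapLe hle), Walk.length_mapLe]; exact hbl

end Pool.Agent.R34
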