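import Mathlib
import Pool.Agent.R34.Rooted
import Pool.Agent.H362SP.Many

/-!
Touching brambles; independent sets and tree decompositions; greedy independent sets.
-/

set_option autoImplicit false
set_option linter.unusedSectionVars false

namespace Pool.Agent.R34

open SimpleGraph Finset
open Pool.Agent.W126.Split Pool.Agent.W126.TAC

variable {V : Type} [Fintype V] [DecidableEq V] {G : SimpleGraph V}

/-- the bramble lemma with touching sets -/
lemma touch {S : Finset V} {k : ℕ} (h : Bw G S k) :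
    ∃ F : Finset (Finset V), (∀ B ∈ F, B ⊆ S ∧ B.card ≤ k) ∧
      ∀ K : Finset V → Finset V, (∀ B ∈ F, K B ⊆ S \ B ∧ Conn G (K B)) →
        ∃ B ∈ F, ∃ B' ∈ F, ∀ u ∈ K B, ∀ v ∈ K B', u ≠ v ∧ ¬ G.Adj u v := by
  classical
  obtain ⟨ι, hι, T, bag, hT, hsub, hcov, hedge, hconn, hcard⟩ := h
  refine ⟨univ.image bag, ?_, ?_⟩
  · intro B hB
    rw [mem_image] at hB
    obtain ⟨i, -, rfl⟩ := hB
    exact ⟨hsub i, hcard i⟩
  · intro K hK
    by_contra hcon
    have hcon : ∀ B ∈ univ.image bag, ∀ B' ∈ univ.image bag,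
        ∃ u ∈ K B, ∃ v ∈ K B', u = v ∨ G.Adj u v := by
      intro B hB B' hB'
      by_contra hc
      apply hcon
      refine ⟨B, hB, B', hB', fun u hu v hv => ⟨fun h => ?_, fun h => ?_⟩⟩
      · exact hc ⟨u, hu, v, hv, Or.inl h⟩
      · exact hc ⟨u, hu, v, hv, Or.inr h⟩
    have hmem : ∀ i, bag i ∈ univ.image bag := fun i => mem_image_of_mem _ (mem_univ _)
    -- the subtree of `K i`
    have hstep : ∀ (K : Finset V), K ⊆ S → ∀ {u v : V} (p : G.Walk u v),
        (∀ x ∈ p.support, x ∈ K) → ∀ i j, u ∈ bag i → v ∈ bag j →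
          ∃ q : T.Walk i j, ∀ x ∈ q.support, x ∈ {t | ∃ y ∈ K, y ∈ bag t} := by
      intro K hKS u v p
      induction p with
      | nil =>
        intro hp i j hi hj
        obtain ⟨q, hq⟩ := hconn _ i j hi hj
        exact ⟨q, fun x hx => ⟨_, hp _ (by simp), hq x hx⟩⟩
      | @cons u c v hadj p ih =>
        intro hp i j hi hj
        have hu : u ∈ K := hp u (by simp)
        have hc : c ∈ K := hp c (by simp)
        obtain ⟨l, hl1, hl2⟩ := hedge u (hKS hu) c (hKS hc) hadj
        obtain ⟨q, hq⟩ := hconn _ i l hi hl1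
        obtain ⟨q', hq'⟩ := ih (fun x hx => hp x (by simp [hx])) l j hl2 hj
        refine ⟨q.append q', ?_⟩
        intro x hx
        rw [Walk.mem_support_append_iff] at hx
        rcases hx with hx | hx
        · exact ⟨u, hu, hq x hx⟩
        · exact hq' x hx
    have hconv : ∀ i : ι, PathConvex T {t | ∃ y ∈ K (bag i), y ∈ bag t} := by
      intro i
      apply pathConvex_of_walks hT
      rintro s t ⟨y, hy, hys⟩ ⟨z, hz, hzt⟩
      obtain ⟨h1, h2⟩ := hK _ (hmem i)
      obtain ⟨p, hp⟩ := h2 y hy z hz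
      exact hstep _ (h1.trans sdiff_subset) p hp s t hys hzt
    obtain ⟨r⟩ := hT.connected.nonempty
    obtain ⟨t, ht⟩ := helly hT (univ : Finset ι) ⟨r, mem_univ _⟩
      (fun i => {t | ∃ y ∈ K (bag i), y ∈ bag t}) (fun i _ => hconv i) (by
        intro i _ j _
        obtain ⟨u, hu, v, hv, huv⟩ := hcon _ (hmem i) _ (hmem j)
        have huS : u ∈ S := ((hK _ (hmem i)).1.trans sdiff_subset) hu
        have hvS : v ∈ S := ((hK _ (hmem j)).1.trans sdiff_subset) hv
        rcases huv with rfl | huv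
        · obtain ⟨t, ht⟩ := hcov u huS
          exact ⟨t, ⟨u, hu, ht⟩, ⟨u, hv, ht⟩⟩
        · obtain ⟨t, ht, ht'⟩ := hedge u huS v hvS huv
          exact ⟨t, ⟨u, hu, ht⟩, ⟨v, hv, ht'⟩⟩)
    obtain ⟨y, hy, hyt⟩ := ht t (mem_univ _)
    exact (mem_sdiff.1 ((hK _ (hmem t)).1 hy)).2 hyt

/-- an independent set of `S` gives a decomposition -/
lemma bw_of_indep {S I : Finset V} (hI : I ⊆ S) (h : ∀ u ∈ I, ∀ v ∈ I, ¬ G.Adj u v) :
    Bw G S (1 + (S.card - I.card)) := by
  have h1 := (Pool.Agent.H362SP.bw_indep I h).add (S \ I)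
  rwa [union_sdiff_of_subset hI, card_sdiff_of_subset hI] at h1

/-- greedy choice of an independent set -/
lemma greedy (D : ℕ) (n : ℕ) : ∀ R : Finset V, R.card = n →
    (∀ T ⊆ R, T.Nonempty → ∃ v ∈ T, ∃ N : Finset V, N.card ≤ D ∧ ∀ y ∈ T, G.Adj v y → y ∈ N) →
    ∃ I ⊆ R, (∀ u ∈ I, ∀ v ∈ I, ¬ G.Adj u v) ∧ R.card ≤ (D + 1) * I.card := by
  induction n using Nat.strong_induction_on with
  | _ n ih =>
    intro R hRn h
    rcases R.eq_empty_or_nonempty with rfl | hne
    · exact ⟨∅, Subset.rfl, by simp, by simp⟩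
    obtain ⟨v, hv, N, hN, hadj⟩ := h R Subset.rfl hne
    set R' := (R.erase v) \ N with hR'
    have hsub : R' ⊆ R := sdiff_subset.trans (erase_subset _ _)
    have hlt : R'.card < n := by
      have e1 := card_erase_lt_of_mem hv
      have e2 : R'.card ≤ (R.erase v).card := card_le_card sdiff_subset
      omega
    obtain ⟨I, hI1, hI2, hI3⟩ := ih _ hlt R' rfl (fun T hT => h T (hT.trans hsub))
    have hvI : v ∉ I := fun h => by
      have := hI1 h
      rw [hR', mem_sdiff, mem_erase] at this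
      exact this.1.1 rfl
    have hvn : ∀ y ∈ I, ¬ G.Adj v y := by
      intro y hy hvy
      have := hI1 hy
      rw [hR', mem_sdiff] at this
      exact this.2 (hadj y (mem_of_mem_erase this.1) hvy)
    refine ⟨insert v I, insert_subset hv (hI1.trans hsub), ?_, ?_⟩
    · intro a ha b hb
      rcases mem_insert.1 ha with ha' | ha' <;> rcases mem_insert.1 hb with hb' | hb'
      · rw [ha', hb']; exact G.loopless.irrefl _
      · rw [ha']; exact hvn b hb'
      · rw [hb']; exact fun h => hvn a ha' h.symm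
      · exact hI2 a ha' b hb'
    · rw [card_insert_of_notMem hvI]
      have e1 : R.card ≤ R'.card + N.card + 1 := by
        have e2 : R ⊆ insert v (R' ∪ N) := by
          intro y hy
          rw [mem_insert, mem_union, hR', mem_sdiff, mem_erase]
          tauto
        have e3 := card_le_card e2
        have e4 := card_insert_le v (R' ∪ N)
        have e5 := card_union_le R' N
        omega
      nlinarith

end Pool.Agent.R34
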