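import Mathlib
import Pool.Agent.R34.Touch
import Pool.Agent.R34.Short

/-!
The upper bound: for every `s ≥ 1` there is an `m` such that every graph of treewidth at least
`4 * s + m - 1` has `s` disjoint cycles of length at least four which leave `m` vertices uncovered.
-/

set_option autoImplicit false
set_option linter.unusedSectionVars false

namespace Pool.Agent.R34

open SimpleGraph Finset
open Pool.Agent.W126.Split

section

variable {V : Type} [Fintype V] [DecidableEq V] {G : SimpleGraph V}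

/-- `s` disjoint cycles of length at least four in `S`, which leave `m` vertices uncovered -/
def Fam (G : SimpleGraph V) (S : Finset V) (s m : ℕ) : Prop :=
  ∃ F : Fin s → Finset V, (∀ i, Cyc G (F i)) ∧ (∀ i, F i ⊆ S) ∧
    (∀ i j, i ≠ j → Disjoint (F i) (F j)) ∧ (univ.biUnion F).card + m ≤ S.card

/-- greedy choice of disjoint small sets -/
lemma greedy_fam (Q : Finset V → Prop) (L s : ℕ) (S : Finset V)
    (h : ∀ R ⊆ S, S.card ≤ R.card + L * (s - 1) → ∃ C ⊆ R, Q C ∧ C.card ≤ L) :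
    ∀ k ≤ s, ∃ F : Fin k → Finset V, (∀ i, Q (F i)) ∧ (∀ i, F i ⊆ S) ∧
      (∀ i, (F i).card ≤ L) ∧ ∀ i j, i ≠ j → Disjoint (F i) (F j) := by
  intro k
  induction k with
  | zero => exact fun _ => ⟨fun i => i.elim0, fun i => i.elim0, fun i => i.elim0,
      fun i => i.elim0, fun i => i.elim0⟩
  | succ k ih =>
    intro hk
    obtain ⟨F, h1, h2, h3, h4⟩ := ih (by omega)
    obtain ⟨C, hC1, hC2, hC3⟩ := h (S \ univ.biUnion F) sdiff_subset (by
      have e1 : (univ.biUnion F).card ≤ ∑ i, (F i).card := card_biUnion_le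
      have e2 : ∑ i, (F i).card ≤ ∑ _i : Fin k, L := sum_le_sum (fun i _ => h3 i)
      rw [sum_const, card_univ, Fintype.card_fin, smul_eq_mul] at e2
      have e3 : S.card ≤ (S \ univ.biUnion F).card + (univ.biUnion F).card := by
        have e4 := card_le_card (subset_union_left : S ⊆ S ∪ univ.biUnion F)
        have e5 := card_union_le (S \ univ.biUnion F) (univ.biUnion F)
        rw [sdiff_union_self_eq_union] at e5
        omega
      have e6 : k * L ≤ L * (s - 1) := by
        rw [mul_comm]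
        exact Nat.mul_le_mul_left _ (by omega)
      omega)
    have hd : ∀ i, Disjoint C (F i) := fun i => by
      rw [Finset.disjoint_left]
      intro x hx hx'
      exact (mem_sdiff.1 (hC1 hx)).2 (mem_biUnion.2 ⟨i, mem_univ _, hx'⟩)
    refine ⟨Fin.cons C F, ?_, ?_, ?_, ?_⟩
    · intro i
      refine Fin.cases ?_ (fun i => ?_) i
      · rw [Fin.cons_zero]; exact hC2
      · rw [Fin.cons_succ]; exact h1 i
    · intro i
      refine Fin.cases ?_ (fun i => ?_) i
      · rw [Fin.cons_zero]; exact hC1.trans sdiff_subset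
      · rw [Fin.cons_succ]; exact h2 i
    · intro i
      refine Fin.cases ?_ (fun i => ?_) i
      · rw [Fin.cons_zero]; exact hC3
      · rw [Fin.cons_succ]; exact h3 i
    · intro i j
      refine Fin.cases ?_ (fun i => ?_) i
      · refine Fin.cases ?_ (fun j => ?_) j
        · exact fun h => absurd rfl h
        · intro _
          rw [Fin.cons_zero, Fin.cons_succ]
          exact hd j
      · refine Fin.cases ?_ (fun j => ?_) j
        · intro _
          rw [Fin.cons_zero, Fin.cons_succ]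
          exact (hd i).symm
        · intro hij
          rw [Fin.cons_succ, Fin.cons_succ]
          exact h4 i j (fun h => hij (by rw [h]))

/-- a 4-cycle -/
lemma cyc_four {a b c d : V} (hab : G.Adj a b) (hbc : G.Adj b c) (hcd : G.Adj c d)
    (hda : G.Adj d a) (hac : a ≠ c) (hbd : b ≠ d) :
    Cyc G {a, b, c, d} := by
  have n1 := hab.ne
  have n2 := hbc.ne
  have n3 := hcd.ne
  have n4 := hda.ne
  refine ⟨a, Walk.cons hab (Walk.cons hbc (Walk.cons hcd (Walk.cons hda Walk.nil))), ?_, ?_, ?_⟩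
  · rw [Walk.cons_isCycle_iff]
    constructor
    · simp only [Walk.cons_isPath_iff, Walk.support_cons, Walk.support_nil, List.mem_cons,
        List.not_mem_nil, or_false, not_or]
      exact ⟨⟨⟨Walk.IsPath.nil, n4⟩, n3, hac.symm⟩, n2, hbd, n1.symm⟩
    · simp only [Walk.edges_cons, Walk.edges_nil, List.mem_cons, List.not_mem_nil, or_false,
        Sym2.eq_iff, not_or]
      refine ⟨⟨?_, ?_⟩, ⟨?_, ?_⟩, ?_, ?_⟩
      · exact fun h => n1 h.1
      · exact fun h => hac h.1
      · exact fun h => hac h.1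
      · exact fun h => n4 h.1.symm
      · exact fun h => n4 h.1.symm
      · exact fun h => hbd h.2
  · simp
  · ext z
    simp only [Walk.support_cons, Walk.support_nil, List.toFinset_cons, List.toFinset_nil,
      mem_insert, notMem_empty, or_false, mem_singleton]
    tauto

/-- a set without 4-cycles has a large independent set -/
lemma indep_of_no_four {R : Finset V} (hR : ∀ C ⊆ R, Cyc G C → 4 < C.card) :
    ∃ I ⊆ R, (∀ u ∈ I, ∀ v ∈ I, ¬ G.Adj u v) ∧ R.card ≤ (Nat.sqrt R.card + 2) * I.card := by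
  classical
  refine greedy (Nat.sqrt R.card + 1) _ R rfl ?_
  intro T hT hne
  by_contra hcon
  push Not at hcon
  have hdeg : ∀ v ∈ T, Nat.sqrt R.card + 2 ≤ (T.filter (fun y => G.Adj v y)).card := by
    intro v hv
    by_contra hlt
    obtain ⟨y, hy, hvy, hy'⟩ := hcon v hv (T.filter (fun y => G.Adj v y)) (by omega)
    exact hy' (mem_filter.2 ⟨hy, hvy⟩)
  obtain ⟨v, hv⟩ := hne
  set A := T.filter (fun y => G.Adj v y) with hA
  have h1 : (A.biUnion (fun x => (T.filter (fun y => G.Adj x y)).erase v)).card =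
      ∑ x ∈ A, ((T.filter (fun y => G.Adj x y)).erase v).card := by
    apply card_biUnion
    intro x hx x' hx' hne
    rw [Function.onFun, Finset.disjoint_left]
    intro y hy hy'
    rw [mem_erase, mem_filter] at hy hy'
    obtain ⟨hxT, hvx⟩ := mem_filter.1 hx
    obtain ⟨hxT', hvx'⟩ := mem_filter.1 hx'
    have h2 := cyc_four hvx hy.2.2 hy'.2.2.symm hvx'.symm hy.1.symm hne
    have h3 := hR {v, x, y, x'} (by
      intro z hz
      simp only [mem_insert, mem_singleton] at hz
      rcases hz with rfl | rfl | rfl | rfl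
      · exact hT hv
      · exact hT hxT
      · exact hT hy.2.1
      · exact hT hxT') h2
    have h4 : ({v, x, y, x'} : Finset V).card ≤ 4 := card_le_four
    omega
  have h2 : A.biUnion (fun x => (T.filter (fun y => G.Adj x y)).erase v) ⊆ R := by
    intro y hy
    obtain ⟨x, -, hx⟩ := mem_biUnion.1 hy
    exact hT (mem_filter.1 (mem_of_mem_erase hx)).1
  have h3 := card_le_card h2
  rw [h1] at h3
  have h4 : A.card * (Nat.sqrt R.card + 1) ≤
      ∑ x ∈ A, ((T.filter (fun y => G.Adj x y)).erase v).card := by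
    rw [← smul_eq_mul, ← sum_const]
    apply sum_le_sum
    intro x hx
    have h5 := hdeg x (mem_filter.1 hx).1
    have h6 := pred_card_le_card_erase (s := T.filter (fun y => G.Adj x y)) (a := v)
    omega
  have h5 : Nat.sqrt R.card + 2 ≤ A.card := hdeg v hv
  have h6 : (Nat.sqrt R.card + 1) * (Nat.sqrt R.card + 1) ≤ A.card * (Nat.sqrt R.card + 1) :=
    Nat.mul_le_mul_right _ (by omega)
  have h7 := Nat.lt_succ_sqrt R.card
  rw [Nat.succ_eq_add_one] at h7
  omega

/-- the upper bound for one graph -/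
lemma upper_aux {s M t : ℕ} (hs : 1 ≤ s) (hM : 7 * s ≤ 2 ^ M) (ht : 114 ^ M * 3 ≤ 2 ^ t)
    (ht2 : 4 * (2 * t + 1) * s ≤ 2 ^ t) (ht3 : 3 ≤ 2 ^ t) {S : Finset V} {w : ℕ}
    (hw : w + 1 = 4 * s + 4 ^ t) (hS : ¬ Bw G S w) : Fam G S s (4 ^ t) := by
  classical
  by_contra hcon
  -- every family covers many vertices
  have star : ∀ F : Fin s → Finset V, (∀ i, Cyc G (F i)) → (∀ i, F i ⊆ S) →
      (∀ i j, i ≠ j → Disjoint (F i) (F j)) → S.card < ∑ i, (F i).card + 4 ^ t := by
    intro F h1 h2 h3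
    by_contra hlt
    apply hcon
    refine ⟨F, h1, h2, h3, ?_⟩
    have : (univ.biUnion F).card ≤ ∑ i, (F i).card := card_biUnion_le
    omega
  have h4t : (4 : ℕ) ^ t = 2 ^ t * 2 ^ t := by
    rw [← mul_pow]; norm_num
  have hNw : w < S.card := by
    by_contra hle
    exact hS ((bw_card S).mono Subset.rfl (by omega))
  -- first step
  have step1 : 6 * S.card < 7 * 4 ^ t := by
    obtain ⟨T, hT1, hT2, hT3⟩ := Pool.Agent.H362SP.split_many (ι := Fin 7 × Fin s) M (by
      rw [Fintype.card_prod, Fintype.card_fin, Fintype.card_fin]; exact hM) (H := S) (s := 3)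
      (w := w) (by norm_num) (by
        have : 2 ^ t ≤ 4 ^ t := Nat.pow_le_pow_left (by norm_num) t
        omega) hS
    have h1 : ∀ i, ∃ C ⊆ T i, Cyc G C := fun i => (birmele (by norm_num) (hT3 i)).cyc
    choose C hC1 hC2 using h1
    have h2 : ∑ i : Fin 7 × Fin s, (C i).card ≤ S.card := by
      rw [← card_biUnion (fun i _ j _ hij => (hT2 i j hij).mono (hC1 i) (hC1 j))]
      exact card_le_card (biUnion_subset.2 (fun i _ => (hC1 i).trans (hT1 i)))
    rw [Fintype.sum_prod_type] at h2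
    have h3 : ∀ j : Fin 7, S.card < ∑ i, (C (j, i)).card + 4 ^ t := fun j =>
      star (fun i => C (j, i)) (fun i => hC2 _) (fun i => (hC1 _).trans (hT1 _))
        (fun i i' hii => (hT2 _ _ (fun h => hii (Prod.mk.inj h).2)).mono (hC1 _) (hC1 _))
    have h4 : ∑ _j : Fin 7, S.card < ∑ j : Fin 7, (∑ i, (C (j, i)).card + 4 ^ t) :=
      sum_lt_sum_of_nonempty ⟨0, mem_univ _⟩ (fun j _ => h3 j)
    rw [sum_add_distrib, sum_const, sum_const, card_univ, Fintype.card_fin, smul_eq_mul,
      smul_eq_mul] at h4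
    omega
  -- independent sets
  obtain ⟨a, ha⟩ : ∃ a, S.card = w + a := ⟨S.card - w, by omega⟩
  have hind : ∀ I ⊆ S, (∀ u ∈ I, ∀ v ∈ I, ¬ G.Adj u v) → I.card ≤ a := by
    intro I hI hI'
    by_contra hlt
    apply hS
    refine (bw_of_indep hI hI').mono Subset.rfl ?_
    have := card_le_card hI
    omega
  have h6a : 6 * a < 4 ^ t := by omega
  -- short cycles
  have h1 : ∀ R ⊆ S, S.card ≤ R.card + (2 * (2 * t + 1)) * (s - 1) →
      ∃ C ⊆ R, Cyc G C ∧ C.card ≤ 2 * (2 * t + 1) := by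
    intro R hR hRc
    have h2 : ∃ T ⊆ R, T.Nonempty ∧
        ∀ v ∈ T, ∃ N : Finset V, 5 ≤ N.card ∧ ∀ y ∈ N, y ∈ T ∧ G.Adj v y := by
      by_contra hno
      push Not at hno
      obtain ⟨I, hI1, hI2, hI3⟩ := greedy (G := G) 4 _ R rfl (by
        intro T hT hne
        obtain ⟨v, hv, hv'⟩ := hno T hT hne
        refine ⟨v, hv, T.filter (fun y => G.Adj v y), ?_, fun y hy hvy => mem_filter.2 ⟨hy, hvy⟩⟩
        by_contra hlt
        obtain ⟨y, hy, hy'⟩ := hv' (T.filter (fun y => G.Adj v y)) (by omega)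
        exact hy' (mem_filter.1 hy).1 (mem_filter.1 hy).2)
      have h3 := hind I (hI1.trans hR) hI2
      have h4 : 2 * (2 * t + 1) * (s - 1) ≤ 2 * (2 * t + 1) * s :=
        Nat.mul_le_mul_left _ (by omega)
      have h5 : 4 * (2 * t + 1) * s = 2 * (2 * (2 * t + 1) * s) := by ring
      have h6 : 3 * 2 ^ t ≤ 2 ^ t * 2 ^ t := Nat.mul_le_mul_right _ ht3
      omega
    obtain ⟨T, hT, hne, hdeg⟩ := h2
    have h7 : T.card < 2 ^ (2 * t + 1) := by
      have h8 := card_le_card (hT.trans hR)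
      have h9 : (2 : ℕ) ^ (2 * t + 1) = 2 * 4 ^ t := by
        rw [pow_succ, pow_mul]; norm_num [mul_comm]
      have h10 : 0 < 4 ^ t := by positivity
      omega
    obtain ⟨C, hC1, hC2, hC3⟩ := short hne h7 hdeg
    exact ⟨C, hC1.trans hT, hC2, hC3⟩
  obtain ⟨F, hF1, hF2, hF3, hF4⟩ := greedy_fam (Cyc G) _ s S h1 s le_rfl
  have h2 := star F hF1 hF2 hF4
  have h3 : ∑ i, (F i).card ≤ ∑ _i : Fin s, 2 * (2 * t + 1) := sum_le_sum (fun i _ => hF3 i)
  rw [sum_const, card_univ, Fintype.card_fin, smul_eq_mul] at h3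
  have ha2 : a < s * (2 * (2 * t + 1)) := by omega
  -- no four-cycles
  have h4 : ∃ R ⊆ S, S.card ≤ R.card + 4 * (s - 1) ∧ ∀ C ⊆ R, Cyc G C → 4 < C.card := by
    by_contra hno
    push Not at hno
    obtain ⟨F', hF1', hF2', hF3', hF4'⟩ := greedy_fam (Cyc G) 4 s S (by
      intro R hR hRc
      obtain ⟨C, h5, h6, h7⟩ := hno R hR hRc
      exact ⟨C, h5, h6, h7⟩) s le_rfl
    have h5 := star F' hF1' hF2' hF4'
    have h6 : ∑ i, (F' i).card ≤ ∑ _i : Fin s, 4 := sum_le_sum (fun i _ => hF3' i)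
    rw [sum_const, card_univ, Fintype.card_fin, smul_eq_mul] at h6
    omega
  obtain ⟨R, hR1, hR2, hR3⟩ := h4
  obtain ⟨I, hI1, hI2, hI3⟩ := indep_of_no_four hR3
  have h5 := hind I (hI1.trans hR1) hI2
  set q := Nat.sqrt R.card with hq
  have h6 : q * q ≤ R.card := Nat.sqrt_le R.card
  have h7 : 2 ^ t ≤ q := by
    rw [hq, Nat.le_sqrt]
    omega
  have h8 : (q + 2) * I.card ≤ (q + 2) * a := Nat.mul_le_mul_left _ h5
  have h9 : 2 * a ≤ q := by
    have : 4 * (2 * t + 1) * s = 2 * (s * (2 * (2 * t + 1))) := by ring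
    omega
  nlinarith

end

/-- for every `s ≥ 1` there is an `m` such that every graph of treewidth at least
`4 * s + m - 1` has `s` disjoint cycles of length at least four which leave `m` vertices
uncovered -/
theorem upper (s : ℕ) (hs : 1 ≤ s) : ∃ m, ∀ (V : Type) [Fintype V] [DecidableEq V]
    (G : SimpleGraph V) (S : Finset V) (w : ℕ), w + 1 = 4 * s + m → ¬ Bw G S w → Fam G S s m := by
  obtain ⟨M, hM⟩ : ∃ M, 7 * s ≤ 2 ^ M := ⟨7 * s, Nat.lt_two_pow_self.le⟩
  set u := 20 * s + 114 ^ M * 3 + 3 with hu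
  have h1 : u < 2 ^ u := Nat.lt_two_pow_self
  have h2 : (2 : ℕ) ^ (2 * u) = 2 ^ u * 2 ^ u := by rw [two_mul, pow_add]
  have h3 : 1 ≤ 2 ^ u := Nat.one_le_two_pow
  have h4 : 2 ^ u ≤ 2 ^ (2 * u) := by
    rw [h2]
    exact Nat.le_mul_of_pos_left _ h3
  refine ⟨4 ^ (2 * u), fun V _ _ G S w hw hS => upper_aux hs hM (by omega) ?_ (by omega) hw hS⟩
  rw [h2]
  have h5 : s * 1 ≤ s * u := Nat.mul_le_mul_left _ (by omega)
  calc 4 * (2 * (2 * u) + 1) * s = 16 * (s * u) + 4 * (s * 1) := by ring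
    _ ≤ 20 * (s * u) := by omega
    _ = (20 * s) * u := by ring
    _ ≤ 2 ^ u * 2 ^ u := Nat.mul_le_mul (by omega) h1.le

end Pool.Agent.R34
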