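import Mathlib
import Pool.Agent.R34.Defs
import Pool.Agent.R34.Upper
import Pool.Agent.TH507.Host
import Pool.Agent.H362SP.Conn

/-!
Transfer between treewidth and decompositions of vertex subsets, and between minors and their
models by finite sets.
-/

set_option autoImplicit false
set_option linter.unusedSectionVars false

namespace Pool.Agent.R34

open SimpleGraph Finset
open Pool.Agent.W126.Split Pool.Agent.TH507.Host

variable {V : Type} [Fintype V] [DecidableEq V] {G : SimpleGraph V}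

lemma twLE_of_bw {k : ℕ} (h : Bw G univ (k + 1)) : TwLE G k := td_of_bw h

lemma not_bw_of_le_tw {k : ℕ} (hk : 1 ≤ k) (h : k ≤ tw G) : ¬ Bw G univ k := by
  intro hb
  obtain ⟨j, rfl⟩ : ∃ j, k = j + 1 := ⟨k - 1, by omega⟩
  have h1 : tw G ≤ j := Nat.sInf_le (twLE_of_bw hb)
  omega

lemma le_tw_of_not_bw {k : ℕ} (h : ¬ Bw G univ k) : k ≤ tw G := by
  by_contra hlt
  have hne : {w | TwLE G w}.Nonempty :=
    ⟨Fintype.card V, twLE_of_bw ((bw_card univ).mono Subset.rfl (by simp))⟩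
  have h1 : TwLE G (tw G) := Nat.sInf_mem hne
  exact h ((bw_of_twLE h1).mono Subset.rfl (by omega))

/-- decompositions of an induced subgraph -/
lemma bw_of_induce {K : Finset V} {k : ℕ} [Fintype {x // x ∈ K}] [DecidableEq {x // x ∈ K}]
    (h : Bw (G.comap (Subtype.val : {x // x ∈ K} → V)) univ k) : Bw G K k := by
  obtain ⟨ι, hι, T, bag, hT, hsub, hcov, hedge, hconn, hcard⟩ := h
  have hmem : ∀ i v, v ∈ (bag i).image Subtype.val ↔ ∃ h : v ∈ K, (⟨v, h⟩ : {x // x ∈ K}) ∈ bag i := by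
    intro i v
    rw [mem_image]
    constructor
    · rintro ⟨⟨x, hx⟩, h, rfl⟩
      exact ⟨hx, h⟩
    · rintro ⟨h1, h2⟩
      exact ⟨⟨v, h1⟩, h2, rfl⟩
  refine ⟨ι, hι, T, fun i => (bag i).image Subtype.val, hT, ?_, ?_, ?_, ?_, ?_⟩
  · intro i v hv
    obtain ⟨h, -⟩ := (hmem i v).1 hv
    exact h
  · intro v hv
    obtain ⟨i, hi⟩ := hcov ⟨v, hv⟩ (mem_univ _)
    exact ⟨i, (hmem i v).2 ⟨_, hi⟩⟩
  · intro u hu v hv huv
    obtain ⟨i, hi, hi'⟩ := hedge ⟨u, hu⟩ (mem_univ _) ⟨v, hv⟩ (mem_univ _) huv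
    exact ⟨i, (hmem i u).2 ⟨_, hi⟩, (hmem i v).2 ⟨_, hi'⟩⟩
  · intro v i j hi hj
    obtain ⟨h1, h2⟩ := (hmem i v).1 hi
    obtain ⟨_, h3⟩ := (hmem j v).1 hj
    obtain ⟨p, hp⟩ := hconn ⟨v, h1⟩ i j h2 h3
    exact ⟨p, fun x hx => (hmem x v).2 ⟨h1, hp x hx⟩⟩
  · intro i
    exact card_image_le.trans (hcard i)

/-- minors of a subgraph -/
lemma IsMinor.of_embed {W V' : Type} {H : SimpleGraph W} {G' : SimpleGraph V'}
    (h : IsMinor H G') (f : V' → V) (hf : Function.Injective f)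
    (hadj : ∀ u v, G'.Adj u v → G.Adj (f u) (f v)) : IsMinor H G := by
  obtain ⟨B, h1, h2, h3⟩ := h
  refine ⟨fun x => f '' (B x), ?_, ?_, ?_⟩
  · intro x
    let φ : G'.induce (B x) →g G.induce (f '' (B x)) :=
      { toFun := fun y => ⟨f y.1, Set.mem_image_of_mem f y.2⟩
        map_rel' := fun {a b} hab => hadj _ _ hab }
    refine (h1 x).map φ ?_
    rintro ⟨_, y, hy, rfl⟩
    exact ⟨⟨y, hy⟩, rfl⟩
  · intro x y hxy
    exact (Set.disjoint_image_iff hf).2 (h2 x y hxy)
  · intro x y hxy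
    obtain ⟨u, hu, v, hv, huv⟩ := h3 x y hxy
    exact ⟨f u, Set.mem_image_of_mem f hu, f v, Set.mem_image_of_mem f hv, hadj _ _ huv⟩

/-- a model by finite connected sets -/
lemma minor_of {W : Type} {H : SimpleGraph W} (B : W → Finset V) (hne : ∀ x, (B x).Nonempty)
    (hc : ∀ x, Conn G (B x)) (hd : ∀ x y, x ≠ y → Disjoint (B x) (B y))
    (hadj : ∀ x y, H.Adj x y → ∃ u ∈ B x, ∃ v ∈ B y, G.Adj u v) : IsMinor H G := by
  refine ⟨fun x => (B x : Set V), ?_, ?_, ?_⟩
  · intro x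
    exact Pool.Agent.H362SP.induce_connected rfl (hc x) (hne x)
  · intro x y hxy
    exact Finset.disjoint_coe.2 (hd x y hxy)
  · intro x y hxy
    obtain ⟨u, hu, v, hv, huv⟩ := hadj x y hxy
    exact ⟨u, mem_coe.2 hu, v, mem_coe.2 hv, huv⟩

/-- the finite sets of a model -/
lemma model_of {W : Type} {H : SimpleGraph W} (h : IsMinor H G) :
    ∃ B : W → Finset V, (∀ x, (B x).Nonempty) ∧ (∀ x, Conn G (B x)) ∧
      (∀ x y, x ≠ y → Disjoint (B x) (B y)) ∧
      ∀ x y, H.Adj x y → ∃ u ∈ B x, ∃ v ∈ B y, G.Adj u v := by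
  classical
  obtain ⟨B, h1, h2, h3⟩ := h
  refine ⟨fun x => (B x).toFinset, ?_, ?_, ?_, ?_⟩
  · intro x
    obtain ⟨y⟩ := (h1 x).nonempty
    exact ⟨y.1, Set.mem_toFinset.2 y.2⟩
  · intro x u hu v hv
    rw [Set.mem_toFinset] at hu hv
    obtain ⟨p⟩ := (h1 x).preconnected ⟨u, hu⟩ ⟨v, hv⟩
    obtain ⟨q, hq⟩ := Pool.Agent.W126.TAC.walk_of_induce p
    exact ⟨q, fun z hz => Set.mem_toFinset.2 (hq z hz)⟩
  · intro x y hxy
    exact Set.disjoint_toFinset.2 (h2 x y hxy)
  · intro x y hxy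
    obtain ⟨u, hu, v, hv, huv⟩ := h3 x y hxy
    exact ⟨u, Set.mem_toFinset.2 hu, v, Set.mem_toFinset.2 hv, huv⟩

lemma conn_singleton (x : V) : Conn G {x} := by
  intro u hu v hv
  rw [mem_singleton] at hu hv
  subst hu; subst hv
  exact ⟨Walk.nil, fun z hz => by
    rw [Walk.support_nil, List.mem_singleton] at hz
    rw [hz]; exact mem_singleton_self _⟩

/-- joining two disjoint paths by an edge -/
lemma isPath_join {u v w z : V} {p : G.Walk u v} {q : G.Walk w z} (hp : p.IsPath) (hq : q.IsPath)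
    (h : G.Adj v w) (hd : ∀ x ∈ p.support, x ∉ q.support) : (p.append (Walk.cons h q)).IsPath := by
  rw [Walk.isPath_def, Walk.support_append, Walk.support_cons, List.tail_cons, List.nodup_append]
  refine ⟨hp.support_nodup, hq.support_nodup, ?_⟩
  intro a ha b hb hab
  exact hd a ha (hab ▸ hb)

/-- a path in a connected set -/
lemma exists_path {K : Finset V} (hK : Conn G K) {u v : V} (hu : u ∈ K) (hv : v ∈ K) :
    ∃ p : G.Walk u v, p.IsPath ∧ ∀ z ∈ p.support, z ∈ K := by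
  obtain ⟨p, hp⟩ := hK u hu v hv
  exact ⟨p.bypass, p.bypass_isPath, fun z hz => hp z (p.support_bypass_subset_support hz)⟩

/-- a model of a 4-cycle contains a cycle of length at least four -/
lemma cyc_of_model {B0 B1 B2 B3 : Finset V} (c0 : Conn G B0) (c1 : Conn G B1) (c2 : Conn G B2)
    (c3 : Conn G B3) (d01 : Disjoint B0 B1) (d02 : Disjoint B0 B2) (d03 : Disjoint B0 B3)
    (d12 : Disjoint B1 B2) (d13 : Disjoint B1 B3) (d23 : Disjoint B2 B3)
    (h01 : ∃ u ∈ B0, ∃ v ∈ B1, G.Adj u v) (h12 : ∃ u ∈ B1, ∃ v ∈ B2, G.Adj u v)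
    (h23 : ∃ u ∈ B2, ∃ v ∈ B3, G.Adj u v) (h30 : ∃ u ∈ B3, ∃ v ∈ B0, G.Adj u v) :
    ∃ C ⊆ B0 ∪ B1 ∪ B2 ∪ B3, Cyc G C := by
  rw [Finset.disjoint_left] at d01 d02 d03 d12 d13 d23
  obtain ⟨x01, hx01, x10, hx10, a01⟩ := h01
  obtain ⟨x12, hx12, x21, hx21, a12⟩ := h12
  obtain ⟨x23, hx23, x32, hx32, a23⟩ := h23
  obtain ⟨x30, hx30, x03, hx03, a30⟩ := h30
  obtain ⟨p0, hp0, hs0⟩ := exists_path c0 hx03 hx01
  obtain ⟨p1, hp1, hs1⟩ := exists_path c1 hx10 hx12
  obtain ⟨p2, hp2, hs2⟩ := exists_path c2 hx21 hx23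
  have hq1 : (p1.append (Walk.cons a12 p2)).IsPath :=
    isPath_join hp1 hp2 a12 (fun x hx hx' => d12 (hs1 x hx) (hs2 x hx'))
  have hs : ∀ x ∈ (p1.append (Walk.cons a12 p2)).support, x ∈ B1 ∨ x ∈ B2 := by
    intro x hx
    rw [Walk.mem_support_append_iff, Walk.support_cons, List.mem_cons] at hx
    rcases hx with hx | rfl | hx
    · exact Or.inl (hs1 x hx)
    · exact Or.inl hx12
    · exact Or.inr (hs2 x hx)
  have hq : (p0.append (Walk.cons a01 (p1.append (Walk.cons a12 p2)))).IsPath := by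
    refine isPath_join hp0 hq1 a01 ?_
    intro x hx hx'
    rcases hs x hx' with h | h
    · exact d01 (hs0 x hx) h
    · exact d02 (hs0 x hx) h
  have hs' : ∀ x ∈ (p0.append (Walk.cons a01 (p1.append (Walk.cons a12 p2)))).support,
      x ∈ B0 ∨ x ∈ B1 ∨ x ∈ B2 := by
    intro x hx
    rw [Walk.mem_support_append_iff, Walk.support_cons, List.mem_cons] at hx
    rcases hx with hx | rfl | hx
    · exact Or.inl (hs0 x hx)
    · exact Or.inl hx01
    · exact Or.inr (hs x hx)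
  have hl : 2 ≤ (p0.append (Walk.cons a01 (p1.append (Walk.cons a12 p2)))).length := by
    rw [Walk.length_append, Walk.length_cons, Walk.length_append, Walk.length_cons]
    omega
  obtain ⟨c, hc1, hc2, hc3, -⟩ := closing c3 _ hq (by omega) (by
    intro z hz hz'
    rcases hs' z hz with h | h | h
    · exact d03 h hz'
    · exact d13 h hz'
    · exact d23 h hz') ⟨x30, hx30, a30⟩ ⟨x32, hx32, a23⟩
  refine ⟨c.support.toFinset, ?_, _, c, hc1, by omega, rfl⟩
  intro z hz
  rw [List.mem_toFinset] at hz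
  simp only [mem_union]
  rcases hc3 z hz with h | h
  · have := hs' z h
    tauto
  · exact Or.inr h

/-- a cycle gives a model of a cycle of length `n`, with a given vertex in the first set -/
lemma model_of_cyc {C : Finset V} (hC : Cyc G C) (n : ℕ) (hn : 3 ≤ n) (hnC : n ≤ C.card) {x : V}
    (hx : x ∈ C) :
    ∃ B : ℕ → Finset V, (∀ i, i < n → (B i).Nonempty) ∧ (∀ i, i < n → Conn G (B i)) ∧
      (∀ i, i < n → B i ⊆ C) ∧ (∀ i j, i < n → j < n → i ≠ j → Disjoint (B i) (B j)) ∧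
      (∀ i, i + 1 < n → ∃ u ∈ B i, ∃ v ∈ B (i + 1), G.Adj u v) ∧
      (∃ u ∈ B (n - 1), ∃ v ∈ B 0, G.Adj u v) ∧ x ∈ B 0 := by
  obtain ⟨v0, c0, hc0, hl0, rfl⟩ := hC
  rw [card_cycle c0 hc0] at hnC
  rw [List.mem_toFinset] at hx
  set c := c0.rotate x hx with hcdef
  have hc : c.IsCycle := (Walk.isCycle_rotate hx).2 hc0
  have hl : c.length = c0.length := Walk.length_rotate c0 x hx
  have hsupp : ∀ z, z ∈ c.support ↔ z ∈ c0.support := by
    intro z
    exact Walk.mem_support_rotate_iff c0 x hx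
  have inj := hc.getVert_injOn'
  rw [← hl] at hnC
  have hinj : ∀ i j, i < c.length → j < c.length → c.getVert i = c.getVert j → i = j := by
    intro i j hi hj h
    exact inj (by simp only [Set.mem_ofPred_eq]; omega) (by simp only [Set.mem_ofPred_eq]; omega) h
  have hconn : ∀ a k, a + k ≤ c.length → Conn G ((Icc a (a + k)).image c.getVert) := by
    intro a k
    induction k with
    | zero =>
      intro _
      rw [add_zero, Icc_self, image_singleton]
      exact conn_singleton _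
    | succ k ih =>
      intro hk
      have h1 := ih (by omega)
      have h2 : (Icc a (a + (k + 1))).image c.getVert =
          insert (c.getVert (a + k + 1)) ((Icc a (a + k)).image c.getVert) := by
        have h3 : Icc a (a + (k + 1)) = insert (a + k + 1) (Icc a (a + k)) := by
          ext z
          simp only [mem_Icc, mem_insert]
          omega
        rw [h3, image_insert]
      rw [h2]
      exact Pool.Agent.H362SP.conn_insert h1 (mem_image_of_mem _ (mem_Icc.2 ⟨by omega, le_rfl⟩))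
        (c.adj_getVert_succ (by omega))
  let hi : ℕ → ℕ := fun i => if i + 1 = n then c.length - 1 else i
  have hile : ∀ i, i < n → i ≤ hi i ∧ hi i < c.length := by
    intro i hin
    simp only [hi]
    split_ifs <;> omega
  refine ⟨fun i => (Icc i (hi i)).image c.getVert, ?_, ?_, ?_, ?_, ?_, ?_, ?_⟩
  · intro i hin
    exact ⟨c.getVert i, mem_image_of_mem _ (mem_Icc.2 ⟨le_rfl, (hile i hin).1⟩)⟩
  · intro i hin
    obtain ⟨h1, h2⟩ := hile i hin
    have h3 := hconn i (hi i - i) (by omega)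
    rwa [show i + (hi i - i) = hi i by omega] at h3
  · intro i _ z hz
    obtain ⟨j, -, rfl⟩ := mem_image.1 hz
    rw [List.mem_toFinset, ← hsupp]
    exact Walk.getVert_mem_support _ _
  · intro i j hin hjn hij
    rw [Finset.disjoint_left]
    intro z hz hz'
    obtain ⟨a, ha, rfl⟩ := mem_image.1 hz
    obtain ⟨b, hb, hab⟩ := mem_image.1 hz'
    rw [mem_Icc] at ha hb
    have h1 := hile i hin
    have h2 := hile j hjn
    have h3 := hinj b a (by omega) (by omega) hab
    subst h3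
    simp only [hi] at ha hb
    split_ifs at ha hb <;> omega
  · intro i hin
    refine ⟨c.getVert i, mem_image_of_mem _ (mem_Icc.2 ⟨le_rfl, (hile i (by omega)).1⟩),
      c.getVert (i + 1), mem_image_of_mem _ (mem_Icc.2 ⟨le_rfl, (hile (i + 1) hin).1⟩),
      c.adj_getVert_succ (by omega)⟩
  · refine ⟨c.getVert (c.length - 1), mem_image_of_mem _ (mem_Icc.2 ⟨by omega, ?_⟩),
      c.getVert 0, mem_image_of_mem _ (mem_Icc.2 ⟨le_rfl, (hile 0 (by omega)).1⟩), ?_⟩
    · simp only [hi]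
      rw [if_pos (by omega)]
    · have h1 := c.adj_getVert_succ (i := c.length - 1) (by omega)
      rw [show c.length - 1 + 1 = c.length by omega, Walk.getVert_length] at h1
      rwa [Walk.getVert_zero]
  · have h1 : c.getVert 0 = x := Walk.getVert_zero _
    exact mem_image.2 ⟨0, mem_Icc.2 ⟨le_rfl, by omega⟩, h1⟩

end Pool.Agent.R34
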