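import Mathlib
import Pool.Agent.R34.IdDefs
import Pool.Agent.R34.Transfer

/-!
The contraction distance is not bounded by a function of the identification distance.
-/

set_option autoImplicit false
set_option linter.unusedSectionVars false

namespace Pool.Agent.R34.Ident

open SimpleGraph Finset
open Pool.Agent.TH507.Host

lemma IsImage.comp {V U W : Type} {G : SimpleGraph V} {K : SimpleGraph U} {H : SimpleGraph W}
    {q : V → U} {p : U → W} (h1 : IsImage G q K) (h2 : IsImage K p H) :
    IsImage G (p ∘ q) H := by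
  refine ⟨h2.1.comp h1.1, fun a b => ?_⟩
  rw [h2.2]
  constructor
  · rintro ⟨hab, x', y', rfl, rfl, h⟩
    obtain ⟨-, x, y, rfl, rfl, h'⟩ := (h1.2 _ _).1 h
    exact ⟨hab, x, y, rfl, rfl, h'⟩
  · rintro ⟨hab, x, y, rfl, rfl, h⟩
    refine ⟨hab, q x, q y, rfl, rfl, (h1.2 _ _).2 ⟨fun h' => hab ?_, x, y, rfl, rfl, h⟩⟩
    simp [h']

lemma isImage_iso {V W : Type} {G : SimpleGraph V} {H : SimpleGraph W} (e : G ≃g H) :
    IsImage G e H := by
  refine ⟨e.surjective, fun a b => ?_⟩
  constructor
  · intro h
    refine ⟨h.ne, e.symm a, e.symm b, by simp, by simp, ?_⟩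
    exact e.symm.map_adj_iff.2 h
  · rintro ⟨-, x, y, rfl, rfl, h⟩
    exact e.map_adj_iff.2 h

/-- the structure of a sequence of `j` contractions -/
lemma contracts_struct {V : Type} {G : SimpleGraph V} (φ : V → ℤ)
    (hφ : ∀ x y, G.Adj x y → |φ x - φ y| ≤ 1) :
    ∀ (j : ℕ) (W : Type) (H : SimpleGraph W), Contracts G j W H →
      ∃ q : V → W, IsImage G q H ∧ (∀ x y, q x = q y → |φ x - φ y| < 2 ^ j) ∧
        ∃ S : Finset V, S.card ≤ 2 * j ∧ ∀ x y, q x = q y → x ≠ y → x ∈ S := by
  classical
  intro j
  induction j with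
  | zero =>
    rintro W H ⟨e⟩
    refine ⟨e, isImage_iso e, ?_, ∅, by simp, ?_⟩
    · intro x y hxy
      have := e.injective hxy
      subst this
      simp
    · intro x y hxy hne
      exact absurd (e.injective hxy) hne
  | succ j ih =>
    rintro W H ⟨U, K, hK, u', v', p, huv, hp, him⟩
    obtain ⟨q, hq, hφq, S, hS, hSq⟩ := ih U K hK
    obtain ⟨-, u, v, rfl, rfl, hGuv⟩ := (hq.2 _ _).1 huv
    refine ⟨p ∘ q, hq.comp him, ?_, insert u (insert v S), ?_, ?_⟩
    · intro x y hxy
      have h0 := hφ u v hGuv
      have h2 : (2 : ℤ) ^ (j + 1) = 2 ^ j + 2 ^ j := by ring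
      rcases (hp _ _).1 hxy with h | ⟨h, h'⟩ | ⟨h, h'⟩
      · have h1 := hφq x y h
        rw [abs_lt] at h1 ⊢
        constructor <;> omega
      · have h1 := hφq x u h
        have h3 := hφq y v h'
        rw [abs_lt] at h1 h3 ⊢
        rw [abs_le] at h0
        constructor <;> omega
      · have h1 := hφq x v h
        have h3 := hφq y u h'
        rw [abs_lt] at h1 h3 ⊢
        rw [abs_le] at h0
        constructor <;> omega
    · have h1 := card_insert_le u (insert v S)
      have h2 := card_insert_le v S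
      omega
    · intro x y hxy hne
      simp only [mem_insert]
      rcases (hp _ _).1 hxy with h | ⟨h, h'⟩ | ⟨h, h'⟩
      · exact Or.inr (Or.inr (hSq x y h hne))
      · by_cases hxu : x = u
        · exact Or.inl hxu
        · exact Or.inr (Or.inr (hSq x u h hxu))
      · by_cases hxv : x = v
        · exact Or.inr (Or.inl hxv)
        · exact Or.inr (Or.inr (hSq x v h hxv))

/-- the image of a connected set is connected -/
lemma image_connected {V W : Type} {G : SimpleGraph V} {H : SimpleGraph W} {q : V → W}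
    (hq : IsImage G q H) (A : Set V) (hA : (G.induce A).Connected) :
    (H.induce (q '' A)).Connected := by
  have key : ∀ x y : A, (G.induce A).Reachable x y →
      (H.induce (q '' A)).Reachable ⟨q x, Set.mem_image_of_mem q x.2⟩
        ⟨q y, Set.mem_image_of_mem q y.2⟩ := by
    rintro x y ⟨w⟩
    induction w with
    | nil => exact Reachable.refl _
    | @cons a b c hab w ih =>
      refine Reachable.trans ?_ ih
      by_cases h : q a = q b
      · have : (⟨q a, Set.mem_image_of_mem q a.2⟩ : q '' A) = ⟨q b, Set.mem_image_of_mem q b.2⟩ :=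
          Subtype.ext h
        rw [this]
      · apply Adj.reachable
        exact (hq.2 _ _).2 ⟨h, a, b, rfl, rfl, hab⟩
  obtain ⟨x0⟩ := hA.nonempty
  rw [connected_iff_exists_forall_reachable]
  refine ⟨⟨q x0, Set.mem_image_of_mem q x0.2⟩, ?_⟩
  rintro ⟨_, y, hy, rfl⟩
  exact key x0 ⟨y, hy⟩ (hA.preconnected _ _)

/-- the image of a connected graph is connected -/
lemma image_connected' {V W : Type} {G : SimpleGraph V} {H : SimpleGraph W} {q : V → W}
    (hq : IsImage G q H) (hA : G.Connected) : H.Connected := by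
  have key : ∀ x y, G.Reachable x y → H.Reachable (q x) (q y) := by
    rintro x y ⟨w⟩
    induction w with
    | nil => exact Reachable.refl _
    | @cons a b c hab w ih =>
      refine Reachable.trans ?_ ih
      by_cases h : q a = q b
      · rw [h]
      · exact ((hq.2 _ _).2 ⟨h, a, b, rfl, rfl, hab⟩).reachable
  obtain ⟨x0⟩ := hA.nonempty
  rw [connected_iff_exists_forall_reachable]
  refine ⟨q x0, fun y => ?_⟩
  obtain ⟨y, rfl⟩ := hq.1 y
  exact key _ _ (hA.preconnected _ _)

/-- the quotient graph -/
def quot {V W : Type} (G : SimpleGraph V) (q : V → W) : SimpleGraph W where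
  Adj a b := a ≠ b ∧ ∃ x y, q x = a ∧ q y = b ∧ G.Adj x y
  symm := ⟨fun _ _ ⟨h1, x, y, h2, h3, h4⟩ => ⟨h1.symm, y, x, h3, h2, h4.symm⟩⟩
  loopless := ⟨fun _ h => h.1 rfl⟩

/-- a connected graph can be contracted down to any number of vertices -/
lemma contract_down {V : Type} [Finite V] {G : SimpleGraph V} (hG : G.Connected) :
    ∀ m, m + 1 ≤ Nat.card V → ∃ (W : Type) (_ : Finite W) (H : SimpleGraph W),
      Contracts G m W H ∧ H.Connected ∧ Nat.card W + m = Nat.card V := by
  classical
  intro m
  induction m with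
  | zero =>
    intro _
    exact ⟨V, inferInstance, G, ⟨Iso.refl⟩, hG, rfl⟩
  | succ m ih =>
    intro hm
    obtain ⟨W, hW, H, hc, hH, hcard⟩ := ih (by omega)
    have hnt : Nontrivial W := Finite.one_lt_card_iff_nontrivial.1 (by omega)
    obtain ⟨a, b, hab⟩ := hnt.exists_pair_ne
    obtain ⟨u, v, huv⟩ : ∃ u v, H.Adj u v := by
      obtain ⟨w⟩ := hH.preconnected a b
      cases w with
      | nil => exact absurd rfl hab
      | cons h _ => exact ⟨_, _, h⟩
    let p : W → {x : W // x ≠ v} := fun x => if h : x = v then ⟨u, huv.ne⟩ else ⟨x, h⟩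
    have hpv : p v = ⟨u, huv.ne⟩ := by simp [p]
    have hpx : ∀ x, (hx : x ≠ v) → p x = ⟨x, hx⟩ := fun x hx => by simp [p, hx]
    have hps : Function.Surjective p := fun ⟨x, hx⟩ => ⟨x, hpx x hx⟩
    have him : IsImage H p (quot H p) := ⟨hps, fun a b => Iff.rfl⟩
    refine ⟨{x : W // x ≠ v}, inferInstance, quot H p, ⟨W, H, hc, u, v, p, huv, ?_, him⟩,
      image_connected' him hH, ?_⟩
    · intro x y
      by_cases hx : x = v
      · by_cases hy : y = v
        · simp [hx, hy]
        · rw [hx, hpv, hpx y hy, Subtype.mk.injEq]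
          constructor
          · intro h
            exact Or.inr (Or.inr ⟨rfl, h.symm⟩)
          · rintro (h | ⟨h1, h2⟩ | ⟨-, h⟩)
            · exact absurd h.symm hy
            · exact absurd h2 hy
            · exact h.symm
      · by_cases hy : y = v
        · rw [hy, hpv, hpx x hx, Subtype.mk.injEq]
          constructor
          · intro h
            exact Or.inr (Or.inl ⟨h, rfl⟩)
          · rintro (h | ⟨h1, h2⟩ | ⟨h1, -⟩)
            · exact absurd h hx
            · exact h1
            · exact absurd h1 hx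
        · rw [hpx x hx, hpx y hy, Subtype.mk.injEq]
          constructor
          · intro h
            exact Or.inl h
          · rintro (h | ⟨-, h⟩ | ⟨h, -⟩)
            · exact h
            · exact absurd h hy
            · exact absurd h hx
    · have h1 : Nat.card {x : W // x ≠ v} + 1 = Nat.card W := by
        have : Fintype W := Fintype.ofFinite W
        rw [Nat.card_eq_fintype_card, Nat.card_eq_fintype_card, Fintype.card_subtype_compl]
        simp only [Fintype.card_unique]
        have : 0 < Fintype.card W := Fintype.card_pos_iff.2 ⟨v⟩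
        omega
      omega

/-- the hub graph: `r` hubs and `M` legs, each a path on `L` vertices; the hub `a` is adjacent to
the vertex number `a * N` of every leg -/
def hub (r N M L : ℕ) : SimpleGraph (Fin r ⊕ (Fin M × Fin L)) where
  Adj x y := match x, y with
    | Sum.inl _, Sum.inl _ => False
    | Sum.inl a, Sum.inr y => y.2.val = a.val * N
    | Sum.inr x, Sum.inl a => x.2.val = a.val * N
    | Sum.inr x, Sum.inr y => x.1 = y.1 ∧ (x.2.val = y.2.val + 1 ∨ y.2.val = x.2.val + 1)
  symm := ⟨by
    rintro (a | ⟨l, i⟩) (b | ⟨l', i'⟩) h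
    · exact h
    · exact h
    · exact h
    · exact ⟨h.1.symm, h.2.symm⟩⟩
  loopless := ⟨by
    rintro (a | ⟨l, i⟩) h
    · exact h
    · obtain ⟨-, h | h⟩ := h <;> simp at h⟩

/-- the potential of the hub graph -/
def pot (r N M L : ℕ) : Fin r ⊕ (Fin M × Fin L) → ℤ
  | Sum.inl a => a.val * N
  | Sum.inr x => x.2.val

lemma pot_lip (r N M L : ℕ) (x y : Fin r ⊕ (Fin M × Fin L)) (h : (hub r N M L).Adj x y) :
    |pot r N M L x - pot r N M L y| ≤ 1 := by
  rcases x with a | ⟨l, i⟩ <;> rcases y with b | ⟨l', i'⟩
  · exact absurd h id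
  · have h1 : i'.val = a.val * N := h
    simp only [pot]
    rw [h1]
    simp
  · have h1 : i.val = b.val * N := h
    simp only [pot]
    rw [h1]
    simp
  · obtain ⟨-, h | h⟩ := h
    · simp only [pot]
      simp only at h
      rw [abs_le]
      constructor <;> omega
    · simp only [pot]
      simp only at h
      rw [abs_le]
      constructor <;> omega

/-- all vertices of a leg can be reached from its first vertex, inside a set containing the leg -/
lemma reach_leg {r N M L : ℕ} (hL : 0 < L) (l : Fin M) (A : Set (Fin r ⊕ (Fin M × Fin L)))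
    (hA : ∀ i, Sum.inr (l, i) ∈ A) (i : Fin L) :
    ((hub r N M L).induce A).Reachable ⟨Sum.inr (l, ⟨0, hL⟩), hA _⟩ ⟨Sum.inr (l, i), hA _⟩ := by
  obtain ⟨i, hi⟩ := i
  induction i with
  | zero => exact Reachable.refl _
  | succ i ih =>
    refine (ih (by omega)).trans (Adj.reachable ?_)
    change (hub r N M L).Adj (Sum.inr (l, ⟨i, _⟩)) (Sum.inr (l, ⟨i + 1, hi⟩))
    exact ⟨rfl, Or.inr rfl⟩

end Pool.Agent.R34.Ident
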