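import Mathlib
import Pool.Agent.R34.Ident

/-!
The hub graph: large contraction distance, small identification distance.
-/

set_option autoImplicit false
set_option linter.unusedSectionVars false

namespace Pool.Agent.R34.Ident

open SimpleGraph Finset
open Pool.Agent.TH507.Host

/-- after few contractions the hub graph still has all small graphs as minors -/
lemma minor_of_contracts {R : Type} [Finite R] (F : SimpleGraph R) {r k M : ℕ}
    (hR : Nat.card R ≤ r) (hM : r + 2 * k ≤ M) {j : ℕ} (hj : j ≤ k) {W : Type}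
    {H : SimpleGraph W} (h : Contracts (hub r (2 ^ k) M (r * 2 ^ k + 1)) j W H) : IsMinor F H := by
  classical
  obtain ⟨q, hq, hφ, S, hS, hSq⟩ := contracts_struct (pot r (2 ^ k) M (r * 2 ^ k + 1))
    (pot_lip _ _ _ _) j W H h
  -- untouched legs
  set T : Finset (Fin M) := univ.filter (fun l => ∃ i, Sum.inr (l, i) ∈ S) with hT
  have hTc : T.card ≤ S.card := by
    have hch : ∀ l : Fin M, ∃ y : Fin r ⊕ (Fin M × Fin (r * 2 ^ k + 1)), l ∈ T → (y ∈ S ∧ ∃ i, y = Sum.inr (l, i)) := by
      intro l
      by_cases hl : l ∈ T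
      · obtain ⟨i, hi⟩ := (mem_filter.1 hl).2
        exact ⟨Sum.inr (l, i), fun _ => ⟨hi, i, rfl⟩⟩
      · exact ⟨Sum.inr (l, ⟨0, by omega⟩), fun h => absurd h hl⟩
    choose f hf using hch
    refine card_le_card_of_injOn f (fun l hl => (hf l hl).1) ?_
    intro l hl l' hl' hll
    obtain ⟨i, hi⟩ := (hf l hl).2
    obtain ⟨i', hi'⟩ := (hf l' hl').2
    rw [hi, hi'] at hll
    have := Sum.inr.inj hll
    exact (Prod.mk.inj this).1
  have hU : r ≤ Fintype.card {l : Fin M // l ∉ T} := by
    rw [Fintype.card_subtype_compl, Fintype.card_fin, Fintype.card_coe]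
    omega
  obtain ⟨lam⟩ : Nonempty (Fin r ↪ {l : Fin M // l ∉ T}) := by
    apply Function.Embedding.nonempty_of_card_le
    rwa [Fintype.card_fin]
  obtain ⟨io⟩ : Nonempty (R ↪ Fin r) := by
    have : Fintype R := Fintype.ofFinite R
    apply Function.Embedding.nonempty_of_card_le
    rwa [Fintype.card_fin, ← Nat.card_eq_fintype_card]
  have hunt : ∀ (a : Fin r) i, Sum.inr ((lam a).1, i) ∉ S := by
    intro a i hi
    exact (lam a).2 (mem_filter.2 ⟨mem_univ _, i, hi⟩)
  let A : R → Set (Fin r ⊕ (Fin M × Fin (r * 2 ^ k + 1))) := fun x =>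
    {y | y = Sum.inl (io x) ∨ ∃ i, y = Sum.inr ((lam (io x)).1, i)}
  have hdis : ∀ x y, x ≠ y → ∀ u ∈ A x, ∀ v ∈ A y, q u ≠ q v := by
    rintro x y hxy u (rfl | ⟨i, rfl⟩) v (rfl | ⟨i', rfl⟩) huv
    · have h1 := hφ _ _ huv
      have hne : (io x).val ≠ (io y).val := fun h => hxy (io.injective (Fin.ext h))
      simp only [pot] at h1
      have h2 : (2 : ℤ) ^ j ≤ 2 ^ k := pow_le_pow_right₀ (by norm_num) hj
      have h3 : ((io x).val : ℤ) * ((2 ^ k : ℕ) : ℤ) - ((io y).val : ℤ) * ((2 ^ k : ℕ) : ℤ) =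
        (((io x).val : ℤ) - (io y).val) * 2 ^ k := by push_cast; ring
      rw [h3, abs_mul, abs_of_pos (by positivity : (0 : ℤ) < 2 ^ k)] at h1
      have h4 : (1 : ℤ) ≤ |((io x).val : ℤ) - (io y).val| := by
        apply Int.one_le_abs
        omega
      nlinarith [h1, h2, h4, (by positivity : (0 : ℤ) < 2 ^ k)]
    · exact hunt (io y) i' (hSq _ _ huv.symm (by simp))
    · exact hunt (io x) i (hSq _ _ huv (by simp))
    · refine hunt (io x) i (hSq _ _ huv ?_)
      intro h
      have h1 := (Prod.mk.inj (Sum.inr.inj h)).1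
      exact hxy (io.injective (lam.injective (Subtype.ext h1)))
  refine ⟨fun x => q '' (A x), ?_, ?_, ?_⟩
  · intro x
    apply image_connected hq
    rw [connected_iff_exists_forall_reachable]
    refine ⟨⟨Sum.inr ((lam (io x)).1, ⟨0, by omega⟩), Or.inr ⟨_, rfl⟩⟩, ?_⟩
    have hA : ∀ i, Sum.inr ((lam (io x)).1, i) ∈ A x := fun i => Or.inr ⟨i, rfl⟩
    rintro ⟨y, rfl | ⟨i, rfl⟩⟩
    · have hlt : (io x).val * 2 ^ k < r * 2 ^ k + 1 := by
        have h1 : (io x).val * 2 ^ k ≤ r * 2 ^ k := Nat.mul_le_mul_right _ (io x).2.le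
        omega
      refine (reach_leg (by omega) (lam (io x)).1 (A x) hA ⟨(io x).val * 2 ^ k, hlt⟩).trans
        (Adj.reachable ?_)
      change (hub r (2 ^ k) M (r * 2 ^ k + 1)).Adj (Sum.inr _) (Sum.inl _)
      rfl
    · exact reach_leg (by omega) (lam (io x)).1 (A x) hA i
  · intro x y hxy
    rw [Set.disjoint_left]
    rintro _ ⟨u, hu, rfl⟩ ⟨v, hv, h⟩
    exact hdis x y hxy u hu v hv h.symm
  · intro x y hxy
    have hlt : (io x).val * 2 ^ k < r * 2 ^ k + 1 := by
      have h1 : (io x).val * 2 ^ k ≤ r * 2 ^ k := Nat.mul_le_mul_right _ (io x).2.le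
      omega
    have h1 : Sum.inl (io x) ∈ A x := Or.inl rfl
    have h2 : Sum.inr ((lam (io y)).1, ⟨(io x).val * 2 ^ k, hlt⟩) ∈ A y := Or.inr ⟨_, rfl⟩
    refine ⟨q (Sum.inl (io x)), Set.mem_image_of_mem q h1, _, Set.mem_image_of_mem q h2, ?_⟩
    refine (hq.2 _ _).2 ⟨hdis x y hxy.ne _ h1 _ h2, _, _, rfl, rfl, ?_⟩
    rfl

/-- the hub graph is connected -/
lemma hub_connected {r N M L : ℕ} (hr : 0 < r) (hM : 0 < M) (hL : r * N + 1 ≤ L) :
    (hub r N M L).Connected := by
  have h0 : ∀ l i, (hub r N M L).Reachable (Sum.inl ⟨0, hr⟩) (Sum.inr (l, i)) := by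
    intro l i
    have h1 : (hub r N M L).Adj (Sum.inl ⟨0, hr⟩) (Sum.inr (l, ⟨0, by omega⟩)) := by
      change 0 = 0 * N
      simp
    refine h1.reachable.trans ?_
    have h2 := reach_leg (r := r) (N := N) (by omega : 0 < L) l Set.univ (fun i => Set.mem_univ _) i
    exact h2.map (Embedding.induce (G := hub r N M L) Set.univ).toHom
  rw [connected_iff_exists_forall_reachable]
  refine ⟨Sum.inl ⟨0, hr⟩, ?_⟩
  rintro (a | ⟨l, i⟩)
  · have hlt : a.val * N < L := by
      have h1 : a.val * N ≤ r * N := Nat.mul_le_mul_right _ a.2.le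
      omega
    refine (h0 ⟨0, hM⟩ ⟨a.val * N, hlt⟩).trans (Adj.reachable ?_)
    change a.val * N = a.val * N
    rfl
  · exact h0 l i

/-- the vertex map which identifies all hubs but the first one -/
def glue (r M L : ℕ) : Fin r ⊕ (Fin M × Fin L) → Bool ⊕ (Fin M × Fin L)
  | Sum.inl a => Sum.inl (decide (a.val = 0))
  | Sum.inr x => Sum.inr x

/-- identifying all hubs but one gives an apex-forest -/
lemma glue_apex (r N M L : ℕ) :
    ApexForest (quot (hub r N M L) (glue r M L)) := by
  classical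
  let rk : Bool ⊕ (Fin M × Fin L) → ℕ := fun x => match x with
    | Sum.inl _ => 0
    | Sum.inr x => x.2.val + 1
  have hadj0 : ∀ (l : Fin M) (i : Fin L), (quot (hub r N M L) (glue r M L)).Adj (Sum.inr (l, i)) (Sum.inl true) →
      i.val = 0 := by
    rintro l i ⟨-, x, y, hx, hy, h⟩
    rcases x with a | x
    · simp [glue] at hx
    rcases y with b | y
    · simp only [glue, Sum.inl.injEq, decide_eq_true_eq] at hy
      simp only [glue, Sum.inr.injEq] at hx
      subst hx
      have h1 : i.val = b.val * N := h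
      rw [h1, hy]
      simp
    · simp [glue] at hy
  have hadj1 : ∀ (l l' : Fin M) (i i' : Fin L), (quot (hub r N M L) (glue r M L)).Adj (Sum.inr (l, i)) (Sum.inr (l', i')) →
      l = l' ∧ (i.val = i'.val + 1 ∨ i'.val = i.val + 1) := by
    rintro l l' i i' ⟨-, x, y, hx, hy, h⟩
    rcases x with a | x
    · simp [glue] at hx
    rcases y with b | y
    · simp [glue] at hy
    · simp only [glue, Sum.inr.injEq] at hx hy
      subst hx; subst hy
      exact h
  have hadj2 : ∀ a b, ¬ (quot (hub r N M L) (glue r M L)).Adj (Sum.inl a) (Sum.inl b) := by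
    rintro a b ⟨-, x, y, hx, hy, h⟩
    rcases x with a' | x
    · rcases y with b' | y
      · exact h
      · simp [glue] at hy
    · simp [glue] at hx
  have huniq : ∀ x y z, x ≠ Sum.inl false → y ≠ Sum.inl false → z ≠ Sum.inl false →
      (quot (hub r N M L) (glue r M L)).Adj x y → (quot (hub r N M L) (glue r M L)).Adj x z →
      rk y ≤ rk x → rk z ≤ rk x → y = z := by
    rintro (a | ⟨l, i⟩) y z hx hy hz hxy hxz h1 h2
    · rcases y with b | ⟨l', i'⟩
      · exact absurd hxy (hadj2 _ _)
      · simp [rk] at h1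
    · rcases y with b | ⟨l', i'⟩
      · have hb : b = true := by
          cases b
          · exact absurd rfl hy
          · rfl
        subst hb
        have hi := hadj0 _ _ hxy
        rcases z with b | ⟨l'', i''⟩
        · have hb : b = true := by
            cases b
            · exact absurd rfl hz
            · rfl
          rw [hb]
        · have h3 := hadj1 _ _ _ _ hxz
          simp only [rk] at h2
          omega
      · have h3 := hadj1 _ _ _ _ hxy
        rcases z with b | ⟨l'', i''⟩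
        · have hb : b = true := by
            cases b
            · exact absurd rfl hz
            · rfl
          subst hb
          have hi := hadj0 _ _ hxz
          simp only [rk] at h1
          omega
        · have h4 := hadj1 _ _ _ _ hxz
          simp only [rk] at h1 h2
          obtain ⟨rfl, h3⟩ := h3
          obtain ⟨rfl, h4⟩ := h4
          have : i' = i'' := Fin.ext (by omega)
          rw [this]
  refine ⟨Sum.inl false, ?_⟩
  intro v c hc
  by_contra hs
  obtain ⟨m, hm, hmax⟩ := c.support.toFinset.exists_max_image rk ⟨v, by simp⟩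
  rw [List.mem_toFinset] at hm
  have hc' : (c.rotate m hm).IsCycle := (Walk.isCycle_rotate hm).2 hc
  have hsupp : ∀ z, z ∈ (c.rotate m hm).support ↔ z ∈ c.support := by
    intro z
    exact Walk.mem_support_rotate_iff c m hm
  have hns : ∀ z, z ∈ (c.rotate m hm).support → z ≠ Sum.inl false ∧ rk z ≤ rk m := by
    intro z hz
    rw [hsupp] at hz
    exact ⟨fun h => hs (h ▸ hz), hmax z (List.mem_toFinset.2 hz)⟩
  have h1 := hns _ ((c.rotate m hm).getVert_mem_support 1)
  have h2 := hns _ ((c.rotate m hm).getVert_mem_support ((c.rotate m hm).length - 1))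
  have h3 := hns _ (c.rotate m hm).start_mem_support
  exact hc'.snd_ne_penultimate (huniq m _ _ h3.1 h1.1 h2.1
    ((c.rotate m hm).adj_snd hc'.not_nil) ((c.rotate m hm).adj_penultimate hc'.not_nil).symm h1.2 h2.2)

/-- the main theorem for a class of graphs -/
theorem main (C : GraphClass) (hmc : MinorClosed C)
    (hprop : ∃ (R : Type) (_ : Finite R) (F : SimpleGraph R), ¬ C R F)
    (hapex : ∀ (V : Type) [Finite V] (G : SimpleGraph V), ApexForest G → C V G) :
    ∃ c : ℕ, ∀ k : ℕ, ∃ (V : Type) (_ : Fintype V) (G : SimpleGraph V), G.Connected ∧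
      IdLE C G c ∧ (∃ j, Reaches C G j) ∧ ∀ j, Reaches C G j → k < j := by
  classical
  obtain ⟨R, hRf, F, hF⟩ := hprop
  set r := Nat.card R + 2 with hr
  refine ⟨r, fun k => ?_⟩
  set N := 2 ^ k with hN
  set M := r + 2 * k with hM
  set L := r * 2 ^ k + 1 with hL
  refine ⟨Fin r ⊕ (Fin M × Fin L), inferInstance, hub r N M L,
    hub_connected (by omega) (by omega) le_rfl, ?_, ?_, ?_⟩
  · refine ⟨Bool ⊕ (Fin M × Fin L), quot (hub r N M L) (glue r M L),
      univ.image Sum.inl, glue r M L, ?_, ?_, ⟨?_, fun a b => Iff.rfl⟩,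
      hapex _ _ (glue_apex r N M L)⟩
    · refine card_image_le.trans ?_
      simp
    · rintro (a | x) (b | y) h
      · exact Or.inr ⟨mem_image_of_mem _ (mem_univ _), mem_image_of_mem _ (mem_univ _)⟩
      · simp [glue] at h
      · simp [glue] at h
      · left
        simp only [glue, Sum.inr.injEq] at h
        rw [h]
    · rintro (b | x)
      · cases b
        · exact ⟨Sum.inl ⟨1, by omega⟩, by simp [glue]⟩
        · exact ⟨Sum.inl ⟨0, by omega⟩, by simp [glue]⟩
      · exact ⟨Sum.inr x, rfl⟩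
  · have hcon : (hub r N M L).Connected := hub_connected (by omega) (by omega) le_rfl
    have hpos : 0 < Nat.card (Fin r ⊕ (Fin M × Fin L)) := by
      have : Nonempty (Fin r ⊕ (Fin M × Fin L)) := ⟨Sum.inl ⟨0, by omega⟩⟩
      exact Nat.card_pos
    obtain ⟨W, hW, H, hc, hH, hcard⟩ := contract_down hcon
      (Nat.card (Fin r ⊕ (Fin M × Fin L)) - 1) (by omega)
    refine ⟨_, W, H, hc, hapex W H ?_⟩
    have h1 : Nat.card W = 1 := by omega
    have hsub : Subsingleton W := (Nat.card_eq_one_iff_unique.1 h1).1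
    obtain ⟨x⟩ := hH.nonempty
    exact ⟨x, fun v c _ => by
      rw [Subsingleton.elim x v]
      exact c.start_mem_support⟩
  · rintro j ⟨W, H, hc, hCH⟩
    by_contra hjk
    have hWfin : Finite W := by
      obtain ⟨q, hq, -⟩ := contracts_struct (fun _ => (0 : ℤ)) (by simp) j W H hc
      exact Finite.of_surjective q hq.1
    exact hF (hmc W R H F hCH (minor_of_contracts F (by omega) (by omega) (by omega : j ≤ k) hc))

/-- no bounding function for such a class -/
theorem not_bounded (C : GraphClass) (hmc : MinorClosed C)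
    (hprop : ∃ (R : Type) (_ : Finite R) (F : SimpleGraph R), ¬ C R F)
    (hapex : ∀ (V : Type) [Finite V] (G : SimpleGraph V), ApexForest G → C V G) :
    ¬ Bounded C := by
  rintro ⟨f, hf⟩
  obtain ⟨c, hc⟩ := main C hmc hprop hapex
  obtain ⟨V, hV, G, -, hid, hex, hlow⟩ := hc ((Finset.range (c + 1)).sup f)
  have h1 := hf V G hex
  have h2 : idn C G ≤ c := Nat.sInf_le hid
  have h3 : Reaches C G (ec C G) := Nat.sInf_mem hex
  have h4 := hlow _ h3
  have h5 : f (idn C G) ≤ (Finset.range (c + 1)).sup f :=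
    Finset.le_sup (Finset.mem_range.2 (by omega))
  omega

end Pool.Agent.R34.Ident
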