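import Mathlib
import Pool.Agent.R34.Ident2

/-!
Classes of graphs to which the theorem applies: planar graphs, graphs without `K_t` minor.
-/

set_option autoImplicit false
set_option linter.unusedSectionVars false

namespace Pool.Agent.R34.Ident

open SimpleGraph Finset
open Pool.Agent.TH507.Host

/-- the minor relation is transitive -/
lemma minor_trans {V W R : Type} {G : SimpleGraph V} {H : SimpleGraph W} {F : SimpleGraph R}
    (h1 : IsMinor F H) (h2 : IsMinor H G) : IsMinor F G := by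
  classical
  obtain ⟨A, hA1, hA2, hA3⟩ := h1
  obtain ⟨B, hB1, hB2, hB3⟩ := h2
  let D : R → Set V := fun x => {v | ∃ y ∈ A x, v ∈ B y}
  refine ⟨D, ?_, ?_, ?_⟩
  · intro x
    have hin : ∀ y ∈ A x, ∀ v ∈ B y, v ∈ D x := fun y hy v hv => ⟨y, hy, hv⟩
    -- inside one branch set
    have hr1 : ∀ y (hy : y ∈ A x) (u v : V) (hu : u ∈ B y) (hv : v ∈ B y),
        (G.induce (D x)).Reachable ⟨u, hin y hy u hu⟩ ⟨v, hin y hy v hv⟩ := by
      intro y hy u v hu hv
      let φ : G.induce (B y) →g G.induce (D x) :=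
        { toFun := fun z => ⟨z.1, hin y hy z.1 z.2⟩
          map_rel' := fun {a b} hab => hab }
      exact ((hB1 y).preconnected ⟨u, hu⟩ ⟨v, hv⟩).map φ
    have hr2 : ∀ y y' : A x, (H.induce (A x)).Reachable y y' →
        ∀ (u v : V) (hu : u ∈ B y) (hv : v ∈ B y'),
        (G.induce (D x)).Reachable ⟨u, hin y y.2 u hu⟩ ⟨v, hin y' y'.2 v hv⟩ := by
      rintro y y' ⟨w⟩
      induction w with
      | @nil a => intro u v hu hv; exact hr1 a a.2 u v hu hv
      | @cons a b c hab w ih =>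
        intro u v hu hv
        obtain ⟨s, hs, t, ht, hst⟩ := hB3 a b hab
        have h1 := hr1 a a.2 u s hu hs
        have h2 : (G.induce (D x)).Adj ⟨s, hin a a.2 s hs⟩ ⟨t, hin b b.2 t ht⟩ := hst
        exact (h1.trans h2.reachable).trans (ih t v ht hv)
    obtain ⟨y0⟩ := (hA1 x).nonempty
    obtain ⟨v0⟩ := (hB1 y0).nonempty
    rw [connected_iff_exists_forall_reachable]
    refine ⟨⟨v0.1, hin _ y0.2 _ v0.2⟩, ?_⟩
    rintro ⟨v, y, hy, hv⟩
    exact hr2 y0 ⟨y, hy⟩ ((hA1 x).preconnected _ _) v0.1 v v0.2 hv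
  · intro x y hxy
    rw [Set.disjoint_left]
    rintro v ⟨a, ha, hva⟩ ⟨b, hb, hvb⟩
    have hab : a ≠ b := by
      rintro rfl
      exact Set.disjoint_left.1 (hA2 x y hxy) ha hb
    exact Set.disjoint_left.1 (hB2 a b hab) hva hvb
  · intro x y hxy
    obtain ⟨a, ha, b, hb, hab⟩ := hA3 x y hxy
    obtain ⟨u, hu, v, hv, huv⟩ := hB3 a b hab
    exact ⟨u, ⟨a, ha, hu⟩, v, ⟨b, hb, hv⟩, huv⟩

lemma minor_refl {V : Type} (G : SimpleGraph V) : IsMinor G G := by
  refine ⟨fun v => {v}, ?_, ?_, ?_⟩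
  · intro v
    rw [connected_iff_exists_forall_reachable]
    refine ⟨⟨v, rfl⟩, ?_⟩
    rintro ⟨w, rfl⟩
    exact Reachable.refl _
  · intro x y hxy
    exact Set.disjoint_singleton.2 hxy
  · intro x y hxy
    exact ⟨x, rfl, y, rfl, hxy⟩

/-- excluding a minor gives a minor-closed class -/
lemma minorClosed_excl {R : Type} (F : SimpleGraph R) :
    MinorClosed (fun _ G => ¬ IsMinor F G) := by
  intro V W _ _ G H hG hH hF
  exact hG (minor_trans hF hH)

lemma planar_closed : MinorClosed (fun _ G => Planar G) := by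
  intro V W _ _ G H hG hH
  exact ⟨fun h => hG.1 (minor_trans h hH), fun h => hG.2 (minor_trans h hH)⟩

/-- a graph in which every vertex is missed by some cycle of length four is not a minor of an
apex-forest -/
lemma apex_no_minor {V R : Type} [Finite V] [Nonempty R] {G : SimpleGraph V} {F : SimpleGraph R}
    (hG : ApexForest G)
    (hF : ∀ w : R, ∃ a b c d : R, a ≠ w ∧ b ≠ w ∧ c ≠ w ∧ d ≠ w ∧ a ≠ b ∧ a ≠ c ∧ a ≠ d ∧
      b ≠ c ∧ b ≠ d ∧ c ≠ d ∧ F.Adj a b ∧ F.Adj b c ∧ F.Adj c d ∧ F.Adj d a) :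
    ¬ IsMinor F G := by
  classical
  intro h
  have : Fintype V := Fintype.ofFinite V
  obtain ⟨B, hne, hc, hd, hadj⟩ := model_of h
  obtain ⟨s, hs⟩ := hG
  -- a vertex of `F` whose branch set contains `s`, if there is one
  obtain ⟨w, hw⟩ : ∃ w : R, ∀ x, x ≠ w → s ∉ B x := by
    by_cases h : ∃ w, s ∈ B w
    · obtain ⟨w, hw⟩ := h
      exact ⟨w, fun x hx hsx => Finset.disjoint_left.1 (hd x w hx) hsx hw⟩
    · push Not at h
      exact ⟨Classical.arbitrary R, fun x _ => h x⟩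
  obtain ⟨a, b, c, d, h1, h2, h3, h4, hab, hac, had, hbc, hbd, hcd, e1, e2, e3, e4⟩ := hF w
  obtain ⟨C, hC, v, cyc, hcyc, -, hsupp⟩ := cyc_of_model (hc a) (hc b) (hc c) (hc d)
    (hd a b hab) (hd a c hac) (hd a d had) (hd b c hbc) (hd b d hbd) (hd c d hcd)
    (hadj a b e1) (hadj b c e2) (hadj c d e3) (hadj d a e4)
  have h5 : s ∈ C := by
    rw [← hsupp, List.mem_toFinset]
    exact hs v cyc hcyc
  have h6 := hC h5
  simp only [mem_union] at h6
  rcases h6 with ((h6 | h6) | h6) | h6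
  · exact hw a h1 h6
  · exact hw b h2 h6
  · exact hw c h3 h6
  · exact hw d h4 h6

lemma k33_cycles (w : Fin 3 ⊕ Fin 3) : ∃ a b c d : Fin 3 ⊕ Fin 3, a ≠ w ∧ b ≠ w ∧ c ≠ w ∧ d ≠ w ∧
    a ≠ b ∧ a ≠ c ∧ a ≠ d ∧ b ≠ c ∧ b ≠ d ∧ c ≠ d ∧
    (completeBipartiteGraph (Fin 3) (Fin 3)).Adj a b ∧
    (completeBipartiteGraph (Fin 3) (Fin 3)).Adj b c ∧
    (completeBipartiteGraph (Fin 3) (Fin 3)).Adj c d ∧
    (completeBipartiteGraph (Fin 3) (Fin 3)).Adj d a := by
  have key : ∀ i : Fin 3, ∃ x y : Fin 3, x ≠ i ∧ y ≠ i ∧ x ≠ y := by decide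
  have key2 : ∃ x y : Fin 3, x ≠ y := by decide
  rcases w with i | i
  · obtain ⟨x, y, h1, h2, h3⟩ := key i
    obtain ⟨x', y', h3'⟩ := key2
    refine ⟨Sum.inl x, Sum.inr x', Sum.inl y, Sum.inr y', ?_⟩
    simp [h1, h2, h3, h3']
  · obtain ⟨x, y, h1, h2, h3⟩ := key i
    obtain ⟨x', y', h3'⟩ := key2
    refine ⟨Sum.inl x', Sum.inr x, Sum.inl y', Sum.inr y, ?_⟩
    simp [h1, h2, h3, h3']

lemma three_others : ∀ w : Fin 4, ∃ a b c : Fin 4, a ≠ w ∧ b ≠ w ∧ c ≠ w ∧ a ≠ b ∧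
    a ≠ c ∧ b ≠ c := by
  decide

/-- an apex-forest has no `K_4` minor -/
lemma apex_no_k4 {V : Type} [Finite V] {G : SimpleGraph V} (hG : ApexForest G) :
    ¬ IsMinor (⊤ : SimpleGraph (Fin 4)) G := by
  classical
  intro h
  have : Fintype V := Fintype.ofFinite V
  obtain ⟨B, hne, hc, hd, hadj⟩ := model_of h
  obtain ⟨s, hs⟩ := hG
  obtain ⟨w, hw⟩ : ∃ w : Fin 4, ∀ x, x ≠ w → s ∉ B x := by
    by_cases h : ∃ w, s ∈ B w
    · obtain ⟨w, hw⟩ := h
      exact ⟨w, fun x hx hsx => Finset.disjoint_left.1 (hd x w hx) hsx hw⟩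
    · push Not at h
      exact ⟨0, fun x _ => h x⟩
  obtain ⟨a, b, c, h1, h2, h3, hab, hac, hbc⟩ := three_others w
  obtain ⟨x1, hx1, y1, hy1, e1⟩ := hadj a b (by simpa using hab)
  obtain ⟨x2, hx2, y2, hy2, e2⟩ := hadj b c (by simpa using hbc)
  obtain ⟨x3, hx3, y3, hy3, e3⟩ := hadj c a (by simpa using hac.symm)
  obtain ⟨p, hp, hps⟩ := exists_path (hc a) hy3 hx1
  obtain ⟨p', hp', hps'⟩ := exists_path (hc b) hy1 hx2
  have hpath := isPath_join hp hp' e1
    (fun x hx hx' => Finset.disjoint_left.1 (hd a b hab) (hps x hx) (hps' x hx'))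
  have hsup : ∀ z ∈ (p.append (Walk.cons e1 p')).support, z ∈ B a ∨ z ∈ B b := by
    intro z hz
    rw [Walk.mem_support_append_iff, Walk.support_cons, List.mem_cons] at hz
    rcases hz with hz | rfl | hz
    · exact Or.inl (hps z hz)
    · exact Or.inl hx1
    · exact Or.inr (hps' z hz)
  obtain ⟨cyc, hcyc, -, hcs, -⟩ := closing (hc c) _ hpath
    (by rw [Walk.length_append, Walk.length_cons]; omega) (by
      intro z hz hz'
      rcases hsup z hz with h | h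
      · exact Finset.disjoint_left.1 (hd a c hac) h hz'
      · exact Finset.disjoint_left.1 (hd b c hbc) h hz') ⟨x3, hx3, e3⟩ ⟨y2, hy2, e2⟩
  rcases hcs s (hs _ cyc hcyc) with h | h
  · rcases hsup s h with h | h
    · exact hw a h1 h
    · exact hw b h2 h
  · exact hw c h3 h

lemma kt_minor {t : ℕ} (ht : 4 ≤ t) :
    IsMinor (⊤ : SimpleGraph (Fin 4)) (⊤ : SimpleGraph (Fin t)) := by
  refine ⟨fun x => {Fin.castLE ht x}, ?_, ?_, ?_⟩
  · intro x
    rw [connected_iff_exists_forall_reachable]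
    refine ⟨⟨_, rfl⟩, ?_⟩
    rintro ⟨w, rfl⟩
    exact Reachable.refl _
  · intro x y hxy
    exact Set.disjoint_singleton.2 (fun h => hxy (Fin.castLE_injective ht h))
  · intro x y hxy
    refine ⟨_, rfl, _, rfl, ?_⟩
    rw [top_adj]
    exact fun h => hxy.ne (Fin.castLE_injective ht h)

lemma apex_no_kt {V : Type} [Finite V] {G : SimpleGraph V} (hG : ApexForest G) {t : ℕ}
    (ht : 4 ≤ t) : ¬ IsMinor (⊤ : SimpleGraph (Fin t)) G :=
  fun h => apex_no_k4 hG (minor_trans (kt_minor ht) h)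

lemma apex_planar {V : Type} [Finite V] {G : SimpleGraph V} (hG : ApexForest G) : Planar G :=
  ⟨apex_no_kt hG (by norm_num), apex_no_minor hG k33_cycles⟩

end Pool.Agent.R34.Ident
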