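import Mathlib

/-!
Definitions: holes, thetas, prisms, induced minors.
-/

set_option autoImplicit false

namespace Pool.Agent.R34.K34

open SimpleGraph

/-- the set `S` of vertices induces a hole of `G`: the subgraph induced on `S` is a cycle of length
at least four -/
def InducesHole {V : Type} (G : SimpleGraph V) (S : Set V) : Prop :=
  ∃ n : ℕ, 4 ≤ n ∧ Nonempty (G.induce S ≃g cycleGraph n)

/-- `H` is a theta: it is made of two non-adjacent vertices `a`, `b` and three internally disjoint
paths from `a` to `b`, each of length at least two, such that the vertices of any two of the three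
paths induce a hole -/
def IsTheta {W : Type} (H : SimpleGraph W) : Prop :=
  ∃ (a b : W) (P : Fin 3 → H.Walk a b), a ≠ b ∧ ¬ H.Adj a b ∧
    (∀ i, (P i).IsPath ∧ 2 ≤ (P i).length) ∧
    (∀ i j, i ≠ j → ∀ x, x ∈ (P i).support → x ∈ (P j).support → x = a ∨ x = b) ∧
    (∀ i j, i ≠ j → InducesHole H {x | x ∈ (P i).support ∨ x ∈ (P j).support}) ∧
    ∀ x, ∃ i, x ∈ (P i).support

/-- `H` is a prism: it is made of two disjoint triangles `a 0, a 1, a 2` and `b 0, b 1, b 2` and
three disjoint paths, the path number `i` from `a i` to `b i`, such that the vertices of any two of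
the three paths induce a hole -/
def IsPrism {W : Type} (H : SimpleGraph W) : Prop :=
  ∃ (a b : Fin 3 → W) (P : ∀ i, H.Walk (a i) (b i)),
    (∀ i j, i ≠ j → H.Adj (a i) (a j)) ∧ (∀ i j, i ≠ j → H.Adj (b i) (b j)) ∧
    (∀ i j, a i ≠ b j) ∧ (∀ i, (P i).IsPath) ∧
    (∀ i j, i ≠ j → ∀ x, x ∈ (P i).support → x ∉ (P j).support) ∧
    (∀ i j, i ≠ j → InducesHole H {x | x ∈ (P i).support ∨ x ∈ (P j).support}) ∧
    ∀ x, ∃ i, x ∈ (P i).support

/-- `G` is (theta, prism)-free: no induced subgraph of `G` is a theta or a prism -/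
def ThetaPrismFree {V : Type} (G : SimpleGraph V) : Prop :=
  ∀ S : Set V, ¬ IsTheta (G.induce S) ∧ ¬ IsPrism (G.induce S)

/-- `H` is an induced minor of `G`: there are pairwise disjoint sets of vertices of `G`, one for
each vertex of `H`, each inducing a connected subgraph, such that two different vertices of `H` are
adjacent if and only if some edge of `G` joins the two corresponding sets -/
def IsInducedMinor {W V : Type} (H : SimpleGraph W) (G : SimpleGraph V) : Prop :=
  ∃ B : W → Set V, (∀ x, (G.induce (B x)).Connected) ∧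
    (∀ x y, x ≠ y → Disjoint (B x) (B y)) ∧
    ∀ x y, x ≠ y → (H.Adj x y ↔ ∃ u ∈ B x, ∃ v ∈ B y, G.Adj u v)

end Pool.Agent.R34.K34
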