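import Mathlib
import Pool.Agent.R34.K34Defs

/-!
A graph on 15 vertices and the check that it has neither thetas nor prisms.
-/

set_option autoImplicit false
set_option linter.unusedSectionVars false

namespace Pool.Agent.R34.K34

open SimpleGraph

/-- the neighbourhoods as bit masks -/
def msk (u : ℕ) : ℕ :=
  [31104, 908, 4866, 1154, 2656, 3216, 16912, 43, 519, 342, 2088, 1073, 8197, 20481, 8257].getD u 0

/-- the neighbourhoods as lists -/
def nbl (u : ℕ) : List ℕ :=
  [[7, 8, 11, 12, 13, 14], [2, 3, 7, 8, 9], [1, 8, 9, 12], [1, 7, 10], [5, 6, 9, 11],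
    [4, 7, 10, 11], [4, 9, 14], [0, 1, 3, 5], [0, 1, 2, 9], [1, 2, 4, 6, 8], [3, 5, 11],
    [0, 4, 5, 10], [0, 2, 13], [0, 12, 14], [0, 6, 13]].getD u []

/-- extending induced paths from `cur` to `t` -/
def ext (t base : ℕ) (k : ℕ → Bool) : ℕ → ℕ → ℕ → Bool
  | 0, _, _ => false
  | f + 1, cur, acc =>
    bif (msk cur).testBit t then k (acc ||| msk cur)
    else (nbl cur).all (fun v => (base ||| acc).testBit v || ext t base k f v (acc ||| msk cur))

/-- no three compatible legs -/
def legs (x1 x2 x3 t1 t2 t3 b1 b2 b3 : ℕ) : Bool :=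
  ext t1 b1 (fun c1 => ext t2 b2 (fun c2 => ext t3 b3 (fun _ => false) 15 x3 c2) 15 x2 c1) 15 x1 0

/-- no theta with ends `a`, `b` -/
def thetaAt (a b : ℕ) : Bool :=
  (msk a).testBit b || (a == b) ||
  (nbl a).all (fun x1 => (nbl a).all (fun x2 => (x1 == x2) || (msk x1).testBit x2 ||
    (nbl a).all (fun x3 => (x1 == x3) || (x2 == x3) || (msk x1).testBit x3 || (msk x2).testBit x3 ||
      legs x1 x2 x3 b b b (msk a ||| msk x2 ||| msk x3) (msk a ||| msk x1 ||| msk x3)
        (msk a ||| msk x1 ||| msk x2))))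

def thetaCheck : Bool :=
  (List.range 15).all (fun a => (List.range 15).all (fun b => thetaAt a b))

/-- no prism whose first triangle is `a1 a2 a3` -/
def prismAt (a1 a2 a3 : ℕ) : Bool :=
  (List.range 15).all (fun b1 => (msk a2).testBit b1 || (msk a3).testBit b1 ||
    (nbl b1).all (fun b2 => (msk a1).testBit b2 || (msk a3).testBit b2 ||
      (nbl b1).all (fun b3 => !(msk b2).testBit b3 || (msk a1).testBit b3 || (msk a2).testBit b3 ||
        legs a1 a2 a3 b1 b2 b3 (msk a2 ||| msk a3 ||| msk b2 ||| msk b3)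
          (msk a1 ||| msk a3 ||| msk b1 ||| msk b3) (msk a1 ||| msk a2 ||| msk b1 ||| msk b2))))

def prismCheck : Bool :=
  (List.range 15).all (fun a1 => (nbl a1).all (fun a2 => (nbl a1).all (fun a3 =>
    !(msk a2).testBit a3 || prismAt a1 a2 a3)))

theorem thetaCheck_eq : thetaCheck = true := by decide +kernel

theorem prismCheck_eq : prismCheck = true := by decide +kernel

end Pool.Agent.R34.K34
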