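import Mathlib
import Pool.Agent.R34.K34Check

/-!
A (theta, prism)-free graph on 15 vertices with `K_{3,4}` as an induced minor.
-/

set_option autoImplicit false
set_option linter.unusedSectionVars false

namespace Pool.Agent.R34.K34

open SimpleGraph

lemma mem_nbl : ∀ u < 15, ∀ v < 15, (msk u).testBit v = true → v ∈ nbl u := by decide

lemma msk_symm : ∀ u < 15, ∀ v < 15, (msk u).testBit v = true → (msk v).testBit u = true := by
  decide

/-- a good path, starting at `y 0` and ending at `y m`, whose last vertex is adjacent to `t` -/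
structure Good (t base m : ℕ) (y : ℕ → ℕ) : Prop where
  lt : ∀ j, j ≤ m → y j < 15
  hm : m < 15
  step : ∀ j, j < m → (msk (y j)).testBit (y (j + 1)) = true
  last : (msk (y m)).testBit t = true
  nlast : ∀ j, j < m → (msk (y j)).testBit t = false
  chord : ∀ i j, i + 1 < j → j ≤ m → (msk (y i)).testBit (y j) = false
  hbase : ∀ j, 1 ≤ j → j ≤ m → base.testBit (y j) = false

lemma ext_sound {t base m : ℕ} {y : ℕ → ℕ} (h : Good t base m y) (k : ℕ → Bool) :
    ∀ d i acc f, i + d = m → (∀ j, i < j → j ≤ m → acc.testBit (y j) = false) → d < f →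
      ext t base k f (y i) acc = true →
      ∃ c, k c = true ∧ ∀ z, c.testBit z = true → acc.testBit z = true ∨
        ∃ j, i ≤ j ∧ j ≤ m ∧ (msk (y j)).testBit z = true := by
  intro d
  induction d with
  | zero =>
    intro i acc f hi hacc hf hext
    obtain ⟨f, rfl⟩ : ∃ g, f = g + 1 := ⟨f - 1, by omega⟩
    have him : i = m := by omega
    subst him
    rw [ext, h.last] at hext
    refine ⟨_, hext, fun z hz => ?_⟩
    rw [Nat.testBit_or, Bool.or_eq_true] at hz
    rcases hz with hz | hz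
    · exact Or.inl hz
    · exact Or.inr ⟨i, le_rfl, le_rfl, hz⟩
  | succ d ih =>
    intro i acc f hi hacc hf hext
    obtain ⟨f, rfl⟩ : ∃ g, f = g + 1 := ⟨f - 1, by omega⟩
    rw [ext, h.nlast i (by omega), cond_false, List.all_eq_true] at hext
    have h1 := hext (y (i + 1)) (mem_nbl _ (h.lt i (by omega)) _ (h.lt (i + 1) (by omega))
      (h.step i (by omega)))
    rw [Nat.testBit_or, h.hbase (i + 1) (by omega) (by omega),
      hacc (i + 1) (by omega) (by omega)] at h1
    have h2 : ext t base k f (y (i + 1)) (acc ||| msk (y i)) = true := by simpa using h1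
    obtain ⟨c, hc, hcz⟩ := ih (i + 1) (acc ||| msk (y i)) f (by omega) (by
      intro j hj hjm
      rw [Nat.testBit_or, hacc j (by omega) hjm, h.chord i j (by omega) hjm]
      rfl) (by omega) h2
    refine ⟨c, hc, fun z hz => ?_⟩
    rcases hcz z hz with h3 | ⟨j, hj, hjm, h3⟩
    · rw [Nat.testBit_or, Bool.or_eq_true] at h3
      rcases h3 with h3 | h3
      · exact Or.inl h3
      · exact Or.inr ⟨i, le_rfl, by omega, h3⟩
    · exact Or.inr ⟨j, by omega, hjm, h3⟩

/-- three good paths which avoid the neighbourhoods of each other contradict the check -/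
lemma legs_sound {t1 t2 t3 b1 b2 b3 m1 m2 m3 : ℕ} {y1 y2 y3 : ℕ → ℕ} (h1 : Good t1 b1 m1 y1)
    (h2 : Good t2 b2 m2 y2) (h3 : Good t3 b3 m3 y3)
    (h12 : ∀ i j, i ≤ m1 → 1 ≤ j → j ≤ m2 → (msk (y1 i)).testBit (y2 j) = false)
    (h13 : ∀ i j, i ≤ m1 → 1 ≤ j → j ≤ m3 → (msk (y1 i)).testBit (y3 j) = false)
    (h23 : ∀ i j, i ≤ m2 → 1 ≤ j → j ≤ m3 → (msk (y2 i)).testBit (y3 j) = false) :
    legs (y1 0) (y2 0) (y3 0) t1 t2 t3 b1 b2 b3 = false := by
  by_contra hne
  rw [Bool.not_eq_false] at hne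
  unfold legs at hne
  obtain ⟨c1, hc1, hz1⟩ := ext_sound h1 _ m1 0 0 15 (by omega) (by simp) h1.hm hne
  obtain ⟨c2, hc2, hz2⟩ := ext_sound h2 _ m2 0 c1 15 (by omega) (by
    intro j hj hjm
    by_contra hcon
    rw [Bool.not_eq_false] at hcon
    rcases hz1 _ hcon with h | ⟨i, -, hi, h⟩
    · simp at h
    · rw [h12 i j hi (by omega) hjm] at h
      exact absurd h (by simp)) h2.hm hc1
  obtain ⟨c3, hc3, -⟩ := ext_sound h3 _ m3 0 c2 15 (by omega) (by
    intro j hj hjm
    by_contra hcon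
    rw [Bool.not_eq_false] at hcon
    rcases hz2 _ hcon with h | ⟨i, -, hi, h⟩
    · rcases hz1 _ h with h | ⟨i, -, hi, h⟩
      · simp at h
      · rw [h13 i j hi (by omega) hjm] at h
        exact absurd h (by simp)
    · rw [h23 i j hi (by omega) hjm] at h
      exact absurd h (by simp)) h3.hm hc2
  exact absurd hc3 (by simp)

/-- the graph -/
def G15 : SimpleGraph (Fin 15) where
  Adj u v := (msk u).testBit v = true
  symm := ⟨fun u v h => msk_symm u.1 u.2 v.1 v.2 h⟩
  loopless := ⟨by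
    intro u h
    revert u
    decide⟩

/-- in a hole every vertex has at most two neighbours -/
lemma hole_two {W : Type} {H : SimpleGraph W} {T : Set W} (hT : InducesHole H T) {v x y z : W}
    (hv : v ∈ T) (hx : x ∈ T) (hy : y ∈ T) (hz : z ∈ T) (ax : H.Adj v x) (ay : H.Adj v y)
    (az : H.Adj v z) (hxy : x ≠ y) : z = x ∨ z = y := by
  classical
  obtain ⟨n, hn, ⟨e⟩⟩ := hT
  obtain ⟨n, rfl⟩ : ∃ m, n = m + 3 := ⟨n - 3, by omega⟩
  have h1 : (cycleGraph (n + 3)).Adj (e ⟨v, hv⟩) (e ⟨x, hx⟩) := e.map_adj_iff.2 ax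
  have h2 : (cycleGraph (n + 3)).Adj (e ⟨v, hv⟩) (e ⟨y, hy⟩) := e.map_adj_iff.2 ay
  have h3 : (cycleGraph (n + 3)).Adj (e ⟨v, hv⟩) (e ⟨z, hz⟩) := e.map_adj_iff.2 az
  have hd : ((cycleGraph (n + 3)).neighborFinset (e ⟨v, hv⟩)).card = 2 := by
    rw [card_neighborFinset_eq_degree, cycleGraph_degree_three_le]
  by_contra hcon
  push Not at hcon
  have h4 : ({e ⟨x, hx⟩, e ⟨y, hy⟩, e ⟨z, hz⟩} : Finset (Fin (n + 3))) ⊆
      (cycleGraph (n + 3)).neighborFinset (e ⟨v, hv⟩) := by
    intro w hw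
    rw [mem_neighborFinset]
    simp only [Finset.mem_insert, Finset.mem_singleton] at hw
    rcases hw with rfl | rfl | rfl
    · exact h1
    · exact h2
    · exact h3
  have h5 : ({e ⟨x, hx⟩, e ⟨y, hy⟩, e ⟨z, hz⟩} : Finset (Fin (n + 3))).card = 3 := by
    apply Finset.card_eq_three.2
    refine ⟨_, _, _, ?_, ?_, ?_, rfl⟩
    · intro h
      exact hxy (Subtype.mk.inj (e.injective h))
    · intro h
      exact hcon.1 (Subtype.mk.inj (e.injective h)).symm
    · intro h
      exact hcon.2 (Subtype.mk.inj (e.injective h)).symm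
  have h6 := Finset.card_le_card h4
  omega

end Pool.Agent.R34.K34
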