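import Mathlib
import Pool.Agent.R34.K34

/-!
The graph `G15` is (theta, prism)-free.
-/

set_option autoImplicit false
set_option linter.unusedSectionVars false

namespace Pool.Agent.R34.K34

open SimpleGraph

section General

variable {W : Type} {H : SimpleGraph W}

lemma getVert_inj {u v : W} {p : H.Walk u v} (hp : p.IsPath) {i j : ℕ} (hi : i ≤ p.length)
    (hj : j ≤ p.length) (h : p.getVert i = p.getVert j) : i = j :=
  hp.getVert_injOn (by simpa using hi) (by simpa using hj) h

/-- the neighbours of an interior vertex of one of the three paths are its two neighbours on the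
path -/
lemma key_interior {a b : Fin 3 → W} (P : ∀ i, H.Walk (a i) (b i)) (hp : ∀ i, (P i).IsPath)
    (hh : ∀ i j, i ≠ j → InducesHole H {x | x ∈ (P i).support ∨ x ∈ (P j).support})
    (hc : ∀ x, ∃ i, x ∈ (P i).support) (i : Fin 3) (k : ℕ) (hk : 0 < k) (hkl : k < (P i).length)
    (z : W) (hz : H.Adj ((P i).getVert k) z) :
    z = (P i).getVert (k - 1) ∨ z = (P i).getVert (k + 1) := by
  obtain ⟨j, hj⟩ := hc z
  obtain ⟨j', hij', hj'⟩ : ∃ j', i ≠ j' ∧ (z ∈ (P i).support ∨ z ∈ (P j').support) := by
    by_cases h : i = j
    · subst h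
      obtain ⟨j', hj'⟩ := exists_ne i
      exact ⟨j', hj'.symm, Or.inl hj⟩
    · exact ⟨j, h, Or.inr hj⟩
  have h1 : H.Adj ((P i).getVert k) ((P i).getVert (k - 1)) := by
    have := (P i).adj_getVert_succ (i := k - 1) (by omega)
    rw [show k - 1 + 1 = k by omega] at this
    exact this.symm
  have h2 : H.Adj ((P i).getVert k) ((P i).getVert (k + 1)) := (P i).adj_getVert_succ hkl
  have hm : ∀ l, (P i).getVert l ∈ {x | x ∈ (P i).support ∨ x ∈ (P j').support} :=
    fun l => Or.inl ((P i).getVert_mem_support l)
  exact hole_two (hh i j' hij') (hm k) (hm _) (hm _) hj' h1 h2 hz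
    (fun h => by have := getVert_inj (hp i) (by omega) (by omega) h; omega)

end General

lemma len_lt {S : Set (Fin 15)} {u v : S} (p : (G15.induce S).Walk u v) (hp : p.IsPath) :
    p.length < 15 := by
  classical
  have h1 : Fintype S := Fintype.ofFinite S
  have h2 := hp.length_lt
  have h3 : Fintype.card S ≤ 15 := by
    have := Fintype.card_le_of_injective (fun x : S => x.1) Subtype.val_injective
    simpa using this
  omega

/-- adjacency in the mask -/
lemma adj_iff {S : Set (Fin 15)} (u v : S) :
    (G15.induce S).Adj u v ↔ (msk u.1.1).testBit v.1.1 = true := Iff.rfl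

lemma nadj {S : Set (Fin 15)} {u v : S} (h : ¬ (G15.induce S).Adj u v) :
    (msk u.1.1).testBit v.1.1 = false := by
  rw [adj_iff] at h
  simpa using h

lemma thetaAt_spec {a b x1 x2 x3 : ℕ} (h : thetaAt a b = true)
    (hab : (msk a).testBit b = false) (hne : a ≠ b) (h1 : x1 ∈ nbl a) (h2 : x2 ∈ nbl a)
    (h3 : x3 ∈ nbl a) (h12 : x1 ≠ x2) (h13 : x1 ≠ x3) (h23 : x2 ≠ x3)
    (n12 : (msk x1).testBit x2 = false) (n13 : (msk x1).testBit x3 = false)
    (n23 : (msk x2).testBit x3 = false) :
    legs x1 x2 x3 b b b (msk a ||| msk x2 ||| msk x3) (msk a ||| msk x1 ||| msk x3)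
        (msk a ||| msk x1 ||| msk x2) = true := by
  unfold thetaAt at h
  have hne' : (a == b) = false := by simpa using hne
  rw [hab, hne', Bool.false_or, Bool.false_or, List.all_eq_true] at h
  have h4 := h x1 h1
  rw [List.all_eq_true] at h4
  have h5 := h4 x2 h2
  have h12' : (x1 == x2) = false := by simpa using h12
  have h13' : (x1 == x3) = false := by simpa using h13
  have h23' : (x2 == x3) = false := by simpa using h23
  rw [h12', n12, Bool.false_or, Bool.false_or, List.all_eq_true] at h5
  have h6 := h5 x3 h3
  rw [h13', h23', n13, n23] at h6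
  simpa using h6

lemma thetaAt_true {a b : ℕ} (ha : a < 15) (hb : b < 15) : thetaAt a b = true := by
  have h := thetaCheck_eq
  unfold thetaCheck at h
  rw [List.all_eq_true] at h
  have h1 := h a (List.mem_range.2 ha)
  rw [List.all_eq_true] at h1
  exact h1 b (List.mem_range.2 hb)

/-- `G15` contains no theta -/
theorem no_theta (S : Set (Fin 15)) : ¬ IsTheta (G15.induce S) := by
  rintro ⟨a, b, P, hab, hnab, hP, hdis, hh, hc⟩
  have key := key_interior (a := fun _ => a) (b := fun _ => b) P (fun i => (hP i).1) hh hc
  have hlen : ∀ i, 2 ≤ (P i).length := fun i => (hP i).2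
  have inj : ∀ i k l, k ≤ (P i).length → l ≤ (P i).length →
      (P i).getVert k = (P i).getVert l → k = l := fun i k l => getVert_inj (hP i).1
  have h0 : ∀ i, (P i).getVert 0 = a := fun i => (P i).getVert_zero
  have hl : ∀ i, (P i).getVert (P i).length = b := fun i => (P i).getVert_length
  have hnotin : ∀ i j, i ≠ j → ∀ k, 0 < k → k < (P i).length →
      (P i).getVert k ∉ (P j).support := by
    intro i j hij k hk hkl hmem
    rcases hdis i j hij _ ((P i).getVert_mem_support k) hmem with h | h
    · have := inj i k 0 (by omega) (by omega) (h.trans (h0 i).symm)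
      omega
    · have := inj i k _ (by omega) le_rfl (h.trans (hl i).symm)
      omega
  -- interiors of different paths are anticomplete
  have hanti : ∀ i j, i ≠ j → ∀ k l, 0 < k → k < (P i).length → 0 < l → l < (P j).length →
      ¬ (G15.induce S).Adj ((P i).getVert k) ((P j).getVert l) := by
    intro i j hij k l hk hkl hl0 hll hadj
    rcases key i k hk hkl _ hadj with h | h
    · exact hnotin j i hij.symm l hl0 hll (h ▸ (P i).getVert_mem_support _)
    · exact hnotin j i hij.symm l hl0 hll (h ▸ (P i).getVert_mem_support _)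
  have hgood : ∀ i j k : Fin 3, i ≠ j → i ≠ k → ∀ base : ℕ,
      base = msk a.1.1 ||| msk ((P j).getVert 1).1.1 ||| msk ((P k).getVert 1).1.1 →
      Good b.1.1 base ((P i).length - 2) (fun n => ((P i).getVert (n + 1)).1.1) := by
    intro i j k hij hik base hbase
    have hli := hlen i
    refine ⟨fun n _ => ((P i).getVert (n + 1)).1.2, ?_, ?_, ?_, ?_, ?_, ?_⟩
    · have := len_lt (P i) (hP i).1
      omega
    · intro n hn
      exact (P i).adj_getVert_succ (i := n + 1) (by omega)
    · have h1 := (P i).adj_getVert_succ (i := (P i).length - 2 + 1) (by omega)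
      rw [show (P i).length - 2 + 1 + 1 = (P i).length by omega, hl i] at h1
      exact h1
    · intro n hn
      apply nadj
      intro hadj
      rcases key i (n + 1) (by omega) (by omega) _ hadj with h | h
      · have := inj i _ _ le_rfl (by omega) ((hl i).trans h)
        omega
      · have := inj i _ _ le_rfl (by omega) ((hl i).trans h)
        omega
    · intro m n hmn hn
      apply nadj
      intro hadj
      rcases key i (m + 1) (by omega) (by omega) _ hadj with h | h
      · have := inj i _ _ (by omega) (by omega) h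
        omega
      · have := inj i _ _ (by omega) (by omega) h
        omega
    · intro n hn hnm
      rw [hbase, Nat.testBit_or, Nat.testBit_or]
      have e1 : (msk a.1.1).testBit ((P i).getVert (n + 1)).1.1 = false := by
        apply nadj
        intro hadj
        rcases key i (n + 1) (by omega) (by omega) _ hadj.symm with h | h
        · have := inj i _ _ (by omega) (by omega) ((h0 i).trans h)
          omega
        · have := inj i _ _ (by omega) (by omega) ((h0 i).trans h)
          omega
      have hlj := hlen j
      have hlk := hlen k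
      have e2 : (msk ((P j).getVert 1).1.1).testBit ((P i).getVert (n + 1)).1.1 = false :=
        nadj (hanti j i hij.symm 1 (n + 1) (by omega) (by omega) (by omega) (by omega))
      have e3 : (msk ((P k).getVert 1).1.1).testBit ((P i).getVert (n + 1)).1.1 = false :=
        nadj (hanti k i hik.symm 1 (n + 1) (by omega) (by omega) (by omega) (by omega))
      rw [e1, e2, e3]
      rfl
  have hcross : ∀ i j : Fin 3, i ≠ j → ∀ m n, m ≤ (P i).length - 2 → 1 ≤ n →
      n ≤ (P j).length - 2 →
      (msk ((P i).getVert (m + 1)).1.1).testBit ((P j).getVert (n + 1)).1.1 = false := by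
    intro i j hij m n hm hn hnl
    have hli := hlen i
    have hlj := hlen j
    exact nadj (hanti i j hij _ _ (by omega) (by omega) (by omega) (by omega))
  have hfalse := legs_sound (hgood 0 1 2 (by decide) (by decide) _ rfl)
    (hgood 1 0 2 (by decide) (by decide) _ rfl) (hgood 2 0 1 (by decide) (by decide) _ rfl)
    (hcross 0 1 (by decide)) (hcross 0 2 (by decide)) (hcross 1 2 (by decide))
  have hx : ∀ i, ((P i).getVert 1).1.1 ∈ nbl a.1.1 := by
    intro i
    apply mem_nbl _ a.1.2 _ ((P i).getVert 1).1.2
    have h1 := (P i).adj_getVert_succ (i := 0) (by have := hlen i; omega)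
    rw [h0 i] at h1
    exact h1
  have hxne : ∀ i j, i ≠ j → ((P i).getVert 1).1.1 ≠ ((P j).getVert 1).1.1 := by
    intro i j hij h
    have h1 : (P i).getVert 1 = (P j).getVert 1 := Subtype.ext (Fin.ext h)
    have := hlen i
    exact hnotin i j hij 1 (by omega) (by omega) (h1 ▸ (P j).getVert_mem_support 1)
  have hxn : ∀ i j, i ≠ j → (msk ((P i).getVert 1).1.1).testBit ((P j).getVert 1).1.1 = false := by
    intro i j hij
    have hli := hlen i
    have hlj := hlen j
    exact nadj (hanti i j hij 1 1 (by omega) (by omega) (by omega) (by omega))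
  have htrue := thetaAt_spec (thetaAt_true a.1.2 b.1.2) (nadj hnab)
    (fun h => hab (Subtype.ext (Fin.ext h))) (hx 0) (hx 1) (hx 2) (hxne 0 1 (by decide))
    (hxne 0 2 (by decide)) (hxne 1 2 (by decide)) (hxn 0 1 (by decide)) (hxn 0 2 (by decide))
    (hxn 1 2 (by decide))
  rw [hfalse] at htrue
  exact absurd htrue (by simp)

lemma prismAt_spec {a1 a2 a3 b1 b2 b3 : ℕ} (h : prismAt a1 a2 a3 = true) (hb1 : b1 < 15)
    (hb2 : b2 ∈ nbl b1) (hb3 : b3 ∈ nbl b1) (h23 : (msk b2).testBit b3 = true)
    (n21 : (msk a2).testBit b1 = false) (n31 : (msk a3).testBit b1 = false)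
    (n12 : (msk a1).testBit b2 = false) (n32 : (msk a3).testBit b2 = false)
    (n13 : (msk a1).testBit b3 = false) (n23 : (msk a2).testBit b3 = false) :
    legs a1 a2 a3 b1 b2 b3 (msk a2 ||| msk a3 ||| msk b2 ||| msk b3)
          (msk a1 ||| msk a3 ||| msk b1 ||| msk b3) (msk a1 ||| msk a2 ||| msk b1 ||| msk b2) =
      true := by
  unfold prismAt at h
  rw [List.all_eq_true] at h
  have h1 := h b1 (List.mem_range.2 hb1)
  rw [n21, n31, Bool.false_or, Bool.false_or, List.all_eq_true] at h1
  have h2 := h1 b2 hb2
  rw [n12, n32, Bool.false_or, Bool.false_or, List.all_eq_true] at h2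
  have h3 := h2 b3 hb3
  rw [h23, n13, n23] at h3
  simpa using h3

lemma prismAt_true {a1 a2 a3 : ℕ} (ha : a1 < 15) (h2 : a2 ∈ nbl a1) (h3 : a3 ∈ nbl a1)
    (h23 : (msk a2).testBit a3 = true) : prismAt a1 a2 a3 = true := by
  have h := prismCheck_eq
  unfold prismCheck at h
  rw [List.all_eq_true] at h
  have h1 := h a1 (List.mem_range.2 ha)
  rw [List.all_eq_true] at h1
  have h4 := h1 a2 h2
  rw [List.all_eq_true] at h4
  have h5 := h4 a3 h3
  rw [h23] at h5
  simpa using h5

/-- `G15` contains no prism -/
theorem no_prism (S : Set (Fin 15)) : ¬ IsPrism (G15.induce S) := by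
  rintro ⟨a, b, P, haa, hbb, hab, hP, hdis, hh, hc⟩
  have key := key_interior P hP hh hc
  have inj : ∀ i k l, k ≤ (P i).length → l ≤ (P i).length →
      (P i).getVert k = (P i).getVert l → k = l := fun i k l => getVert_inj (hP i)
  have h0 : ∀ i, (P i).getVert 0 = a i := fun i => (P i).getVert_zero
  have hl : ∀ i, (P i).getVert (P i).length = b i := fun i => (P i).getVert_length
  have hlen : ∀ i, 1 ≤ (P i).length := by
    intro i
    by_contra hcon
    have h1 : (P i).length = 0 := by omega
    exact hab i i (Walk.eq_of_length_eq_zero h1)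
  have hne : ∀ i j, i ≠ j → ∀ k l, (P i).getVert k ≠ (P j).getVert l := by
    intro i j hij k l h
    exact hdis i j hij _ ((P i).getVert_mem_support k) (h ▸ (P j).getVert_mem_support l)
  -- interior vertices are adjacent to nothing on the other paths
  have hanti : ∀ i j, i ≠ j → ∀ k l, 0 < k → k < (P i).length →
      ¬ (G15.induce S).Adj ((P i).getVert k) ((P j).getVert l) := by
    intro i j hij k l hk hkl hadj
    rcases key i k hk hkl _ hadj with h | h
    · exact hne j i hij.symm _ _ h
    · exact hne j i hij.symm _ _ h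
  -- neighbours of the ends
  have hasup : ∀ i, a i ∈ (P i).support := fun i => (P i).start_mem_support
  have hbsup : ∀ i, b i ∈ (P i).support := fun i => (P i).end_mem_support
  have hkeya : ∀ i j, i ≠ j → ∀ z, (z ∈ (P i).support ∨ z ∈ (P j).support) →
      (G15.induce S).Adj (a i) z → z = a j ∨ z = (P i).getVert 1 := by
    intro i j hij z hz hadj
    have h1 : (G15.induce S).Adj (a i) ((P i).getVert 1) := by
      have := (P i).adj_getVert_succ (i := 0) (by have := hlen i; omega)
      rwa [h0 i] at this
    exact hole_two (hh i j hij) (Or.inl (hasup i)) (Or.inr (hasup j))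
      (Or.inl ((P i).getVert_mem_support 1)) hz (haa i j hij) h1 hadj
      (fun h => hne j i hij.symm 0 1 (by rw [h0 j]; exact h))
  have hkeyb : ∀ i j, i ≠ j → ∀ z, (z ∈ (P i).support ∨ z ∈ (P j).support) →
      (G15.induce S).Adj (b i) z → z = b j ∨ z = (P i).getVert ((P i).length - 1) := by
    intro i j hij z hz hadj
    have h1 : (G15.induce S).Adj (b i) ((P i).getVert ((P i).length - 1)) := by
      have hli := hlen i
      have := (P i).adj_getVert_succ (i := (P i).length - 1) (by omega)
      rw [show (P i).length - 1 + 1 = (P i).length by omega, hl i] at this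
      exact this.symm
    exact hole_two (hh i j hij) (Or.inl (hbsup i)) (Or.inr (hbsup j))
      (Or.inl ((P i).getVert_mem_support _)) hz (hbb i j hij) h1 hadj
      (fun h => hne j i hij.symm (P j).length ((P i).length - 1) (by rw [hl j]; exact h))
  have hnab : ∀ i j, i ≠ j → ¬ (G15.induce S).Adj (a i) (b j) := by
    intro i j hij hadj
    rcases hkeya i j hij _ (Or.inr (hbsup j)) hadj with h | h
    · exact hab j j h.symm
    · exact hne j i hij.symm (P j).length 1 (by rw [hl j]; exact h)
  have hother : ∀ i : Fin 3, ∃ j, i ≠ j := fun i => by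
    obtain ⟨j, hj⟩ := exists_ne i
    exact ⟨j, hj.symm⟩
  have hgood : ∀ i j k : Fin 3, i ≠ j → i ≠ k → ∀ base : ℕ,
      base = msk (a j).1.1 ||| msk (a k).1.1 ||| msk (b j).1.1 ||| msk (b k).1.1 →
      Good (b i).1.1 base ((P i).length - 1) (fun n => ((P i).getVert n).1.1) := by
    intro i j k hij hik base hbase
    have hli := hlen i
    refine ⟨fun n _ => ((P i).getVert n).1.2, ?_, ?_, ?_, ?_, ?_, ?_⟩
    · have := len_lt (P i) (hP i)
      omega
    · intro n hn
      exact (P i).adj_getVert_succ (i := n) (by omega)
    · have h1 := (P i).adj_getVert_succ (i := (P i).length - 1) (by omega)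
      rw [show (P i).length - 1 + 1 = (P i).length by omega, hl i] at h1
      exact h1
    · intro n hn
      apply nadj
      intro hadj
      rcases hkeyb i j hij _ (Or.inl ((P i).getVert_mem_support n)) hadj.symm with h | h
      · exact hne i j hij n (P j).length (by rw [hl j]; exact h)
      · have := inj i _ _ (by omega) (by omega) h
        omega
    · intro m n hmn hn
      apply nadj
      intro hadj
      rcases key i n (by omega) (by omega) _ hadj.symm with h | h
      · have := inj i _ _ (by omega) (by omega) h
        omega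
      · have := inj i _ _ (by omega) (by omega) h
        omega
    · intro n hn hnm
      rw [hbase, Nat.testBit_or, Nat.testBit_or, Nat.testBit_or]
      have e : ∀ j', i ≠ j' → (msk (a j').1.1).testBit ((P i).getVert n).1.1 = false := by
        intro j' hij'
        apply nadj
        intro hadj
        have := hanti i j' hij' n 0 (by omega) (by omega)
        rw [h0 j'] at this
        exact this hadj.symm
      have e' : ∀ j', i ≠ j' → (msk (b j').1.1).testBit ((P i).getVert n).1.1 = false := by
        intro j' hij'
        apply nadj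
        intro hadj
        have := hanti i j' hij' n (P j').length (by omega) (by omega)
        rw [hl j'] at this
        exact this hadj.symm
      rw [e j hij, e k hik, e' j hij, e' k hik]
      rfl
  have hcross : ∀ i j : Fin 3, i ≠ j → ∀ m n, m ≤ (P i).length - 1 → 1 ≤ n →
      n ≤ (P j).length - 1 →
      (msk ((P i).getVert m).1.1).testBit ((P j).getVert n).1.1 = false := by
    intro i j hij m n hm hn hnl
    have hlj := hlen j
    apply nadj
    intro hadj
    exact hanti j i hij.symm n m (by omega) (by omega) hadj.symm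
  have hfalse := legs_sound (hgood 0 1 2 (by decide) (by decide) _ rfl)
    (hgood 1 0 2 (by decide) (by decide) _ rfl) (hgood 2 0 1 (by decide) (by decide) _ rfl)
    (hcross 0 1 (by decide)) (hcross 0 2 (by decide)) (hcross 1 2 (by decide))
  have hmem : ∀ u v : S, (G15.induce S).Adj u v → v.1.1 ∈ nbl u.1.1 :=
    fun u v h => mem_nbl _ u.1.2 _ v.1.2 h
  have htrue := prismAt_spec
    (prismAt_true (a 0).1.2 (hmem _ _ (haa 0 1 (by decide))) (hmem _ _ (haa 0 2 (by decide)))
      (haa 1 2 (by decide))) (b 0).1.2 (hmem _ _ (hbb 0 1 (by decide)))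
    (hmem _ _ (hbb 0 2 (by decide))) (hbb 1 2 (by decide)) (nadj (hnab 1 0 (by decide)))
    (nadj (hnab 2 0 (by decide))) (nadj (hnab 0 1 (by decide))) (nadj (hnab 2 1 (by decide)))
    (nadj (hnab 0 2 (by decide))) (nadj (hnab 1 2 (by decide)))
  simp only [h0] at hfalse
  rw [hfalse] at htrue
  exact absurd htrue (by simp)

end Pool.Agent.R34.K34
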