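import Mathlib
import Pool.Agent.R34.Transfer

/-!
Models of disjoint cycles with a pendant vertex or a subdivided edge.
-/

set_option autoImplicit false
set_option linter.unusedSectionVars false

namespace Pool.Agent.R34

open SimpleGraph Finset
open Pool.Agent.W126.Split Pool.Agent.TH507.Host

section

variable {V : Type} [Fintype V] [DecidableEq V] {G : SimpleGraph V}

lemma cycles_adj {s m : ℕ} (i : Fin s) {a b : Fin 4} (h : (cycleGraph 4).Adj a b) :
    (cycles s m).Adj (Sum.inl (i, a)) (Sum.inl (i, b)) := ⟨i, a, b, rfl, rfl, h⟩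

/-- from a minor to a family of disjoint cycles -/
lemma fam_of_minor {s m : ℕ} (h : IsMinor (cycles s m) G) : Fam G univ s m := by
  obtain ⟨B, hne, hc, hd, hadj⟩ := model_of h
  have ne : ∀ (i : Fin s) (a b : Fin 4), a ≠ b →
      Disjoint (B (Sum.inl (i, a))) (B (Sum.inl (i, b))) := by
    intro i a b hab
    apply hd
    intro h
    simp only [Sum.inl.injEq, Prod.mk.injEq] at h
    exact hab h.2
  have h1 : ∀ i : Fin s, ∃ C ⊆ B (Sum.inl (i, 0)) ∪ B (Sum.inl (i, 1)) ∪ B (Sum.inl (i, 2)) ∪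
      B (Sum.inl (i, 3)), Cyc G C := by
    intro i
    exact cyc_of_model (hc _) (hc _) (hc _) (hc _) (ne i 0 1 (by decide)) (ne i 0 2 (by decide))
      (ne i 0 3 (by decide)) (ne i 1 2 (by decide)) (ne i 1 3 (by decide)) (ne i 2 3 (by decide))
      (hadj _ _ (cycles_adj i (by decide))) (hadj _ _ (cycles_adj i (by decide)))
      (hadj _ _ (cycles_adj i (by decide))) (hadj _ _ (cycles_adj i (by decide)))
  choose C hC1 hC2 using h1
  have hCB : ∀ i z, z ∈ C i → ∃ a, z ∈ B (Sum.inl (i, a)) := by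
    intro i z hz
    have := hC1 i hz
    simp only [mem_union] at this
    rcases this with ((h | h) | h) | h
    · exact ⟨_, h⟩
    · exact ⟨_, h⟩
    · exact ⟨_, h⟩
    · exact ⟨_, h⟩
  have huniq : ∀ x y z, z ∈ B x → z ∈ B y → x = y := by
    intro x y z hx hy
    by_contra hne
    exact Finset.disjoint_left.1 (hd x y hne) hx hy
  choose y hy using fun l : Fin m => hne (Sum.inr l)
  have hyinj : Function.Injective y := by
    intro l l' h
    have := huniq _ _ _ (hy l) (h ▸ hy l')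
    simpa using this
  refine ⟨C, hC2, fun i => subset_univ _, ?_, ?_⟩
  · intro i j hij
    rw [Finset.disjoint_left]
    intro z hz hz'
    obtain ⟨a, ha⟩ := hCB i z hz
    obtain ⟨b, hb⟩ := hCB j z hz'
    have := huniq _ _ _ ha hb
    simp only [Sum.inl.injEq, Prod.mk.injEq] at this
    exact hij this.1
  · have h2 : Disjoint (univ.biUnion C) (univ.image y) := by
      rw [Finset.disjoint_left]
      intro z hz hz'
      obtain ⟨i, -, hi⟩ := mem_biUnion.1 hz
      obtain ⟨l, -, rfl⟩ := mem_image.1 hz'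
      obtain ⟨a, ha⟩ := hCB i _ hi
      have := huniq _ _ _ ha (hy l)
      simp at this
    have h3 := card_le_card (subset_univ (univ.biUnion C ∪ univ.image y))
    rw [card_union_of_disjoint h2, card_image_of_injective _ hyinj, card_univ (α := Fin m),
      Fintype.card_fin] at h3
    exact h3

lemma exists_inj {R : Finset V} {m : ℕ} (h : m ≤ R.card) :
    ∃ y : Fin m → V, Function.Injective y ∧ ∀ l, y l ∈ R := by
  obtain ⟨e⟩ : Nonempty (Fin m ↪ {x // x ∈ R}) :=
    Function.Embedding.nonempty_of_card_le (by simpa using h)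
  exact ⟨fun l => (e l).1, fun a b h => e.injective (Subtype.ext h), fun l => (e l).2⟩

/-- a model of the 4-cycle in a cycle -/
lemma model4 {C : Finset V} (hC : Cyc G C) {x : V} (hx : x ∈ C) (j0 : Fin 4) :
    ∃ B : Fin 4 → Finset V, (∀ a, (B a).Nonempty) ∧ (∀ a, Conn G (B a)) ∧ (∀ a, B a ⊆ C) ∧
      (∀ a b, a ≠ b → Disjoint (B a) (B b)) ∧
      (∀ a b, (cycleGraph 4).Adj a b → ∃ u ∈ B a, ∃ v ∈ B b, G.Adj u v) ∧ x ∈ B j0 := by
  obtain ⟨B, h1, h2, h3, h4, h5, h6, h7⟩ := model_of_cyc hC 4 (by norm_num) hC.four_le hx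
  refine ⟨fun a => B (a - j0 : Fin 4).val, fun a => h1 _ (a - j0).2, fun a => h2 _ (a - j0).2,
    fun a => h3 _ (a - j0).2, ?_, ?_, ?_⟩
  · intro a b hab
    refine h4 _ _ (a - j0).2 (b - j0).2 (fun h => hab ?_)
    exact sub_left_injective (Fin.ext h)
  · intro a b hab
    show ∃ u ∈ B (a - j0 : Fin 4).val, ∃ v ∈ B (b - j0 : Fin 4).val, G.Adj u v
    have key : ∀ a b j0 : Fin 4, (cycleGraph 4).Adj a b →
        ((a - j0).val + 1 = (b - j0).val) ∨ ((b - j0).val + 1 = (a - j0).val) ∨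
        ((a - j0).val = 3 ∧ (b - j0).val = 0) ∨ ((b - j0).val = 3 ∧ (a - j0).val = 0) := by
      decide
    rcases key a b j0 hab with h | h | ⟨h, h'⟩ | ⟨h, h'⟩
    · obtain ⟨u, hu, v, hv, huv⟩ := h5 (a - j0).val (by have := (b - j0).2; omega)
      exact ⟨u, hu, v, by rw [← h]; exact hv, huv⟩
    · obtain ⟨u, hu, v, hv, huv⟩ := h5 (b - j0).val (by have := (a - j0).2; omega)
      exact ⟨v, by rw [← h]; exact hv, u, hu, huv.symm⟩
    · obtain ⟨u, hu, v, hv, huv⟩ := h6
      exact ⟨u, by rw [h]; exact hu, v, by rw [h']; exact hv, huv⟩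
    · obtain ⟨u, hu, v, hv, huv⟩ := h6
      exact ⟨v, by rw [h']; exact hv, u, by rw [h]; exact hu, huv.symm⟩
  · show x ∈ B (j0 - j0 : Fin 4).val
    rw [sub_self]
    exact h7

/-- the pendant vertex -/
lemma pendant_minor {s m : ℕ} {F : Fin s → Finset V} (hF : ∀ i, Cyc G (F i))
    (hd : ∀ i j, i ≠ j → Disjoint (F i) (F j)) {i : Fin s} (j : Fin 4) {u x : V} (hx : x ∈ F i)
    (hu : u ∉ univ.biUnion F) (hux : G.Adj u x)
    (hcard : (univ.biUnion F).card + (m + 1) ≤ (univ : Finset V).card) :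
    IsMinor (addPendant (cycles s m) (Sum.inl (i, j))) G := by
  classical
  have h1 : ∀ i', ∃ B : Fin 4 → Finset V, (∀ a, (B a).Nonempty) ∧ (∀ a, Conn G (B a)) ∧
      (∀ a, B a ⊆ F i') ∧ (∀ a b, a ≠ b → Disjoint (B a) (B b)) ∧
      (∀ a b, (cycleGraph 4).Adj a b → ∃ u ∈ B a, ∃ v ∈ B b, G.Adj u v) ∧
      (i' = i → x ∈ B j) := by
    intro i'
    by_cases h : i' = i
    · subst h
      obtain ⟨B, b1, b2, b3, b4, b5, b6⟩ := model4 (hF i') hx j
      exact ⟨B, b1, b2, b3, b4, b5, fun _ => b6⟩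
    · obtain ⟨y, hy⟩ := card_pos.1 (by have := (hF i').four_le; omega : 0 < (F i').card)
      obtain ⟨B, b1, b2, b3, b4, b5, -⟩ := model4 (hF i') hy j
      exact ⟨B, b1, b2, b3, b4, b5, fun h' => absurd h' h⟩
  choose B b1 b2 b3 b4 b5 b6 using h1
  obtain ⟨y, hy1, hy2⟩ := exists_inj (R := univ \ insert u (univ.biUnion F)) (m := m) (by
    have e1 := card_sdiff_add_card_eq_card (subset_univ (insert u (univ.biUnion F)))
    rw [card_insert_of_notMem hu] at e1
    omega)
  have hy3 : ∀ l, y l ≠ u ∧ ∀ i', y l ∉ F i' := by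
    intro l
    have := hy2 l
    rw [mem_sdiff, mem_insert, not_or, mem_biUnion] at this
    exact ⟨this.2.1, fun i' h => this.2.2 ⟨i', mem_univ _, h⟩⟩
  have hu' : ∀ i', u ∉ F i' := fun i' h => hu (mem_biUnion.2 ⟨i', mem_univ _, h⟩)
  let M : Option ((Fin s × Fin 4) ⊕ Fin m) → Finset V := fun w => match w with
    | none => {u}
    | some (Sum.inl p) => B p.1 p.2
    | some (Sum.inr l) => {y l}
  have hBB : ∀ p q : Fin s × Fin 4, p ≠ q → Disjoint (B p.1 p.2) (B q.1 q.2) := by
    rintro ⟨i1, a1⟩ ⟨i2, a2⟩ hne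
    by_cases h : i1 = i2
    · subst h
      exact b4 i1 a1 a2 (fun h => hne (by rw [h]))
    · exact (hd i1 i2 h).mono (b3 _ _) (b3 _ _)
  refine minor_of M ?_ ?_ ?_ ?_
  · rintro (_ | (p | l))
    · exact singleton_nonempty u
    · exact b1 _ _
    · exact singleton_nonempty _
  · rintro (_ | (p | l))
    · exact conn_singleton u
    · exact b2 _ _
    · exact conn_singleton _
  · rintro (_ | (p | l)) (_ | (q | l')) hne
    · exact absurd rfl hne
    · exact Finset.disjoint_singleton_left.2 (fun h => hu' _ (b3 _ _ h))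
    · exact Finset.disjoint_singleton_left.2 (fun h => (hy3 l').1 (mem_singleton.1 h).symm)
    · exact Finset.disjoint_singleton_right.2 (fun h => hu' _ (b3 _ _ h))
    · exact hBB p q (fun h => hne (by rw [h]))
    · exact Finset.disjoint_singleton_right.2 (fun h => (hy3 l').2 _ (b3 _ _ h))
    · exact Finset.disjoint_singleton_right.2 (fun h => (hy3 l).1 (mem_singleton.1 h).symm)
    · exact Finset.disjoint_singleton_left.2 (fun h => (hy3 l).2 _ (b3 _ _ h))
    · refine Finset.disjoint_singleton_left.2 (fun h => hne ?_)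
      rw [hy1 (mem_singleton.1 h)]
  · rintro w w' (⟨a, b, rfl, rfl, i', c, d, rfl, rfl, hcd⟩ | ⟨rfl, rfl⟩ | ⟨rfl, rfl⟩)
    · exact b5 i' c d hcd
    · exact ⟨u, mem_singleton_self u, x, b6 i rfl, hux⟩
    · exact ⟨x, b6 i rfl, u, mem_singleton_self u, hux.symm⟩

/-- the subdivided edge -/
lemma subdivide_minor {s m : ℕ} {F : Fin s → Finset V} (hF : ∀ i, Cyc G (F i))
    (hd : ∀ i j, i ≠ j → Disjoint (F i) (F j)) {i : Fin s} (hi : 5 ≤ (F i).card) (a0 : Fin 4)
    (hcard : (univ.biUnion F).card + m ≤ (univ : Finset V).card) :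
    IsMinor (subdivide (cycles s m) (Sum.inl (i, a0)) (Sum.inl (i, a0 + 1))) G := by
  classical
  obtain ⟨x, hx⟩ := card_pos.1 (by omega : 0 < (F i).card)
  obtain ⟨P, p1, p2, p3, p4, p5, p6, -⟩ := model_of_cyc (hF i) 5 (by norm_num) hi hx
  have h1 : ∀ i', ∃ B : Fin 4 → Finset V, (∀ a, (B a).Nonempty) ∧ (∀ a, Conn G (B a)) ∧
      (∀ a, B a ⊆ F i') ∧ (∀ a b, a ≠ b → Disjoint (B a) (B b)) ∧
      (∀ a b, (cycleGraph 4).Adj a b → ∃ u ∈ B a, ∃ v ∈ B b, G.Adj u v) := by
    intro i'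
    obtain ⟨y, hy⟩ := card_pos.1 (by have := (hF i').four_le; omega : 0 < (F i').card)
    obtain ⟨B, b1, b2, b3, b4, b5, -⟩ := model4 (hF i') hy 0
    exact ⟨B, b1, b2, b3, b4, b5⟩
  choose B0 c1 c2 c3 c4 c5 using h1
  let pos : Fin 4 → ℕ := fun t => if t = 0 then 0 else t.val + 1
  have pos5 : ∀ t, pos t < 5 := by decide
  have pos1 : ∀ t, pos t ≠ 1 := by decide
  have posinj : ∀ t t', pos t = pos t' → t = t' := by decide
  let B : Fin s → Fin 4 → Finset V := fun i' a => if i' = i then P (pos (a - a0)) else B0 i' a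
  have Bi : ∀ a, B i a = P (pos (a - a0)) := fun a => by simp only [B, if_pos]
  have Bn : ∀ i' a, i' ≠ i → B i' a = B0 i' a := fun i' a h => by simp only [B, if_neg h]
  have b1 : ∀ i' a, (B i' a).Nonempty := by
    intro i' a
    by_cases h : i' = i
    · rw [h, Bi]; exact p1 _ (pos5 _)
    · rw [Bn _ _ h]; exact c1 _ _
  have b2 : ∀ i' a, Conn G (B i' a) := by
    intro i' a
    by_cases h : i' = i
    · rw [h, Bi]; exact p2 _ (pos5 _)
    · rw [Bn _ _ h]; exact c2 _ _
  have b3 : ∀ i' a, B i' a ⊆ F i' := by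
    intro i' a
    by_cases h : i' = i
    · rw [h, Bi]; exact p3 _ (pos5 _)
    · rw [Bn _ _ h]; exact c3 _ _
  have b4 : ∀ i' a b, a ≠ b → Disjoint (B i' a) (B i' b) := by
    intro i' a b hab
    by_cases h : i' = i
    · rw [h, Bi, Bi]
      refine p4 _ _ (pos5 _) (pos5 _) (fun h => hab ?_)
      exact sub_left_injective (posinj _ _ h)
    · rw [Bn _ _ h, Bn _ _ h]; exact c4 _ _ _ hab
  have hP1 : ∀ i' a, Disjoint (P 1) (B i' a) := by
    intro i' a
    by_cases h : i' = i
    · rw [h, Bi]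
      exact p4 _ _ (by norm_num) (pos5 _) (fun h => pos1 _ h.symm)
    · exact (hd i i' (Ne.symm h)).mono (p3 1 (by norm_num)) (b3 _ _)
  have hBB : ∀ p q : Fin s × Fin 4, p ≠ q → Disjoint (B p.1 p.2) (B q.1 q.2) := by
    rintro ⟨i1, a1⟩ ⟨i2, a2⟩ hne
    by_cases h : i1 = i2
    · subst h
      exact b4 i1 a1 a2 (fun h => hne (by rw [h]))
    · exact (hd i1 i2 h).mono (b3 _ _) (b3 _ _)
  obtain ⟨y, hy1, hy2⟩ := exists_inj (R := univ \ (univ.biUnion F)) (m := m) (by
    have e1 := card_sdiff_add_card_eq_card (subset_univ (univ.biUnion F))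
    omega)
  have hy3 : ∀ l i', y l ∉ F i' := by
    intro l i' h
    exact (mem_sdiff.1 (hy2 l)).2 (mem_biUnion.2 ⟨i', mem_univ _, h⟩)
  let M : Option ((Fin s × Fin 4) ⊕ Fin m) → Finset V := fun w => match w with
    | none => P 1
    | some (Sum.inl p) => B p.1 p.2
    | some (Sum.inr l) => {y l}
  refine minor_of M ?_ ?_ ?_ ?_
  · rintro (_ | (p | l))
    · exact p1 1 (by norm_num)
    · exact b1 _ _
    · exact singleton_nonempty _
  · rintro (_ | (p | l))
    · exact p2 1 (by norm_num)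
    · exact b2 _ _
    · exact conn_singleton _
  · rintro (_ | (p | l)) (_ | (q | l')) hne
    · exact absurd rfl hne
    · exact hP1 _ _
    · exact Finset.disjoint_singleton_right.2 (fun h => hy3 l' i (p3 1 (by norm_num) h))
    · exact (hP1 _ _).symm
    · exact hBB p q (fun h => hne (by rw [h]))
    · exact Finset.disjoint_singleton_right.2 (fun h => hy3 l' _ (b3 _ _ h))
    · exact Finset.disjoint_singleton_left.2 (fun h => hy3 l i (p3 1 (by norm_num) h))
    · exact Finset.disjoint_singleton_left.2 (fun h => hy3 l _ (b3 _ _ h))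
    · refine Finset.disjoint_singleton_left.2 (fun h => hne ?_)
      rw [hy1 (mem_singleton.1 h)]
  · -- edges
    have e0 : M (some (Sum.inl (i, a0))) = P 0 := by
      show B i a0 = P 0
      rw [Bi, sub_self]
      rfl
    have e1 : M (some (Sum.inl (i, a0 + 1))) = P 2 := by
      show B i (a0 + 1) = P 2
      rw [Bi, add_sub_cancel_left]
      rfl
    obtain ⟨u, hu, v, hv, huv⟩ := p5 0 (by norm_num)
    obtain ⟨u', hu', v', hv', huv'⟩ := p5 1 (by norm_num)
    rintro w w' (⟨_, _, rfl, rfl, ⟨i', c, d, rfl, rfl, hcd⟩, hne⟩ | ⟨rfl, rfl | rfl⟩ |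
      ⟨rfl, rfl | rfl⟩)
    · show ∃ u ∈ B i' c, ∃ v ∈ B i' d, G.Adj u v
      by_cases h : i' = i
      · subst h
        rw [Bi, Bi]
        have key : ∀ a0 c d : Fin 4, (cycleGraph 4).Adj c d → ¬ (c = a0 ∧ d = a0 + 1) →
            ¬ (c = a0 + 1 ∧ d = a0) →
            (pos (c - a0) + 1 = pos (d - a0)) ∨ (pos (d - a0) + 1 = pos (c - a0)) ∨
            (pos (c - a0) = 4 ∧ pos (d - a0) = 0) ∨ (pos (d - a0) = 4 ∧ pos (c - a0) = 0) := by
          decide
        rcases key a0 c d hcd (by rintro ⟨rfl, rfl⟩; exact hne rfl)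
          (by rintro ⟨rfl, rfl⟩; exact hne Sym2.eq_swap) with h | h | ⟨h, h'⟩ | ⟨h, h'⟩
        · obtain ⟨u, hu, v, hv, huv⟩ := p5 (pos (c - a0)) (by have := pos5 (d - a0); omega)
          exact ⟨u, hu, v, by rw [← h]; exact hv, huv⟩
        · obtain ⟨u, hu, v, hv, huv⟩ := p5 (pos (d - a0)) (by have := pos5 (c - a0); omega)
          exact ⟨v, by rw [← h]; exact hv, u, hu, huv.symm⟩
        · obtain ⟨u, hu, v, hv, huv⟩ := p6
          exact ⟨u, by rw [h]; exact hu, v, by rw [h']; exact hv, huv⟩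
        · obtain ⟨u, hu, v, hv, huv⟩ := p6
          exact ⟨v, by rw [h']; exact hv, u, by rw [h]; exact hu, huv.symm⟩
      · rw [Bn _ _ h, Bn _ _ h]
        exact c5 _ _ _ hcd
    · rw [e0]
      exact ⟨v, hv, u, hu, huv.symm⟩
    · rw [e1]
      exact ⟨u', hu', v', hv', huv'⟩
    · rw [e0]
      exact ⟨u, hu, v, hv, huv⟩
    · rw [e1]
      exact ⟨v', hv', u', hu', huv'.symm⟩

lemma conn_union {A B : Finset V} (hA : Conn G A) (hB : Conn G B)
    (hadj : ∃ u ∈ A, ∃ v ∈ B, G.Adj u v) : Conn G (A ∪ B) := by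
  obtain ⟨x, hx, y, hy, hxy⟩ := hadj
  have key : ∀ u ∈ A ∪ B, ∃ p : G.Walk u x, ∀ z ∈ p.support, z ∈ A ∪ B := by
    intro u hu
    rcases mem_union.1 hu with hu | hu
    · obtain ⟨p, hp⟩ := hA u hu x hx
      exact ⟨p, fun z hz => mem_union_left _ (hp z hz)⟩
    · obtain ⟨p, hp⟩ := hB u hu y hy
      refine ⟨p.concat hxy.symm, fun z hz => ?_⟩
      rw [Walk.support_concat, List.mem_append, List.mem_singleton] at hz
      rcases hz with hz | rfl
      · exact mem_union_right _ (hp z hz)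
      · exact mem_union_left _ hx
  intro u hu v hv
  obtain ⟨p, hp⟩ := key u hu
  obtain ⟨q, hq⟩ := key v hv
  refine ⟨p.append q.reverse, fun z hz => ?_⟩
  rw [Walk.mem_support_append_iff, Walk.support_reverse, List.mem_reverse] at hz
  rcases hz with hz | hz
  · exact hp z hz
  · exact hq z hz

/-- `H` is a minor of `H` with a pendant vertex -/
lemma minor_of_pendant {W : Type} {H : SimpleGraph W} {v : W} (h : IsMinor (addPendant H v) G) :
    IsMinor H G := by
  obtain ⟨B, h1, h2, h3⟩ := h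
  exact ⟨fun x => B (some x), fun x => h1 _, fun x y hxy => h2 _ _ (fun h => hxy (by simpa using h)),
    fun x y hxy => h3 _ _ (Or.inl ⟨x, y, rfl, rfl, hxy⟩)⟩

/-- `H` is a minor of `H` with a subdivided edge -/
lemma minor_of_subdivide {W : Type} {H : SimpleGraph W} {u v : W}
    (h : IsMinor (subdivide H u v) G) : IsMinor H G := by
  classical
  obtain ⟨B, h1, h2, h3, h4⟩ := model_of h
  have hne : ∀ x, B (some x) ⊆ (if x = u then B (some u) ∪ B none else B (some x)) := by
    intro x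
    split_ifs with hx
    · rw [hx]; exact subset_union_left
    · exact Subset.rfl
  refine minor_of (fun x => if x = u then B (some u) ∪ B none else B (some x)) ?_ ?_ ?_ ?_
  · intro x
    exact (h1 (some x)).mono (hne x)
  · intro x
    split_ifs with hx
    · exact conn_union (h2 _) (h2 _) (h4 _ _ (Or.inr (Or.inr ⟨rfl, Or.inl rfl⟩)))
    · exact h2 _
  · intro x y hxy
    have hnone : ∀ z, Disjoint (B none) (B (some z)) := fun z => h3 _ _ (by simp)
    have hsome : ∀ z z', z ≠ z' → Disjoint (B (some z)) (B (some z')) :=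
      fun z z' hz => h3 _ _ (by simpa using hz)
    split_ifs with hx hy hy
    · exact absurd (hx.trans hy.symm) hxy
    · rw [disjoint_union_left]
      exact ⟨hsome u y (Ne.symm hy), hnone y⟩
    · rw [disjoint_union_right]
      exact ⟨hsome x u hx, (hnone x).symm⟩
    · exact hsome x y hxy
  · intro x y hxy
    by_cases he : s(x, y) = s(u, v)
    · rw [Sym2.eq_iff] at he
      rcases he with ⟨rfl, rfl⟩ | ⟨rfl, rfl⟩
      · obtain ⟨a, ha, b, hb, hab⟩ := h4 none (some y) (Or.inr (Or.inl ⟨rfl, Or.inr rfl⟩))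
        rw [if_pos rfl]
        exact ⟨a, mem_union_right _ ha, b, hne y hb, hab⟩
      · obtain ⟨a, ha, b, hb, hab⟩ := h4 (some x) none (Or.inr (Or.inr ⟨rfl, Or.inr rfl⟩))
        refine ⟨a, hne x ha, b, ?_, hab⟩
        rw [if_pos rfl]
        exact mem_union_right _ hb
    · obtain ⟨a, ha, b, hb, hab⟩ := h4 (some x) (some y) (Or.inl ⟨x, y, rfl, rfl, hxy, he⟩)
      exact ⟨a, hne x ha, b, hne y hb, hab⟩

end

/-- it suffices to consider connected graphs -/
lemma forces_of_conn {W : Type} {H : SimpleGraph W} {k : ℕ} (hk : 1 ≤ k)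
    (h : ∀ (V : Type) [Fintype V] [DecidableEq V] (G : SimpleGraph V), Conn G univ →
      ¬ Bw G univ k → IsMinor H G) : Forces H k := by
  classical
  intro V _ G htw
  obtain ⟨K, -, hK, -, hKb⟩ := exists_comp k univ (not_bw_of_le_tw hk htw)
  have h1 : ¬ Bw (G.comap (Subtype.val : {x // x ∈ K} → V)) univ k :=
    fun hb => hKb (bw_of_induce hb)
  have h2 : Conn (G.comap (Subtype.val : {x // x ∈ K} → V)) univ := by
    have key : ∀ {u v : V} (p : G.Walk u v), (∀ z ∈ p.support, z ∈ K) → ∀ (hu : u ∈ K) (hv : v ∈ K),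
        (G.comap (Subtype.val : {x // x ∈ K} → V)).Reachable ⟨u, hu⟩ ⟨v, hv⟩ := by
      intro u v p
      induction p with
      | nil => intro _ _ _; exact Reachable.refl _
      | @cons a c b hadj p ih =>
        intro hp ha hb
        have hc : c ∈ K := hp c (by simp)
        have h1 : (G.comap (Subtype.val : {x // x ∈ K} → V)).Adj ⟨a, ha⟩ ⟨c, hc⟩ := hadj
        exact h1.reachable.trans (ih (fun z hz => hp z (by simp [hz])) hc hb)
    rintro ⟨u, hu⟩ _ ⟨v, hv⟩ _
    obtain ⟨p, hp⟩ := hK u hu v hv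
    obtain ⟨q⟩ := key p hp hu hv
    exact ⟨q, fun _ _ => mem_univ _⟩
  exact IsMinor.of_embed (h _ _ h2 h1) Subtype.val Subtype.val_injective (fun _ _ h => h)

end Pool.Agent.R34
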