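import Mathlib
import Pool.Agent.R34.Upper

/-!
The lower bound: a graph without 4-cycles on `5 * s - 1` vertices whose treewidth is at least
`4 * s - 1`.
-/

set_option autoImplicit false
set_option linter.unusedSectionVars false

namespace Pool.Agent.R34

open SimpleGraph Finset
open Pool.Agent.W126.Split

section

variable {V : Type} [Fintype V] [DecidableEq V] {G : SimpleGraph V}

/-- a large connected subset -/
lemma big_conn {h : ℕ} {R : Finset V}
    (hexp : ∀ X Y : Finset V, Disjoint X Y → (∀ x ∈ X, ∀ y ∈ Y, ¬ G.Adj x y) →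
      X.card ≤ h ∨ Y.card ≤ h) (hR : 3 * h + 1 ≤ R.card) :
    ∃ K ⊆ R, Conn G K ∧ h < K.card := by
  classical
  let 𝒞 : Finset (Finset V) := R.powerset.filter (fun X => Closed G R X ∧ h < X.card)
  have hmem : ∀ X, X ∈ 𝒞 ↔ Closed G R X ∧ h < X.card := by
    intro X
    simp only [𝒞, mem_filter, mem_powerset]
    exact ⟨fun h => h.2, fun h => ⟨h.1.1, h⟩⟩
  obtain ⟨X, hX, hmin⟩ := exists_min_image 𝒞 (fun X => X.card)
    ⟨R, (hmem R).2 ⟨closed_self R, by omega⟩⟩
  obtain ⟨hXc, hXh⟩ := (hmem X).1 hX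
  obtain ⟨x, hx⟩ := card_pos.1 (by omega : 0 < X.card)
  have hcl := closed_comp (G := G) R x
  by_cases hc : h < (comp G R x).card
  · exact ⟨comp G R x, hcl.1, conn_comp R x, hc⟩
  exfalso
  have hsub : comp G R x ⊆ X := comp_subset hXc hx
  have hself : x ∈ comp G R x := mem_comp_self (hXc.1 hx)
  have h1 : (X \ comp G R x).card ≤ h := by
    by_contra hlt
    have h2 := hmin _ ((hmem _).2 ⟨hXc.sdiff hcl, by omega⟩)
    have h3 : (X \ comp G R x).card < X.card := card_lt_card (sdiff_ssubset hsub ⟨x, hself⟩)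
    omega
  have h2 : X.card ≤ 2 * h := by
    have := card_sdiff_add_card_eq_card hsub
    omega
  have h3 : (R \ X).card + X.card = R.card := card_sdiff_add_card_eq_card hXc.1
  rcases hexp X (R \ X) disjoint_sdiff (hXc.nonadj sdiff_subset disjoint_sdiff) with h4 | h4
  · omega
  · omega

/-- large treewidth from expansion -/
lemma not_bw_of_exp {h k : ℕ} {S : Finset V}
    (hexp : ∀ X Y : Finset V, Disjoint X Y → (∀ x ∈ X, ∀ y ∈ Y, ¬ G.Adj x y) →
      X.card ≤ h ∨ Y.card ≤ h) (hS : k + (3 * h + 1) ≤ S.card) : ¬ Bw G S k := by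
  classical
  intro hb
  obtain ⟨F, hF, hF'⟩ := touch hb
  have h1 : ∀ B : Finset V, ∃ K : Finset V, B ∈ F → (K ⊆ S \ B ∧ Conn G K ∧ h < K.card) := by
    intro B
    by_cases hB : B ∈ F
    · obtain ⟨h2, h3⟩ := hF B hB
      have h4 : (S \ B).card + B.card = S.card := card_sdiff_add_card_eq_card h2
      obtain ⟨K, h5, h6, h7⟩ := big_conn (R := S \ B) hexp (by omega)
      exact ⟨K, fun _ => ⟨h5, h6, h7⟩⟩
    · exact ⟨∅, fun h => absurd h hB⟩
  choose K hK using h1
  obtain ⟨B, hB, B', hB', hd⟩ := hF' K (fun B hB => ⟨(hK B hB).1, (hK B hB).2.1⟩)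
  have h2 := (hK B hB).2.2
  have h3 := (hK B' hB').2.2
  rcases hexp (K B) (K B') (by
    rw [Finset.disjoint_left]
    intro x hx hx'
    exact (hd x hx x hx').1 rfl) (fun x hx y hy => (hd x hx y hy).2) with h4 | h4
  · omega
  · omega

/-- in a graph in which two vertices have at most one common neighbour, cycles of length at least
four have at least five vertices -/
lemma five_le_of_codeg
    (hco : ∀ x x' z z' : V, x ≠ x' → G.Adj x z → G.Adj x' z → G.Adj x z' → G.Adj x' z' → z = z')
    {C : Finset V} (hC : Cyc G C) : 5 ≤ C.card := by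
  obtain ⟨v, c, hc, hl, rfl⟩ := hC
  rw [card_cycle c hc]
  by_contra hlt
  have h4 : c.length = 4 := by omega
  have inj := hc.getVert_injOn'
  have a0 : G.Adj (c.getVert 0) (c.getVert 1) := c.adj_getVert_succ (by omega)
  have a1 : G.Adj (c.getVert 1) (c.getVert 2) := c.adj_getVert_succ (by omega)
  have a2 : G.Adj (c.getVert 2) (c.getVert 3) := c.adj_getVert_succ (by omega)
  have a3 : G.Adj (c.getVert 3) (c.getVert 4) := c.adj_getVert_succ (by omega)
  have e4 : c.getVert 4 = c.getVert 0 := by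
    rw [Walk.getVert_zero, ← h4, Walk.getVert_length]
  rw [e4] at a3
  have n02 : c.getVert 0 ≠ c.getVert 2 := by
    intro h
    have := inj (by simp) (by simp; omega) h
    omega
  have h13 := hco _ _ _ _ n02 a0 a1.symm a3.symm a2
  have := inj (by simp; omega) (by simp; omega) h13
  omega

end

/-- the polarity graph: `(a, b)` and `(c, d)` are adjacent if `b + d = a * c` -/
def polar (p : ℕ) : SimpleGraph (ZMod p × ZMod p) where
  Adj x y := x ≠ y ∧ x.2 + y.2 = x.1 * y.1
  symm := ⟨fun x y h => ⟨h.1.symm, by rw [add_comm, h.2, mul_comm]⟩⟩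
  loopless := ⟨fun _ h => h.1 rfl⟩

section

variable {p : ℕ} [Fact p.Prime]

lemma common {x x' z z' : ZMod p × ZMod p} (hne : x ≠ x') (h1 : x.2 + z.2 = x.1 * z.1)
    (h2 : x'.2 + z.2 = x'.1 * z.1) (h3 : x.2 + z'.2 = x.1 * z'.1)
    (h4 : x'.2 + z'.2 = x'.1 * z'.1) : z = z' := by
  have h5 : (x.1 - x'.1) * (z.1 - z'.1) = 0 := by
    linear_combination h2 + h3 - h1 - h4
  rcases mul_eq_zero.1 h5 with h6 | h6
  · exfalso
    apply hne
    have h7 : x.1 = x'.1 := sub_eq_zero.1 h6
    refine Prod.ext h7 ?_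
    rw [h7] at h1
    linear_combination h1 - h2
  · have h7 : z.1 = z'.1 := sub_eq_zero.1 h6
    refine Prod.ext h7 ?_
    rw [h7] at h1
    linear_combination h1 - h3

open Classical in
/-- two disjoint sets that are not joined by an edge -/
lemma expand (X Y : Finset (ZMod p × ZMod p)) (hd : Disjoint X Y)
    (hno : ∀ x ∈ X, ∀ y ∈ Y, ¬ (polar p).Adj x y) : X.card * Y.card ≤ p ^ 3 := by
  have hp : 0 < p := (Fact.out : p.Prime).pos
  set D : ZMod p × ZMod p → Finset (ZMod p × ZMod p) :=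
    fun y => X.filter (fun x => x.2 + y.2 = x.1 * y.1) with hD
  have hcard : Fintype.card (ZMod p × ZMod p) = p * p := by
    rw [Fintype.card_prod, ZMod.card]
  -- the first moment
  have m1 : ∑ y, (D y).card = X.card * p := by
    have e1 : ∑ y, (D y).card = ∑ x ∈ X, (univ.filter (fun y : ZMod p × ZMod p =>
        x.2 + y.2 = x.1 * y.1)).card := by
      simp only [hD, card_filter]
      exact sum_comm
    rw [e1]
    have e2 : ∀ x ∈ X, (univ.filter (fun y : ZMod p × ZMod p =>
        x.2 + y.2 = x.1 * y.1)).card = p := by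
      intro x _
      have e3 : (univ.filter (fun y : ZMod p × ZMod p => x.2 + y.2 = x.1 * y.1)) =
          univ.image (fun c : ZMod p => (c, x.1 * c - x.2)) := by
        ext ⟨c, d⟩
        simp only [mem_filter, mem_univ, true_and, mem_image, Prod.mk.injEq]
        constructor
        · intro h
          exact ⟨c, rfl, by rw [← h]; ring⟩
        · rintro ⟨c', rfl, h⟩
          rw [← h]; ring
      rw [e3, card_image_of_injective _ (fun a b h => (Prod.mk.inj h).1), card_univ, ZMod.card]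
    rw [sum_congr rfl e2, sum_const, smul_eq_mul]
  -- the second moment
  have m2 : ∑ y, (D y).card ^ 2 ≤ X.card * p + X.card ^ 2 := by
    have e1 : ∀ y, (D y).card ^ 2 = ∑ x ∈ X, ∑ x' ∈ X,
        if (x.2 + y.2 = x.1 * y.1 ∧ x'.2 + y.2 = x'.1 * y.1) then 1 else 0 := by
      intro y
      rw [sq, hD]
      simp only [card_filter]
      rw [sum_mul_sum]
      refine sum_congr rfl (fun x _ => sum_congr rfl (fun x' _ => ?_))
      by_cases h1 : x.2 + y.2 = x.1 * y.1 <;> by_cases h2 : x'.2 + y.2 = x'.1 * y.1 <;>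
        simp [h1, h2]
    simp only [e1]
    rw [sum_comm]
    have e2 : ∀ x ∈ X, ∑ y : ZMod p × ZMod p, ∑ x' ∈ X,
        (if (x.2 + y.2 = x.1 * y.1 ∧ x'.2 + y.2 = x'.1 * y.1) then 1 else 0) ≤ p + X.card := by
      intro x hx
      rw [sum_comm]
      have e3 : ∀ x' ∈ X, ∑ y : ZMod p × ZMod p,
          (if (x.2 + y.2 = x.1 * y.1 ∧ x'.2 + y.2 = x'.1 * y.1) then 1 else 0) ≤
            (if x' = x then p else 0) + 1 := by
        intro x' _
        rw [← card_filter]
        by_cases hxx : x' = x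
        · rw [if_pos hxx]
          subst hxx
          have e4 : (univ.filter (fun y : ZMod p × ZMod p =>
              x'.2 + y.2 = x'.1 * y.1 ∧ x'.2 + y.2 = x'.1 * y.1)) ⊆
              univ.image (fun c : ZMod p => (c, x'.1 * c - x'.2)) := by
            rintro ⟨c, d⟩
            simp only [mem_filter, mem_univ, true_and, mem_image, Prod.mk.injEq]
            rintro ⟨h, -⟩
            exact ⟨c, rfl, by rw [← h]; ring⟩
          have e5 := card_le_card e4
          rw [card_image_of_injective _ (fun a b h => (Prod.mk.inj h).1), card_univ,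
            ZMod.card] at e5
          omega
        · rw [if_neg hxx, zero_add]
          rw [card_le_one]
          intro z hz z' hz'
          rw [mem_filter] at hz hz'
          exact common (Ne.symm hxx) hz.2.1 hz.2.2 hz'.2.1 hz'.2.2
      refine (sum_le_sum e3).trans ?_
      rw [sum_add_distrib, sum_ite_eq' X x (fun _ => p), if_pos hx, sum_const, smul_eq_mul,
        mul_one]
    refine (sum_le_sum e2).trans ?_
    rw [sum_const, smul_eq_mul]
    apply le_of_eq
    ring
  -- the sum over the complement of `Y`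
  have m3 : ∑ y ∈ univ \ Y, (D y).card = X.card * p := by
    rw [← m1]
    apply sum_subset (subset_univ _)
    intro y _ hy
    rw [card_eq_zero, hD]
    rw [mem_sdiff, not_and, not_not] at hy
    have hyY := hy (mem_univ _)
    apply filter_eq_empty_iff.2
    intro x hx h
    exact hno x hx y hyY ⟨fun hxy => Finset.disjoint_left.1 hd hx (hxy ▸ hyY), h⟩
  have m4 : ∑ y ∈ univ \ Y, (D y).card ^ 2 ≤ ∑ y, (D y).card ^ 2 :=
    sum_le_sum_of_subset (subset_univ _)
  have m5 : (∑ y ∈ univ \ Y, (D y).card) ^ 2 ≤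
      (univ \ Y).card * ∑ y ∈ univ \ Y, (D y).card ^ 2 := sq_sum_le_card_mul_sum_sq
  have m6 : (univ \ Y).card + Y.card = p * p := by
    rw [card_sdiff_add_card_eq_card (subset_univ _), card_univ, hcard]
  rw [m3] at m5
  rcases Nat.eq_zero_or_pos X.card with h0 | h0
  · rw [h0]; simp
  have m7 : (X.card * p) ^ 2 ≤ (univ \ Y).card * (X.card * p + X.card ^ 2) :=
    m5.trans (Nat.mul_le_mul_left _ (m4.trans m2))
  have m8 : X.card * (X.card * p ^ 2) ≤ X.card * ((univ \ Y).card * (p + X.card)) := by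
    calc X.card * (X.card * p ^ 2) = (X.card * p) ^ 2 := by ring
      _ ≤ (univ \ Y).card * (X.card * p + X.card ^ 2) := m7
      _ = X.card * ((univ \ Y).card * (p + X.card)) := by ring
  have m9 := Nat.le_of_mul_le_mul_left m8 h0
  nlinarith

end

/-- the lower bound -/
theorem lower (s : ℕ) (hs : 1000000 ≤ s) : ∃ (V : Type) (_ : Fintype V) (_ : DecidableEq V)
    (G : SimpleGraph V) (S : Finset V), ¬ Bw G S (4 * s - 1) ∧ ¬ Fam G S s 0 := by
  set n := Nat.sqrt (5 * s) with hn
  have h1 : n * n ≤ 5 * s := Nat.sqrt_le _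
  have h2 : 5 * s < (n + 1) * (n + 1) := Nat.lt_succ_sqrt _
  have h3 : 2000 ≤ n := by
    rw [hn, Nat.le_sqrt]
    omega
  obtain ⟨p, hp, hp1, hp2⟩ := Nat.exists_prime_lt_and_le_two_mul n (by omega)
  have : Fact p.Prime := ⟨hp⟩
  obtain ⟨h, hh⟩ : ∃ h, h = (s - 1) / 3 := ⟨_, rfl⟩
  have hh1 : 3 * h + 1 ≤ s := by omega
  have hh2 : s ≤ 3 * h + 3 := by omega
  have hexp : ∀ X Y : Finset (ZMod p × ZMod p), Disjoint X Y →
      (∀ x ∈ X, ∀ y ∈ Y, ¬ (polar p).Adj x y) → X.card ≤ h ∨ Y.card ≤ h := by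
    intro X Y hd hno
    by_contra hcon
    rw [not_or, not_le, not_le] at hcon
    have e1 := expand X Y hd hno
    have e2 : (h + 1) * (h + 1) ≤ X.card * Y.card := Nat.mul_le_mul hcon.1 hcon.2
    have e3 : p ^ 3 ≤ (2 * n) ^ 3 := Nat.pow_le_pow_left hp2 3
    have e4 : n * n ≤ 15 * (h + 1) := by omega
    have e5 : (n * n) * (n * n) ≤ (15 * (h + 1)) * (15 * (h + 1)) := Nat.mul_le_mul e4 e4
    have e6 : (15 * (h + 1)) * (15 * (h + 1)) = 225 * ((h + 1) * (h + 1)) := by ring
    have e7 : (2 * n) ^ 3 = 8 * (n * n * n) := by ring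
    have e8 : 2000 * (n * n * n) ≤ n * (n * n * n) := Nat.mul_le_mul_right _ h3
    have e9 : (n * n) * (n * n) = n * (n * n * n) := by ring
    have e10 : 0 < n * n * n := by positivity
    omega
  have hcard : 5 * s - 1 ≤ (univ : Finset (ZMod p × ZMod p)).card := by
    rw [card_univ, Fintype.card_prod, ZMod.card]
    have : (n + 1) * (n + 1) ≤ p * p := Nat.mul_le_mul hp1 hp1
    omega
  obtain ⟨S, -, hS⟩ := exists_subset_card_eq hcard
  refine ⟨ZMod p × ZMod p, inferInstance, inferInstance, polar p, S,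
    not_bw_of_exp hexp (by omega), ?_⟩
  rintro ⟨F, hF1, hF2, hF3, hF4⟩
  have h5 : ∀ i, 5 ≤ (F i).card := fun i => five_le_of_codeg (G := polar p)
    (fun x x' z z' hne a1 a2 a3 a4 => common hne a1.2 a2.2 a3.2 a4.2) (hF1 i)
  rw [card_biUnion (fun i _ j _ hij => hF3 i j hij)] at hF4
  have h6 : ∑ _i : Fin s, 5 ≤ ∑ i, (F i).card := sum_le_sum (fun i _ => h5 i)
  rw [sum_const, card_univ, Fintype.card_fin, smul_eq_mul] at h6
  omega

end Pool.Agent.R34
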