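import Mathlib
import Pool.Agent.R34.Models
import Pool.Agent.R34.Polar

/-!
The disjoint union `H` of `s` cycles of length four and a suitable number `m` of isolated vertices
satisfies `f(H) = |V(H)|`, and so do all graphs obtained from `H` by attaching a pendant vertex to
a cycle or by subdividing an edge once.
-/

set_option autoImplicit false
set_option linter.unusedSectionVars false

namespace Pool.Agent.R34

open SimpleGraph Finset
open Pool.Agent.W126.Split Pool.Agent.TH507.Host

/-- from families of cycles to minors -/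
lemma minor_of_fam {V : Type} [Fintype V] [DecidableEq V] {G : SimpleGraph V} {s m : ℕ}
    (h : Fam G univ s m) : IsMinor (cycles s m) G := by
  classical
  obtain ⟨F, hF, -, hd, hcard⟩ := h
  have h1 : ∀ i', ∃ B : Fin 4 → Finset V, (∀ a, (B a).Nonempty) ∧ (∀ a, Conn G (B a)) ∧
      (∀ a, B a ⊆ F i') ∧ (∀ a b, a ≠ b → Disjoint (B a) (B b)) ∧
      (∀ a b, (cycleGraph 4).Adj a b → ∃ u ∈ B a, ∃ v ∈ B b, G.Adj u v) := by
    intro i'
    obtain ⟨y, hy⟩ := card_pos.1 (by have := (hF i').four_le; omega : 0 < (F i').card)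
    obtain ⟨B, b1, b2, b3, b4, b5, -⟩ := model4 (hF i') hy 0
    exact ⟨B, b1, b2, b3, b4, b5⟩
  choose B b1 b2 b3 b4 b5 using h1
  obtain ⟨y, hy1, hy2⟩ := exists_inj (R := univ \ (univ.biUnion F)) (m := m) (by
    have e1 := card_sdiff_add_card_eq_card (subset_univ (univ.biUnion F))
    omega)
  have hy3 : ∀ l i', y l ∉ F i' := by
    intro l i' h
    exact (mem_sdiff.1 (hy2 l)).2 (mem_biUnion.2 ⟨i', mem_univ _, h⟩)
  let M : ((Fin s × Fin 4) ⊕ Fin m) → Finset V := fun w => match w with
    | (Sum.inl p) => B p.1 p.2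
    | (Sum.inr l) => {y l}
  have hBB : ∀ p q : Fin s × Fin 4, p ≠ q → Disjoint (B p.1 p.2) (B q.1 q.2) := by
    rintro ⟨i1, a1⟩ ⟨i2, a2⟩ hne
    by_cases h : i1 = i2
    · subst h
      exact b4 i1 a1 a2 (fun h => hne (by rw [h]))
    · exact (hd i1 i2 h).mono (b3 _ _) (b3 _ _)
  refine minor_of M ?_ ?_ ?_ ?_
  · rintro (p | l)
    · exact b1 _ _
    · exact singleton_nonempty _
  · rintro (p | l)
    · exact b2 _ _
    · exact conn_singleton _
  · rintro (p | l) (q | l') hne
    · exact hBB p q (fun h => hne (by rw [h]))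
    · exact Finset.disjoint_singleton_right.2 (fun h => hy3 l' _ (b3 _ _ h))
    · exact Finset.disjoint_singleton_left.2 (fun h => hy3 l _ (b3 _ _ h))
    · refine Finset.disjoint_singleton_left.2 (fun h => hne ?_)
      rw [hy1 (mem_singleton.1 h)]
  · rintro w w' ⟨i', c, d, rfl, rfl, hcd⟩
    exact b5 i' c d hcd

lemma Forces.mono {W : Type} {H : SimpleGraph W} {k k' : ℕ} (h : Forces H k) (hk : k ≤ k') :
    Forces H k' := fun V _ G hG => h V G (hk.trans hG)

/-- the threshold is determined by two facts -/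
lemma threshold_of {W W' : Type} {H : SimpleGraph W} {H' : SimpleGraph W'} {k : ℕ} (hk : 1 ≤ k)
    (h1 : Forces H' k) (h2 : ¬ Forces H (k - 1)) (h3 : ∀ j, Forces H' j → Forces H j) :
    Threshold H' k := by
  refine ⟨h1, ?_⟩
  intro j hj
  by_contra hlt
  rw [not_le] at hlt
  exact h2 ((h3 j hj).mono (by omega))

/-- attaching a pendant vertex to a cycle -/
lemma forces_pendant {s m k : ℕ} (hk : 1 ≤ k) (h : Forces (cycles s (m + 1)) k)
    (i : Fin s) (j : Fin 4) : Forces (addPendant (cycles s m) (Sum.inl (i, j))) k := by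
  refine forces_of_conn hk ?_
  intro V _ _ G hconn hb
  obtain ⟨F, hF, -, hd, hcard⟩ := fam_of_minor (h V G (le_tw_of_not_bw hb))
  -- a vertex outside the cycles adjacent to a cycle
  obtain ⟨x0, hx0⟩ := card_pos.1 (by have := (hF i).four_le; omega : 0 < (F i).card)
  have hx0' : x0 ∈ univ.biUnion F := mem_biUnion.2 ⟨i, mem_univ _, hx0⟩
  obtain ⟨y0, -, hy0⟩ : ∃ y ∈ (univ : Finset V), y ∉ univ.biUnion F := by
    by_contra hno
    push Not at hno
    have := card_le_card (show (univ : Finset V) ⊆ univ.biUnion F from hno)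
    omega
  obtain ⟨p, -⟩ := hconn x0 (mem_univ _) y0 (mem_univ _)
  obtain ⟨d, -, hd1, hd2⟩ := p.exists_boundary_dart ((univ.biUnion F : Finset V) : Set V)
    (mem_coe.2 hx0') (fun h => hy0 (mem_coe.1 h))
  rw [mem_coe] at hd1 hd2
  obtain ⟨i1, -, hi1⟩ := mem_biUnion.1 hd1
  -- exchange the two cycles
  have e1 : univ.biUnion (fun t => F (Equiv.swap i i1 t)) = univ.biUnion F := by
    ext z
    simp only [mem_biUnion, mem_univ, true_and]
    constructor
    · rintro ⟨t, ht⟩
      exact ⟨_, ht⟩
    · rintro ⟨t, ht⟩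
      exact ⟨Equiv.swap i i1 t, by rwa [Equiv.swap_apply_self]⟩
  refine pendant_minor (F := fun t => F (Equiv.swap i i1 t)) (fun t => hF _)
    (fun a b hab => hd _ _ (fun h => hab ((Equiv.swap i i1).injective h))) j
    (x := d.fst) (u := d.snd) ?_ ?_ d.adj.symm ?_
  · show d.fst ∈ F (Equiv.swap i i1 i)
    rwa [Equiv.swap_apply_left]
  · rwa [e1]
  · rw [e1]
    exact hcard

/-- subdividing an edge -/
lemma forces_subdivide {s m : ℕ} (hs : 1 ≤ s) (h : Forces (cycles s (m + 1)) (4 * s + m))
    (i : Fin s) (a : Fin 4) :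
    Forces (subdivide (cycles s m) (Sum.inl (i, a)) (Sum.inl (i, a + 1))) (4 * s + m) := by
  refine forces_of_conn (by omega) ?_
  intro V _ _ G hconn hb
  obtain ⟨F, hF, -, hd, hcard⟩ := fam_of_minor (h V G (le_tw_of_not_bw hb))
  -- a family with a cycle of length at least five
  obtain ⟨F', i1, hF', hi1, hd', hcard'⟩ : ∃ (F' : Fin s → Finset V) (i1 : Fin s),
      (∀ t, Cyc G (F' t)) ∧ 5 ≤ (F' i1).card ∧ (∀ t t', t ≠ t' → Disjoint (F' t) (F' t')) ∧
      (univ.biUnion F').card + m ≤ (univ : Finset V).card := by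
    by_cases h5 : ∃ i1, 5 ≤ (F i1).card
    · obtain ⟨i1, hi1⟩ := h5
      exact ⟨F, i1, hF, hi1, hd, by omega⟩
    push Not at h5
    have h4 : ∀ t, (F t).card = 4 := fun t => by
      have e1 := h5 t
      have e2 := (hF t).four_le
      omega
    set D := (univ.erase i).biUnion F with hD
    have hDcard : D.card = 4 * (s - 1) := by
      rw [hD, card_biUnion (fun a _ b _ hab => hd a b hab), sum_congr rfl (fun t _ => h4 t),
        sum_const, card_erase_of_mem (mem_univ _), card_univ, Fintype.card_fin, smul_eq_mul,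
        mul_comm]
    have hU : 4 * s + (m + 1) ≤ (univ : Finset V).card := by
      rw [card_biUnion (fun a _ b _ hab => hd a b hab), sum_congr rfl (fun t _ => h4 t),
        sum_const, card_univ, Fintype.card_fin, smul_eq_mul, mul_comm] at hcard
      exact hcard
    have e1 := card_sdiff_add_card_eq_card (subset_univ D)
    obtain ⟨M, hM, hMc⟩ := exists_subset_card_eq (show m ≤ (univ \ D).card by omega)
    have h6 : ¬ Bw G ((univ \ D) \ M) 4 := by
      intro hb4
      apply hb
      have h7 := (hb4.add M).add D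
      refine h7.mono ?_ (by omega)
      intro z _
      simp only [mem_union, mem_sdiff, mem_univ, true_and]
      tauto
    obtain ⟨v, c, hc1, hc2, hc3⟩ := birmele (by norm_num) h6
    set C := c.support.toFinset with hC
    have hCc : C.card = c.length := card_cycle c hc1
    have hCy : Cyc G C := ⟨v, c, hc1, by omega, rfl⟩
    have hCsub : C ⊆ (univ \ D) \ M := fun z hz => hc3 z (List.mem_toFinset.1 hz)
    have hCD : ∀ t, t ≠ i → Disjoint C (F t) := by
      intro t ht
      rw [Finset.disjoint_left]
      intro z hz hz'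
      have h8 := hCsub hz
      rw [mem_sdiff, mem_sdiff] at h8
      exact h8.1.2 (mem_biUnion.2 ⟨t, mem_erase.2 ⟨ht, mem_univ _⟩, hz'⟩)
    have hup : ∀ t, Function.update F i C t = if t = i then C else F t := fun t => by
      rw [Function.update_apply]
    refine ⟨Function.update F i C, i, ?_, ?_, ?_, ?_⟩
    · intro t
      rw [hup]
      split_ifs
      · exact hCy
      · exact hF t
    · rw [hup, if_pos rfl]
      omega
    · intro t t' htt
      rw [hup, hup]
      split_ifs with h8 h9 h9
      · exact absurd (h8.trans h9.symm) htt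
      · exact hCD t' h9
      · exact (hCD t h8).symm
      · exact hd t t' htt
    · have h8 : Disjoint (univ.biUnion (Function.update F i C)) M := by
        rw [Finset.disjoint_left]
        intro z hz hzM
        obtain ⟨t, -, ht⟩ := mem_biUnion.1 hz
        rw [hup] at ht
        split_ifs at ht with h9
        · exact (mem_sdiff.1 (hCsub ht)).2 hzM
        · have h10 := hM hzM
          rw [mem_sdiff] at h10
          exact h10.2 (mem_biUnion.2 ⟨t, mem_erase.2 ⟨h9, mem_univ _⟩, ht⟩)
      have h9 := card_le_card (subset_univ (univ.biUnion (Function.update F i C) ∪ M))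
      rw [card_union_of_disjoint h8] at h9
      omega
  -- exchange the two cycles
  have e1 : univ.biUnion (fun t => F' (Equiv.swap i i1 t)) = univ.biUnion F' := by
    ext z
    simp only [mem_biUnion, mem_univ, true_and]
    constructor
    · rintro ⟨t, ht⟩
      exact ⟨_, ht⟩
    · rintro ⟨t, ht⟩
      exact ⟨Equiv.swap i i1 t, by rwa [Equiv.swap_apply_self]⟩
  refine subdivide_minor (F := fun t => F' (Equiv.swap i i1 t)) (fun t => hF' _)
    (fun a b hab => hd' _ _ (fun h => hab ((Equiv.swap i i1).injective h))) ?_ a ?_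
  · show 5 ≤ (F' (Equiv.swap i i1 i)).card
    rwa [Equiv.swap_apply_left]
  · rw [e1]
    exact hcard'

lemma subdivide_comm {W : Type} (H : SimpleGraph W) (u v : W) :
    subdivide H u v = subdivide H v u := by
  ext x y
  simp only [subdivide]
  rw [Sym2.eq_swap (a := u) (b := v), or_comm (a := y = some u), or_comm (a := x = some u)]

/-- the choice of `m` -/
theorem exists_m (s : ℕ) (hs : 1000000 ≤ s) :
    ∃ m, Forces (cycles s (m + 1)) (4 * s + m) ∧ ¬ Forces (cycles s m) (4 * s + m - 1) := by
  classical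
  have hex : ∃ m, Forces (cycles s m) (4 * s + m - 1) := by
    obtain ⟨m, hm⟩ := upper s (by omega)
    refine ⟨m, forces_of_conn (by omega) ?_⟩
    intro V _ _ G _ hb
    exact minor_of_fam (hm V G univ (4 * s + m - 1) (by omega) hb)
  have h0 : ¬ Forces (cycles s 0) (4 * s + 0 - 1) := by
    obtain ⟨V, i1, i2, G, S, h1, h2⟩ := lower s hs
    intro hf
    have h3 : ¬ Bw (G.comap (Subtype.val : {x // x ∈ S} → V)) univ (4 * s + 0 - 1) :=
      fun hb => h1 (bw_of_induce hb)
    obtain ⟨F, hF, -, hd, hcard⟩ := fam_of_minor (hf _ _ (le_tw_of_not_bw h3))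
    apply h2
    have hcyc : ∀ i, Cyc G ((F i).image Subtype.val) := by
      intro i
      obtain ⟨v, c, hc1, hc2, hc3⟩ := hF i
      let φ : G.comap (Subtype.val : {x // x ∈ S} → V) →g G :=
        { toFun := Subtype.val
          map_rel' := fun {a b} hab => hab }
      refine ⟨φ v, c.map φ, ?_, ?_, ?_⟩
      · exact (Walk.isCycle_map_iff_of_injective Subtype.val_injective).2 hc1
      · rw [Walk.length_map]; exact hc2
      · rw [Walk.support_map, ← hc3]
        ext z
        simp only [List.mem_toFinset, List.mem_map, mem_image]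
        rfl
    refine ⟨fun i => (F i).image Subtype.val, hcyc, ?_, ?_, ?_⟩
    · intro i z hz
      obtain ⟨x, -, rfl⟩ := mem_image.1 hz
      exact x.2
    · intro i j hij
      rw [Finset.disjoint_left]
      intro z hz hz'
      obtain ⟨x, hx, rfl⟩ := mem_image.1 hz
      obtain ⟨y, hy, hxy⟩ := mem_image.1 hz'
      rw [Subtype.ext hxy] at hy
      exact Finset.disjoint_left.1 (hd i j hij) hx hy
    · have e1 : univ.biUnion (fun i => (F i).image Subtype.val) ⊆ S := by
        intro z hz
        obtain ⟨i, -, hi⟩ := mem_biUnion.1 hz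
        obtain ⟨x, -, rfl⟩ := mem_image.1 hi
        exact x.2
      have := card_le_card e1
      omega
  obtain ⟨m, hm⟩ : ∃ m, Nat.find hex = m + 1 := by
    refine ⟨Nat.find hex - 1, ?_⟩
    have : Nat.find hex ≠ 0 := fun h => h0 (h ▸ Nat.find_spec hex)
    omega
  refine ⟨m, ?_, ?_⟩
  · have := Nat.find_spec hex
    rw [hm] at this
    exact this
  · exact Nat.find_min hex (by omega)

end Pool.Agent.R34
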