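import Mathlib
import Pool.Agent.R34.Defs
import Pool.Agent.TH507.Host

/-!
The graphs `cycles s m` are planar (they have neither `K_5` nor `K_{3,3}` as a minor).
-/

set_option autoImplicit false

namespace Pool.Agent.R34

open SimpleGraph Finset
open Pool.Agent.TH507.Host

/-- the next vertex on the cycle -/
def nxt {s m : ℕ} : (Fin s × Fin 4) ⊕ Fin m → (Fin s × Fin 4) ⊕ Fin m
  | Sum.inl (i, a) => Sum.inl (i, a + 1)
  | Sum.inr l => Sum.inr l

lemma edges_le {s m : ℕ} (U : Finset ((Fin s × Fin 4) ⊕ Fin m))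
    (E : Finset (Sym2 ((Fin s × Fin 4) ⊕ Fin m)))
    (hE : ∀ e ∈ E, ∃ x ∈ U, ∃ y ∈ U, e = s(x, y) ∧ (cycles s m).Adj x y) : E.card ≤ U.card := by
  classical
  have h : E ⊆ U.image (fun z => s(z, nxt z)) := by
    intro e he
    obtain ⟨x, hx, y, hy, rfl, i, a, b, rfl, rfl, hab⟩ := hE e he
    rw [mem_image]
    have key : ∀ a b : Fin 4, (cycleGraph 4).Adj a b → b = a + 1 ∨ a = b + 1 := by decide
    rcases key a b hab with rfl | rfl
    · exact ⟨_, hx, rfl⟩
    · exact ⟨_, hy, Sym2.eq_swap⟩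
  exact (card_le_card h).trans card_image_le

/-- a graph with more edges than vertices is not a minor of `cycles s m` -/
lemma not_minor {s m : ℕ} {W P : Type} [Fintype W] [DecidableEq W] [Fintype P]
    {H : SimpleGraph W} (a b : P → W) (hadj : ∀ p, H.Adj (a p) (b p))
    (hinj : ∀ p q, (a p = a q ∧ b p = b q) ∨ (a p = b q ∧ b p = a q) → p = q)
    (hcard : Fintype.card W < Fintype.card P) : ¬ IsMinor H (cycles s m) := by
  classical
  rintro ⟨B, h1, h2, h3⟩
  obtain ⟨E, hE, hE'⟩ := count_model (G := cycles s m) (fun x => (B x).toFinset)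
    (by
      intro x
      have : (((B x).toFinset : Finset _) : Set ((Fin s × Fin 4) ⊕ Fin m)) = B x :=
        Set.coe_toFinset _
      rw [this]
      exact h1 x)
    (fun x y hxy => Set.disjoint_toFinset.2 (h2 x y hxy)) a b
    (fun p => (hadj p).ne) hinj
    (fun p => by
      obtain ⟨u, hu, v, hv, huv⟩ := h3 _ _ (hadj p)
      exact ⟨u, Set.mem_toFinset.2 hu, v, Set.mem_toFinset.2 hv, huv⟩)
  have := edges_le _ E hE
  omega

lemma planar_cycles (s m : ℕ) : Planar (cycles s m) := by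
  constructor
  · refine not_minor (P := {p : Fin 5 × Fin 5 // p.1 < p.2}) (fun p => p.1.1) (fun p => p.1.2)
      (fun p => p.2.ne) ?_ ?_
    · rintro ⟨⟨a, b⟩, h⟩ ⟨⟨c, d⟩, h'⟩ (⟨h1, h2⟩ | ⟨h1, h2⟩)
      · simp only at h1 h2
        subst h1; subst h2
        rfl
      · simp only at h1 h2 h h'
        subst h1; subst h2
        exact absurd h (lt_asymm h')
    · decide
  · refine not_minor (P := Fin 3 × Fin 3) (fun p => Sum.inl p.1) (fun p => Sum.inr p.2)
      (fun p => by simp) ?_ ?_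
    · rintro ⟨a, b⟩ ⟨c, d⟩ (⟨h1, h2⟩ | ⟨h1, h2⟩)
      · simp only [Sum.inl.injEq, Sum.inr.injEq] at h1 h2
        rw [h1, h2]
      · simp at h1
    · decide

end Pool.Agent.R34
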